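import Pool.Agent.H71.DV.Def
import Pool.Agent.H96.DR.Lat

/-!
# [H71 DV LAT] points of a coset in a cube, three short vectors given: `H96.DR.lat3` in the notation of this chapter
-/

set_option autoImplicit false

namespace H71.DV

open Finset

theorem nm_of_nrm (D : ℝ) (v : ℤ × ℤ × ℤ) (h : (nrm v : ℝ) ≤ D) : H96.DR.Nm D v := by
  have key : ∀ a : ℤ, a ≤ nrm v → (a : ℝ) ≤ D := fun a ha => le_trans (by exact_mod_cast ha) h
  refine ⟨?_, ?_, ?_⟩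
  · rw [← Int.cast_abs]
    exact key _ (le_max_left _ _)
  · rw [← Int.cast_abs]
    exact key _ ((le_max_left _ _).trans (le_max_right _ _))
  · rw [← Int.cast_abs]
    exact key _ ((le_max_right _ _).trans (le_max_right _ _))

open Classical in
theorem lat3 (L : AddSubgroup (ℤ × ℤ × ℤ)) (m : ℕ) (hm : L.index = m) (hm0 : 0 < m) (D : ℝ) (hD : 1 ≤ D)
    (v1 v2 v3 : ℤ × ℤ × ℤ) (h1 : v1 ∈ L) (h2 : v2 ∈ L) (h3 : v3 ∈ L) (hdet : det3 v1 v2 v3 ≠ 0)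
    (n1 : (nrm v1 : ℝ) ≤ D) (n2 : (nrm v2 : ℝ) ≤ D) (n3 : (nrm v3 : ℝ) ≤ D) (x1 x2 x3 : ℤ) (A : ℕ) (x0 : ℤ × ℤ × ℤ) :
    (m : ℝ) * ((bx x1 x2 x3 A).filter fun x => x - x0 ∈ L).card ≤ (A + 6 * D) ^ 3 ∧
    (6 * D ≤ A → ((A : ℝ) - 6 * D) ^ 3 ≤ m * ((bx x1 x2 x3 A).filter fun x => x - x0 ∈ L).card) := by
  have h := H96.DR.lat3 L m hm hm0 v1 v2 v3 h1 h2 h3 hdet D (by linarith) (nm_of_nrm D v1 n1) (nm_of_nrm D v2 n2)
    (nm_of_nrm D v3 n3) x0 x1 x2 x3 A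
  have e : H96.DR.cnt L x0 x1 x2 x3 A = ((bx x1 x2 x3 A).filter fun x => x - x0 ∈ L).card := by
    unfold H96.DR.cnt H96.DR.box3 bx
    congr
  rw [e] at h
  exact h

end H71.DV
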