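import Pool.Agent.H71.DV.Pln
import Pool.Agent.H71.DV.Lat

/-!
# [H71 DV CN3] upper bound for the points of a coset in a cube, 40-80 lines

All nonzero vectors of `L` (index `m`) have norm `≥ R ≥ 1`. Then a cube of side `A ≥ 1` contains at most `343 A³/m + (2A/R+1)²` points of a coset.
PROOF. If there are three vectors of `L` of norm `< A` with `det3 ≠ 0` use `lat3` with `D = A` (`A + 6A = 7A`, `7³ = 343`). Otherwise `pln` with `S = A` for the set of these points (differences of two points of the cube have norm `< A`: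
`|x_i - y_i| ≤ A - 1`; `x - y = (x - x0) - (y - x0) ∈ L`).
-/

set_option autoImplicit false

namespace H71.DV

open Finset

private theorem nrm_sub_lt_bx' (x1 x2 x3 : ℤ) (A : ℕ) (x y : ℤ × ℤ × ℤ) (hx : x ∈ bx x1 x2 x3 A) (hy : y ∈ bx x1 x2 x3 A) :
    nrm (x - y) < A := by
  simp only [bx, mem_product, mem_Ioc] at hx hy
  unfold nrm
  simp only [Prod.fst_sub, Prod.snd_sub]
  refine max_lt ?_ (max_lt ?_ ?_) <;> rw [abs_lt] <;> constructor <;> linarith [hx.1.1, hx.1.2, hx.2.1.1, hx.2.1.2,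
    hx.2.2.1, hx.2.2.2, hy.1.1, hy.1.2, hy.2.1.1, hy.2.1.2, hy.2.2.1, hy.2.2.2]

open Classical in
theorem cn3 (L : AddSubgroup (ℤ × ℤ × ℤ)) (m : ℕ) (hm : L.index = m) (hm0 : 0 < m) (R : ℝ) (hR : 1 ≤ R)
    (hmin : ∀ v ∈ L, v ≠ 0 → R ≤ nrm v) (x1 x2 x3 : ℤ) (A : ℕ) (hA : 1 ≤ A) (x0 : ℤ × ℤ × ℤ) :
    (((bx x1 x2 x3 A).filter fun x => x - x0 ∈ L).card : ℝ) ≤ 343 * A ^ 3 / m + (2 * A / R + 1) ^ 2 := by
  have hR0 : 0 < R := by linarith
  have hm1 : (0 : ℝ) < m := by exact_mod_cast hm0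
  have hA1 : (1 : ℝ) ≤ A := by exact_mod_cast hA
  by_cases h : ∃ v1 ∈ L, ∃ v2 ∈ L, ∃ v3 ∈ L, nrm v1 < A ∧ nrm v2 < A ∧ nrm v3 < A ∧ det3 v1 v2 v3 ≠ 0
  · obtain ⟨v1, h1, v2, h2, v3, h3, n1, n2, n3, hdet⟩ := h
    have c : ∀ v : ℤ × ℤ × ℤ, nrm v < A → (nrm v : ℝ) ≤ A := by
      intro v hv
      exact_mod_cast hv.le
    have h4 := (lat3 L m hm hm0 A hA1 v1 v2 v3 h1 h2 h3 hdet (c _ n1) (c _ n2) (c _ n3) x1 x2 x3 A x0).1
    have h5 : (((bx x1 x2 x3 A).filter fun x => x - x0 ∈ L).card : ℝ) ≤ 343 * A ^ 3 / m := by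
      rw [le_div_iff₀ hm1]
      calc (((bx x1 x2 x3 A).filter fun x => x - x0 ∈ L).card : ℝ) * m
          = m * ((bx x1 x2 x3 A).filter fun x => x - x0 ∈ L).card := mul_comm _ _
        _ ≤ ((A : ℝ) + 6 * A) ^ 3 := h4
        _ = 343 * A ^ 3 := by ring
    have h6 : 0 ≤ (2 * (A : ℝ) / R + 1) ^ 2 := by positivity
    linarith
  · have hpl : ∀ v1 ∈ L, ∀ v2 ∈ L, ∀ v3 ∈ L, nrm v1 < A → nrm v2 < A → nrm v3 < A → det3 v1 v2 v3 = 0 := by
      intro v1 h1 v2 h2 v3 h3 n1 n2 n3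
      by_contra h'
      exact h ⟨v1, h1, v2, h2, v3, h3, n1, n2, n3, h'⟩
    have h5 := pln L R hR hmin A hpl ((bx x1 x2 x3 A).filter fun x => x - x0 ∈ L) (by
      intro x hx y hy
      rw [mem_filter] at hx hy
      refine ⟨?_, nrm_sub_lt_bx' _ _ _ _ _ _ hx.1 hy.1⟩
      have h6 := L.sub_mem hx.2 hy.2
      rwa [sub_sub_sub_cancel_right] at h6)
    have h6 : 0 ≤ 343 * (A : ℝ) ^ 3 / m := by positivity
    linarith

end H71.DV
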