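import Pool.Agent.H71.DV.Nne

/-!
# [H71 DV CRT] the two linear forms together, 40-80 lines

For `x ∈ P1 k A`, `y ∈ P2 k A` (`A ≥ 2`) the primes `x.1 ≤ A^0.7204 < A^0.761 < y.1` are different. Let `κ ≡ g x.2 + x.2² (mod x.1)`, `κ ≡ g y.2 + y.2² (mod y.1)` (Chinese remainder theorem: from `u x.1 + v y.1 = 1` take
`κ = κ1 + u x.1 (κ2 - κ1)`). Then `lf g s c x ∧ lf g s c y` iff `x.1 y.1 ∣ s - κ c` (`IsCoprime.mul_dvd`).
Also `κ³ - 3 k g κ - k (g³ + k)` is divisible by `x.1 y.1` (see `Nne`, `lf_II`: `II k g κ 1 ≡ 0` modulo both primes; stated as `∣ II k g κ 1`).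
-/

set_option autoImplicit false

namespace H71.DV

open Finset H96.DR H23.LP

theorem crt (k : ℤ) (A : ℕ) (hA : 2 ≤ A) (g : ℤ) (x y : ℕ × ℕ) (hx : x ∈ P1 k A) (hy : y ∈ P2 k A) :
    ∃ κ : ℤ, ((x.1 * y.1 : ℕ) : ℤ) ∣ II k g κ 1 ∧
      ∀ s c : ℤ, (lf g s c x ∧ lf g s c y) ↔ ((x.1 * y.1 : ℕ) : ℤ) ∣ s - κ * c := by
  rw [P1, PP, mem_filter] at hx
  rw [P2, PP, mem_filter] at hy
  obtain ⟨-, hxp, -, hx2, -, hxr⟩ := hx
  obtain ⟨-, hyp, hy2, -, -, hyr⟩ := hy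
  have hA1 : (1 : ℝ) ≤ A := by exact_mod_cast (by omega : 1 ≤ A)
  have h1 : (x.1 : ℝ) < y.1 :=
    lt_of_le_of_lt (hx2.trans (Real.rpow_le_rpow_of_exponent_le hA1 (by norm_num))) hy2
  have h2 : x.1 < y.1 := by exact_mod_cast h1
  have h3 : Nat.Coprime x.1 y.1 := (Nat.coprime_primes hxp hyp).2 h2.ne
  have h4 : IsCoprime (x.1 : ℤ) (y.1 : ℤ) := Nat.isCoprime_iff_coprime.2 h3
  obtain ⟨u, v, huv⟩ := h4
  set κ1 : ℤ := g * x.2 + (x.2 : ℤ) ^ 2 with hκ1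
  set κ2 : ℤ := g * y.2 + (y.2 : ℤ) ^ 2 with hκ2
  have e1 : (κ1 + u * x.1 * (κ2 - κ1)) - κ1 = (x.1 : ℤ) * (u * (κ2 - κ1)) := by ring
  have e2 : (κ1 + u * x.1 * (κ2 - κ1)) - κ2 = (y.1 : ℤ) * (v * (κ1 - κ2)) := by
    have : u * (x.1 : ℤ) = 1 - v * y.1 := by linarith
    rw [this]
    ring
  set κ : ℤ := κ1 + u * x.1 * (κ2 - κ1) with hκ
  have hcop : IsCoprime (x.1 : ℤ) (y.1 : ℤ) := ⟨u, v, huv⟩
  have d1 : ∀ s c : ℤ, lf g s c x ↔ (x.1 : ℤ) ∣ s - κ * c := by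
    intro s c
    have e3 : s - κ1 * c = (s - κ * c) + (x.1 : ℤ) * (u * (κ2 - κ1) * c) := by
      have : κ1 = κ - (x.1 : ℤ) * (u * (κ2 - κ1)) := by linarith
      calc s - κ1 * c = s - (κ - (x.1 : ℤ) * (u * (κ2 - κ1))) * c := by rw [← this]
        _ = _ := by ring
    unfold lf
    rw [← hκ1, e3]
    exact ⟨fun h => (dvd_add_left (Dvd.intro _ rfl)).1 h, fun h => dvd_add h (Dvd.intro _ rfl)⟩
  have d2 : ∀ s c : ℤ, lf g s c y ↔ (y.1 : ℤ) ∣ s - κ * c := by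
    intro s c
    have e3 : s - κ2 * c = (s - κ * c) + (y.1 : ℤ) * (v * (κ1 - κ2) * c) := by
      have : κ2 = κ - (y.1 : ℤ) * (v * (κ1 - κ2)) := by linarith
      calc s - κ2 * c = s - (κ - (y.1 : ℤ) * (v * (κ1 - κ2))) * c := by rw [← this]
        _ = _ := by ring
    unfold lf
    rw [← hκ2, e3]
    exact ⟨fun h => (dvd_add_left (Dvd.intro _ rfl)).1 h, fun h => dvd_add h (Dvd.intro _ rfl)⟩
  refine ⟨κ, ?_, fun s c => ?_⟩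
  · rw [Nat.cast_mul]
    refine hcop.mul_dvd (lf_II k g κ 1 x hxr ?_) (lf_II k g κ 1 y hyr ?_)
    · rw [d1, mul_one, sub_self]
      exact dvd_zero _
    · rw [d2, mul_one, sub_self]
      exact dvd_zero _
  · rw [d1, d2, Nat.cast_mul]
    exact ⟨fun h => hcop.mul_dvd h.1 h.2, fun h => ⟨(Dvd.intro _ rfl).trans h, (Dvd.intro_left _ rfl).trans h⟩⟩

end H71.DV
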