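import Pool.Agent.H96.DR.Def

/-!
# [H71 DV DEF] DR (MP_4d57ea_nt), chapter V: the variance of the weight `WW`. Definitions

Blueprint: helper96, think 1417. `WW k A a b c = ∑_{g ∈ GG A} RR k A g (a + g b) c` is close to `W0 k A` for almost all `(a,b,c)` in the box `Bx k M A`
(`Exc.lean`). First moment (`Fst`), second moment (`Off`), both by counting points of lattices in cubes.

* `nrm` sup norm on `ℤ³`, `det3` determinant, `bx` cubes of side `A`, `cube N` the vectors `≠ 0` of norm `≤ N`;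
* `Lam g g' m m' κ κ'` the lattice `m ∣ a + g b - κ c`, `m' ∣ a + g' b - κ' c`.
-/

set_option autoImplicit false

namespace H71.DV

open Finset

/-- sup norm -/
noncomputable def nrm (v : ℤ × ℤ × ℤ) : ℤ := max |v.1| (max |v.2.1| |v.2.2|)

/-- determinant -/
def det3 (u v w : ℤ × ℤ × ℤ) : ℤ :=
  u.1 * (v.2.1 * w.2.2 - v.2.2 * w.2.1) - u.2.1 * (v.1 * w.2.2 - v.2.2 * w.1) + u.2.2 * (v.1 * w.2.1 - v.2.1 * w.1)

/-- a cube of side `A` -/
noncomputable def bx (x1 x2 x3 : ℤ) (A : ℕ) : Finset (ℤ × ℤ × ℤ) := Ioc x1 (x1 + A) ×ˢ (Ioc x2 (x2 + A) ×ˢ Ioc x3 (x3 + A))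

/-- the vectors `≠ 0` of norm `≤ N` -/
noncomputable def cube (N : ℕ) : Finset (ℤ × ℤ × ℤ) :=
  (Icc (-(N : ℤ)) N ×ˢ (Icc (-(N : ℤ)) N ×ˢ Icc (-(N : ℤ)) N)).filter fun v => v ≠ 0

/-- the lattice of two congruences -/
def Lam (g g' : ℤ) (m m' : ℕ) (κ κ' : ℤ) : AddSubgroup (ℤ × ℤ × ℤ) where
  carrier := {v | (m : ℤ) ∣ v.1 + g * v.2.1 - κ * v.2.2 ∧ (m' : ℤ) ∣ v.1 + g' * v.2.1 - κ' * v.2.2}
  zero_mem' := by simp
  add_mem' := by
    rintro u v ⟨h1, h2⟩ ⟨h3, h4⟩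
    constructor
    · have e : (u + v).1 + g * (u + v).2.1 - κ * (u + v).2.2 =
          (u.1 + g * u.2.1 - κ * u.2.2) + (v.1 + g * v.2.1 - κ * v.2.2) := by
        simp only [Prod.fst_add, Prod.snd_add]; ring
      rw [e]; exact dvd_add h1 h3
    · have e : (u + v).1 + g' * (u + v).2.1 - κ' * (u + v).2.2 =
          (u.1 + g' * u.2.1 - κ' * u.2.2) + (v.1 + g' * v.2.1 - κ' * v.2.2) := by
        simp only [Prod.fst_add, Prod.snd_add]; ring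
      rw [e]; exact dvd_add h2 h4
  neg_mem' := by
    rintro u ⟨h1, h2⟩
    constructor
    · have e : (-u).1 + g * (-u).2.1 - κ * (-u).2.2 = -(u.1 + g * u.2.1 - κ * u.2.2) := by
        simp only [Prod.fst_neg, Prod.snd_neg]; ring
      rw [e]; exact (dvd_neg).2 h1
    · have e : (-u).1 + g' * (-u).2.1 - κ' * (-u).2.2 = -(u.1 + g' * u.2.1 - κ' * u.2.2) := by
        simp only [Prod.fst_neg, Prod.snd_neg]; ring
      rw [e]; exact (dvd_neg).2 h2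

theorem mem_Lam (g g' : ℤ) (m m' : ℕ) (κ κ' : ℤ) (v : ℤ × ℤ × ℤ) : v ∈ Lam g g' m m' κ κ' ↔
    (m : ℤ) ∣ v.1 + g * v.2.1 - κ * v.2.2 ∧ (m' : ℤ) ∣ v.1 + g' * v.2.1 - κ' * v.2.2 := Iff.rfl

/-- the mass `∑ 1/q` of a set of pairs `(q, ρ)` -/
noncomputable def ms (P : Finset (ℕ × ℕ)) : ℝ := ∑ x ∈ P, 1 / (x.1 : ℝ)

end H71.DV
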