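import Pool.Agent.H71.DV.Var

/-!
# [H71 DV EXC] RESULT of chapter V, 60-100 lines

From `var` and `W0_low` (`c A^0.0062 ≤ W0`). First: every exceptional `x` contributes `≥ ε² W0²` to the variance, so their number is `≤ (C A^3.0062 + C W0² A^2.9937)/(ε² W0²) ≤ (C/(ε² c²)) A^2.9938 + (C/ε²) A^2.9937 ≤ A^2.9939` for `A ≥ A0`.
Second: Cauchy-Schwarz (`Finset.inner_mul_le_norm_mul_norm` or `sq_sum_le_card_mul_sum_sq`, `card_Bx`): `(∑ |WW - W0|)² ≤ A³ (C A^3.0062 + C W0² A^2.9937) ≤ (C/c²) W0² A^5.9938 + C W0² A^5.9937 ≤ W0² A^5.996`.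
-/

set_option autoImplicit false

namespace H71.DV

open Finset H96.DR H23.LP

private theorem big (y : ℝ) (hy : 0 < y) (B : ℝ) : ∃ A0 : ℕ, ∀ A : ℕ, A0 ≤ A → B ≤ (A : ℝ) ^ y := by
  have h := ((tendsto_rpow_atTop hy).comp (tendsto_natCast_atTop_atTop (R := ℝ))).eventually
    (Filter.eventually_ge_atTop B)
  exact Filter.eventually_atTop.1 h

open Classical in
theorem exc (k : ℤ) (hk : ∀ t : ℤ, t ^ 3 ≠ k) (M : ℕ) (hM : 1 ≤ M) (ε : ℝ) (hε : 0 < ε) : ∃ A0 : ℕ, ∀ A : ℕ, A0 ≤ A →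
    (((Bx k M A).filter fun x => ε * W0 k A < |(WW k A x.1 x.2.1 x.2.2 : ℝ) - W0 k A|).card : ℝ) ≤ (A : ℝ) ^ (2.9939 : ℝ) ∧
    ∑ x ∈ Bx k M A, |(WW k A x.1 x.2.1 x.2.2 : ℝ) - W0 k A| ≤ W0 k A * (A : ℝ) ^ (2.998 : ℝ) := by
  obtain ⟨C, hC, A1, h1⟩ := var k hk M hM
  obtain ⟨c, hc, A2, h2⟩ := W0_low k hk
  obtain ⟨A3, h3⟩ := big 0.0001 (by norm_num) ((C / c ^ 2 + C) / ε ^ 2)
  obtain ⟨A4, h4⟩ := big 0.0022 (by norm_num) (C / c ^ 2 + C)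
  refine ⟨max 1 (max (max A1 A2) (max A3 A4)), fun A hA => ?_⟩
  have hA0 : 1 ≤ A := (le_max_left _ _).trans hA
  have hA' := (le_max_right _ _).trans hA
  have hA1 : A1 ≤ A := ((le_max_left _ _).trans (le_max_left _ _)).trans hA'
  have hA2 : A2 ≤ A := ((le_max_right _ _).trans (le_max_left _ _)).trans hA'
  have hA3 : A3 ≤ A := ((le_max_left _ _).trans (le_max_right _ _)).trans hA'
  have hA4 : A4 ≤ A := ((le_max_right _ _).trans (le_max_right _ _)).trans hA'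
  have hr0 : (0 : ℝ) < (A : ℝ) := by exact_mod_cast hA0
  have hr1 : (1 : ℝ) ≤ (A : ℝ) := by exact_mod_cast hA0
  have g1 := h1 A hA1
  have g2 := h2 A hA2
  have g3 := h3 A hA3
  have g4 := h4 A hA4
  obtain ⟨W, hW⟩ : ∃ W : ℝ, W = W0 k A := ⟨_, rfl⟩
  rw [← hW] at g1 g2 ⊢
  have hW0 : 0 < W := lt_of_lt_of_le (mul_pos hc (Real.rpow_pos_of_pos hr0 _)) g2
  obtain ⟨f, hf⟩ : ∃ f : ℤ × ℤ × ℤ → ℝ, f = fun x => (WW k A x.1 x.2.1 x.2.2 : ℝ) - W := ⟨_, rfl⟩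
  -- the total
  have hT : ∑ x ∈ Bx k M A, f x ^ 2 ≤ W ^ 2 * ((C / c ^ 2 + C) * (A : ℝ) ^ (2.9938 : ℝ)) := by
    rw [hf]
    refine g1.trans ?_
    have e1 : (A : ℝ) ^ (3.0062 : ℝ) = ((A : ℝ) ^ (0.0062 : ℝ)) ^ 2 * (A : ℝ) ^ (2.9938 : ℝ) := by
      rw [← Real.rpow_natCast, ← Real.rpow_mul hr0.le, ← Real.rpow_add hr0]
      norm_num
    have e2 : (A : ℝ) ^ (2.9937 : ℝ) ≤ (A : ℝ) ^ (2.9938 : ℝ) :=
      Real.rpow_le_rpow_of_exponent_le hr1 (by norm_num)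
    have e3 : (c * (A : ℝ) ^ (0.0062 : ℝ)) ^ 2 ≤ W ^ 2 := pow_le_pow_left₀ (by positivity) g2 2
    have e4 : C * (A : ℝ) ^ (3.0062 : ℝ) ≤ W ^ 2 * (C / c ^ 2 * (A : ℝ) ^ (2.9938 : ℝ)) := by
      rw [e1]
      have e5 : C * (((A : ℝ) ^ (0.0062 : ℝ)) ^ 2 * (A : ℝ) ^ (2.9938 : ℝ)) =
          (c * (A : ℝ) ^ (0.0062 : ℝ)) ^ 2 * (C / c ^ 2 * (A : ℝ) ^ (2.9938 : ℝ)) := by
        field_simp
      rw [e5]
      exact mul_le_mul_of_nonneg_right e3 (by positivity)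
    have e6 : C * W ^ 2 * (A : ℝ) ^ (2.9937 : ℝ) ≤ W ^ 2 * (C * (A : ℝ) ^ (2.9938 : ℝ)) := by
      have e7 : C * W ^ 2 * (A : ℝ) ^ (2.9937 : ℝ) = W ^ 2 * (C * (A : ℝ) ^ (2.9937 : ℝ)) := by ring
      rw [e7]
      exact mul_le_mul_of_nonneg_left (mul_le_mul_of_nonneg_left e2 hC.le) (by positivity)
    calc C * (A : ℝ) ^ (3.0062 : ℝ) + C * W ^ 2 * (A : ℝ) ^ (2.9937 : ℝ)
        ≤ W ^ 2 * (C / c ^ 2 * (A : ℝ) ^ (2.9938 : ℝ)) + W ^ 2 * (C * (A : ℝ) ^ (2.9938 : ℝ)) := add_le_add e4 e6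
      _ = W ^ 2 * ((C / c ^ 2 + C) * (A : ℝ) ^ (2.9938 : ℝ)) := by ring
  constructor
  · -- the number of exceptions
    have k1 : (((Bx k M A).filter fun x => ε * W < |f x|).card : ℝ) * (ε ^ 2 * W ^ 2) ≤
        ∑ x ∈ Bx k M A, f x ^ 2 := by
      rw [← nsmul_eq_mul, ← sum_const]
      refine (sum_le_sum fun x hx => ?_).trans (sum_le_sum_of_subset_of_nonneg (filter_subset _ _)
        fun x _ _ => sq_nonneg _)
      have k2 := (mem_filter.1 hx).2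
      rw [← sq_abs (f x), ← mul_pow]
      exact pow_le_pow_left₀ (by positivity) k2.le 2
    have k3 := k1.trans hT
    have k4 : (((Bx k M A).filter fun x => ε * W < |f x|).card : ℝ) ≤
        (C / c ^ 2 + C) / ε ^ 2 * (A : ℝ) ^ (2.9938 : ℝ) := by
      have k5 : (((Bx k M A).filter fun x => ε * W < |f x|).card : ℝ) * (ε ^ 2 * W ^ 2) ≤
          (C / c ^ 2 + C) / ε ^ 2 * (A : ℝ) ^ (2.9938 : ℝ) * (ε ^ 2 * W ^ 2) := by
        refine k3.trans (le_of_eq ?_)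
        field_simp
      exact le_of_mul_le_mul_right k5 (by positivity)
    have k6 : (C / c ^ 2 + C) / ε ^ 2 * (A : ℝ) ^ (2.9938 : ℝ) ≤ (A : ℝ) ^ (2.9939 : ℝ) := by
      calc (C / c ^ 2 + C) / ε ^ 2 * (A : ℝ) ^ (2.9938 : ℝ)
          ≤ (A : ℝ) ^ (0.0001 : ℝ) * (A : ℝ) ^ (2.9938 : ℝ) :=
            mul_le_mul_of_nonneg_right g3 (Real.rpow_nonneg hr0.le _)
        _ = (A : ℝ) ^ (2.9939 : ℝ) := by
            rw [← Real.rpow_add hr0]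
            norm_num
    have k7 := k4.trans k6
    rw [hf] at k7
    exact k7
  · -- the mean
    have k1 : (∑ x ∈ Bx k M A, |f x|) ^ 2 ≤ (Bx k M A).card * ∑ x ∈ Bx k M A, |f x| ^ 2 :=
      sq_sum_le_card_mul_sum_sq
    have k2 : ∑ x ∈ Bx k M A, |f x| ^ 2 = ∑ x ∈ Bx k M A, f x ^ 2 :=
      sum_congr rfl fun x _ => sq_abs _
    rw [k2, card_Bx] at k1
    push_cast at k1
    have k3 : (A : ℝ) ^ 3 * ∑ x ∈ Bx k M A, f x ^ 2 ≤ (W * (A : ℝ) ^ (2.998 : ℝ)) ^ 2 := by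
      calc (A : ℝ) ^ 3 * ∑ x ∈ Bx k M A, f x ^ 2
          ≤ (A : ℝ) ^ 3 * (W ^ 2 * ((C / c ^ 2 + C) * (A : ℝ) ^ (2.9938 : ℝ))) :=
            mul_le_mul_of_nonneg_left hT (by positivity)
        _ ≤ (A : ℝ) ^ 3 * (W ^ 2 * ((A : ℝ) ^ (0.0022 : ℝ) * (A : ℝ) ^ (2.9938 : ℝ))) := by
            refine mul_le_mul_of_nonneg_left (mul_le_mul_of_nonneg_left
              (mul_le_mul_of_nonneg_right g4 (Real.rpow_nonneg hr0.le _)) (by positivity)) (by positivity)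
        _ = (W * (A : ℝ) ^ (2.998 : ℝ)) ^ 2 := by
            have k4 : (A : ℝ) ^ 3 * ((A : ℝ) ^ (0.0022 : ℝ) * (A : ℝ) ^ (2.9938 : ℝ)) =
                ((A : ℝ) ^ (2.998 : ℝ)) ^ 2 := by
              rw [← Real.rpow_natCast, ← Real.rpow_natCast, ← Real.rpow_mul hr0.le, ← Real.rpow_add hr0,
                ← Real.rpow_add hr0]
              norm_num
            rw [mul_pow, ← k4]
            ring
    have k5 : (∑ x ∈ Bx k M A, |f x|) ^ 2 ≤ (W * (A : ℝ) ^ (2.998 : ℝ)) ^ 2 := k1.trans k3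
    have k6 := (pow_le_pow_iff_left₀ (sum_nonneg fun x _ => abs_nonneg _)
      (mul_nonneg hW0.le (Real.rpow_nonneg hr0.le _)) two_ne_zero).1 k5
    rw [hf] at k6
    exact k6

end H71.DV
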