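import Pool.Agent.H71.DV.Def

/-!
# [H71 DV IDX] the index of `Lam`, 60-120 lines

If `g - g'` is prime to `m'` then `Lam g g' m m' κ κ'` has index `m m'`.
PROOF. `Lam` is the kernel of the homomorphism `φ : ℤ × ℤ × ℤ →+ ZMod m × ZMod m'`, `v ↦ (v.1 + g v.2.1 - κ v.2.2, v.1 + g' v.2.1 - κ' v.2.2)` (`ZMod.intCast_zmod_eq_zero_iff_dvd`). It is surjective: given `(x, x')` (integers modulo `m`, `m'`) take
`c = 0` and `b` with `(g - g') b ≡ x - x' (mod m')` (Bezout: `u (g - g') + v m' = 1`, `b = u (x - x')`), `a = x - g b`; then `a + g b = x`, `a + g' b = x - (g - g') b ≡ x' (mod m')`.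
`AddSubgroup.index_ker`, `Nat.card (ZMod m × ZMod m') = m m'` (`Nat.card_prod`, `Nat.card_zmod`), range `= ⊤`.
-/

set_option autoImplicit false

namespace H71.DV

open Finset

theorem idx (g g' : ℤ) (m m' : ℕ) (κ κ' : ℤ) (hm : 0 < m) (hm' : 0 < m') (h : IsCoprime (g - g') (m' : ℤ)) :
    (Lam g g' m m' κ κ').index = m * m' := by
  let φ : ℤ × ℤ × ℤ →+ ZMod m × ZMod m' :=
    { toFun := fun v => (((v.1 + g * v.2.1 - κ * v.2.2 : ℤ) : ZMod m), ((v.1 + g' * v.2.1 - κ' * v.2.2 : ℤ) : ZMod m'))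
      map_zero' := by simp
      map_add' := by
        intro u v
        ext <;> simp only [Prod.fst_add, Prod.snd_add] <;> push_cast <;> ring }
  have hker : φ.ker = Lam g g' m m' κ κ' := by
    ext v
    rw [AddMonoidHom.mem_ker, mem_Lam]
    change (((v.1 + g * v.2.1 - κ * v.2.2 : ℤ) : ZMod m), ((v.1 + g' * v.2.1 - κ' * v.2.2 : ℤ) : ZMod m')) = 0 ↔ _
    rw [Prod.mk_eq_zero, ZMod.intCast_zmod_eq_zero_iff_dvd, ZMod.intCast_zmod_eq_zero_iff_dvd]
  have hsurj : Function.Surjective φ := by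
    rintro ⟨y, y'⟩
    obtain ⟨x, rfl⟩ := ZMod.intCast_surjective y
    obtain ⟨x', rfl⟩ := ZMod.intCast_surjective y'
    obtain ⟨u, v, huv⟩ := h
    refine ⟨(x - g * (u * (x - x')), u * (x - x'), 0), ?_⟩
    change (((x - g * (u * (x - x')) + g * (u * (x - x')) - κ * 0 : ℤ) : ZMod m),
      ((x - g * (u * (x - x')) + g' * (u * (x - x')) - κ' * 0 : ℤ) : ZMod m')) = _
    refine Prod.ext ?_ ?_
    · change ((x - g * (u * (x - x')) + g * (u * (x - x')) - κ * 0 : ℤ) : ZMod m) = ((x : ℤ) : ZMod m)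
      congr 1
      ring
    · change ((x - g * (u * (x - x')) + g' * (u * (x - x')) - κ' * 0 : ℤ) : ZMod m') = ((x' : ℤ) : ZMod m')
      rw [ZMod.intCast_eq_intCast_iff_dvd_sub]
      refine ⟨-(v * (x - x')), ?_⟩
      linear_combination (x - x') * huv
  rw [← hker, AddSubgroup.index_ker, AddMonoidHom.range_eq_top.2 hsurj]
  simp [Nat.card_prod, Nat.card_zmod]

end H71.DV
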