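import Pool.Agent.H71.DV.Thr
import Pool.Agent.H71.DV.Idx
import Pool.Agent.H71.DV.Lat
import Pool.Agent.H71.DV.Crt

/-!
# [H71 DV FST] the first moment, 80-150 lines

`g ∈ GG A`, so `1 ≤ g ≤ 2 Gn A ≤ 4 A^0.0062`. `RR k A g (x.1 + g x.2.1) x.2.2 = #{(p,q) ∈ P1 × P2 : x ∈ Lam g g m 1 κ κ}` with `m = p.1 q.1` and `κ` from `crt` (depending on `(p,q)`; `1 ∣ _` is trivial). So the sum is `∑_{(p,q)} #(Bx ∩ L)`.
`L` has index `m · 1` (`idx` with `m' = 1`: `isCoprime_one_right`), `Bx k M A = bx (2 L² (M A)) (L (M A)) (M A) A`. `thr`: three vectors of norm `≤ D := C (m^(2/3) + g) ≤ C (A^0.98787 + 4 A^0.0062) ≤ A^0.99` for `A ≥ A0` (`m ≤ A^0.7204 A^0.7614 = A^1.4818`,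
`m^(2/3) ≤ A^0.98787`). `lat3` (lower bound, `x0 = 0`, `D := A^0.99`): `# ≥ (A - 6 A^0.99)³/m = A³ (1 - 6 A^(-0.01))³/m ≥ A³ (1 - 18 A^(-0.01))/m ≥ (1 - A^(-0.0063)) A³/m`. Sum over `(p,q)`: `∑ 1/m = ms P1 * ms P2`.
-/

set_option autoImplicit false

namespace H71.DV

open Finset H96.DR H23.LP Filter

private theorem bx_eq (k : ℤ) (M A : ℕ) :
    Bx k M A = bx (2 * LL k ^ 2 * (M * A)) (LL k * (M * A)) ((M : ℤ) * A) A := rfl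

open Classical in
/-- the bound for one pair of primes -/
private theorem fst_one (k : ℤ) (hk : ∀ t : ℤ, t ^ 3 ≠ k) : ∃ A0 : ℕ, 2 ≤ A0 ∧ ∀ A : ℕ, A0 ≤ A → ∀ g ∈ GG A,
    ∀ x ∈ P1 k A, ∀ y ∈ P2 k A, ∀ κ : ℤ, ((x.1 * y.1 : ℕ) : ℤ) ∣ II k g κ 1 → ∀ M : ℕ,
    (1 - (A : ℝ) ^ (-(0.0063 : ℝ))) * (A : ℝ) ^ 3 * (1 / (x.1 : ℝ) * (1 / (y.1 : ℝ))) ≤
      (((Bx k M A).filter fun v => v - 0 ∈ Lam g g (x.1 * y.1) 1 κ κ).card : ℝ) := by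
  classical
  obtain ⟨C, hC1, hC⟩ := thr k hk
  obtain ⟨A0, hA0⟩ : ∃ A0 : ℕ, ∀ A : ℕ, A0 ≤ A → max (5 * C) 18 ≤ (A : ℝ) ^ (0.0021 : ℝ) := by
    have h1 : Tendsto (fun A : ℕ => (A : ℝ) ^ (0.0021 : ℝ)) atTop atTop :=
      (tendsto_rpow_atTop (by norm_num)).comp tendsto_natCast_atTop_atTop
    exact eventually_atTop.1 (h1.eventually_ge_atTop _)
  refine ⟨max A0 2, le_max_right _ _, fun A hA g hg x hx y hy κ hκ M => ?_⟩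
  have hA2 : 2 ≤ A := (le_max_right _ _).trans hA
  have hA1 : (1 : ℝ) ≤ A := by exact_mod_cast (by omega : 1 ≤ A)
  have hA00 : (0 : ℝ) < A := by linarith
  have hbig := hA0 A ((le_max_left _ _).trans hA)
  have hb1 : 5 * C ≤ (A : ℝ) ^ (0.0021 : ℝ) := (le_max_left _ _).trans hbig
  have hb2 : 18 ≤ (A : ℝ) ^ (0.0021 : ℝ) := (le_max_right _ _).trans hbig
  -- the primes
  unfold P1 PP at hx
  unfold P2 PP at hy
  rw [Finset.mem_filter] at hx hy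
  obtain ⟨-, hx1, -, hx3, -, -⟩ := hx
  obtain ⟨-, hy1, -, hy3, -, -⟩ := hy
  have hx0 : (0 : ℝ) < x.1 := by exact_mod_cast hx1.pos
  have hy0 : (0 : ℝ) < y.1 := by exact_mod_cast hy1.pos
  obtain ⟨m, hm⟩ : ∃ m : ℕ, m = x.1 * y.1 := ⟨_, rfl⟩
  have hm0 : 0 < m := by rw [hm]; exact Nat.mul_pos hx1.pos hy1.pos
  have hmr : (m : ℝ) = (x.1 : ℝ) * y.1 := by rw [hm]; push_cast; ring
  have hm0' : (0 : ℝ) < m := by exact_mod_cast hm0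
  have hmA : (m : ℝ) ≤ (A : ℝ) ^ (1.4818 : ℝ) := by
    rw [hmr]
    calc (x.1 : ℝ) * y.1 ≤ (A : ℝ) ^ (0.7204 : ℝ) * (A : ℝ) ^ (0.7614 : ℝ) :=
          mul_le_mul hx3 hy3 hy0.le (by positivity)
      _ = (A : ℝ) ^ (1.4818 : ℝ) := by
          rw [← Real.rpow_add hA00]
          norm_num
  have hm23 : (m : ℝ) ^ (2 / 3 : ℝ) ≤ (A : ℝ) ^ (0.9879 : ℝ) := by
    calc (m : ℝ) ^ (2 / 3 : ℝ) ≤ ((A : ℝ) ^ (1.4818 : ℝ)) ^ (2 / 3 : ℝ) :=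
          Real.rpow_le_rpow hm0'.le hmA (by norm_num)
      _ = (A : ℝ) ^ (1.4818 * (2 / 3) : ℝ) := by rw [← Real.rpow_mul hA00.le]
      _ ≤ (A : ℝ) ^ (0.9879 : ℝ) := Real.rpow_le_rpow_of_exponent_le hA1 (by norm_num)
  -- the direction
  unfold GG at hg
  rw [Finset.mem_Ioc] at hg
  have hGn : (Gn A : ℝ) ≤ 2 * (A : ℝ) ^ (0.0062 : ℝ) := by
    unfold Gn
    have h1 := Nat.ceil_lt_add_one (by positivity : (0 : ℝ) ≤ (A : ℝ) ^ (0.0062 : ℝ))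
    have h2 : (1 : ℝ) ≤ (A : ℝ) ^ (0.0062 : ℝ) := Real.one_le_rpow hA1 (by norm_num)
    linarith
  have hg1 : 1 ≤ g := by
    have : (0 : ℤ) ≤ (Gn A : ℤ) := Int.natCast_nonneg _
    omega
  have hgA : (g : ℝ) ≤ 4 * (A : ℝ) ^ (0.9879 : ℝ) := by
    have h1 : (g : ℝ) ≤ 2 * (Gn A : ℝ) := by exact_mod_cast hg.2
    have h2 : (A : ℝ) ^ (0.0062 : ℝ) ≤ (A : ℝ) ^ (0.9879 : ℝ) :=
      Real.rpow_le_rpow_of_exponent_le hA1 (by norm_num)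
    linarith
  -- the short vectors
  obtain ⟨D, hD⟩ : ∃ D : ℝ, D = (A : ℝ) ^ (0.99 : ℝ) := ⟨_, rfl⟩
  have hCD : C * ((m : ℝ) ^ (2 / 3 : ℝ) + g) ≤ D := by
    have h1 : (m : ℝ) ^ (2 / 3 : ℝ) + g ≤ 5 * (A : ℝ) ^ (0.9879 : ℝ) := by linarith
    calc C * ((m : ℝ) ^ (2 / 3 : ℝ) + g) ≤ C * (5 * (A : ℝ) ^ (0.9879 : ℝ)) :=
          mul_le_mul_of_nonneg_left h1 (by linarith)
      _ = 5 * C * (A : ℝ) ^ (0.9879 : ℝ) := by ring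
      _ ≤ (A : ℝ) ^ (0.0021 : ℝ) * (A : ℝ) ^ (0.9879 : ℝ) :=
          mul_le_mul_of_nonneg_right hb1 (by positivity)
      _ = D := by
          rw [hD, ← Real.rpow_add hA00]
          norm_num
  have hD1 : 1 ≤ D := by rw [hD]; exact Real.one_le_rpow hA1 (by norm_num)
  obtain ⟨v1, hv1, v2, hv2, v3, hv3, hdet, n1, n2, n3⟩ := hC g hg1 m hm0 κ (by rw [hm]; exact hκ)
  have hidx : (Lam g g m 1 κ κ).index = m := by
    have h1 := idx g g m 1 κ κ hm0 Nat.one_pos (by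
      rw [Nat.cast_one]
      exact isCoprime_one_right)
    rw [h1, mul_one]
  have h6 : 6 * D ≤ A := by
    have h1 : (6 : ℝ) ≤ (A : ℝ) ^ (0.01 : ℝ) := by
      have h2 : (A : ℝ) ^ (0.0021 : ℝ) ≤ (A : ℝ) ^ (0.01 : ℝ) :=
        Real.rpow_le_rpow_of_exponent_le hA1 (by norm_num)
      linarith
    calc 6 * D ≤ (A : ℝ) ^ (0.01 : ℝ) * D := mul_le_mul_of_nonneg_right h1 (by linarith)
      _ = A := by
        rw [hD, ← Real.rpow_add hA00]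
        norm_num
  have hlat := (lat3 (Lam g g m 1 κ κ) m hidx hm0 D hD1 v1 v2 v3 hv1 hv2 hv3 hdet (n1.trans hCD) (n2.trans hCD)
    (n3.trans hCD) (2 * LL k ^ 2 * (M * A)) (LL k * (M * A)) ((M : ℤ) * A) A 0).2 h6
  rw [← bx_eq] at hlat
  -- the main term
  obtain ⟨u, hu⟩ : ∃ u : ℝ, u = (A : ℝ) ^ (-(0.01 : ℝ)) := ⟨_, rfl⟩
  have hu0 : 0 < u := by rw [hu]; positivity
  have hDu : D = A * u := by
    rw [hD, hu]
    nth_rewrite 2 [← Real.rpow_one (A : ℝ)]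
    rw [← Real.rpow_add hA00]
    norm_num
  have hu6 : 6 * u ≤ 1 := by
    rw [hDu] at h6
    have h1 : (A : ℝ) * (6 * u) ≤ A * 1 := by linarith
    exact le_of_mul_le_mul_left h1 hA00
  have hu18 : 18 * u ≤ (A : ℝ) ^ (-(0.0063 : ℝ)) := by
    have h1 : (18 : ℝ) ≤ (A : ℝ) ^ (0.0037 : ℝ) := by
      have h2 : (A : ℝ) ^ (0.0021 : ℝ) ≤ (A : ℝ) ^ (0.0037 : ℝ) :=
        Real.rpow_le_rpow_of_exponent_le hA1 (by norm_num)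
      linarith
    calc 18 * u ≤ (A : ℝ) ^ (0.0037 : ℝ) * u := mul_le_mul_of_nonneg_right h1 hu0.le
      _ = (A : ℝ) ^ (-(0.0063 : ℝ)) := by
        rw [hu, ← Real.rpow_add hA00]
        norm_num
  have hcube : (1 - (A : ℝ) ^ (-(0.0063 : ℝ))) * (A : ℝ) ^ 3 ≤ ((A : ℝ) - 6 * D) ^ 3 := by
    have h1 : ((A : ℝ) - 6 * D) ^ 3 = (1 - 6 * u) ^ 3 * (A : ℝ) ^ 3 := by
      rw [hDu]
      ring
    rw [h1]
    refine mul_le_mul_of_nonneg_right ?_ (by positivity)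
    have h2 : 1 - 18 * u ≤ (1 - 6 * u) ^ 3 := by
      have h3 : (1 - 6 * u) ^ 3 - (1 - 18 * u) = 108 * u ^ 2 * (1 - 2 * u) := by ring
      have h4 : 0 ≤ 108 * u ^ 2 * (1 - 2 * u) := by
        have : 0 ≤ 1 - 2 * u := by linarith
        positivity
      linarith
    linarith
  have h7 := hcube.trans hlat
  have h8 : 1 / (x.1 : ℝ) * (1 / (y.1 : ℝ)) = 1 / m := by
    rw [hmr]
    field_simp
  rw [h8, mul_one_div, div_le_iff₀ hm0', mul_comm _ (m : ℝ), ← hm]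
  refine h7.trans (le_of_eq ?_)
  congr!

theorem fst (k : ℤ) (hk : ∀ t : ℤ, t ^ 3 ≠ k) (M : ℕ) (hM : 1 ≤ M) : ∃ A0 : ℕ, ∀ A : ℕ, A0 ≤ A → ∀ g ∈ GG A,
    (1 - (A : ℝ) ^ (-(0.0063 : ℝ))) * (A : ℝ) ^ 3 * (ms (P1 k A) * ms (P2 k A)) ≤
      ∑ x ∈ Bx k M A, (RR k A g (x.1 + g * x.2.1) x.2.2 : ℝ) := by
  classical
  obtain ⟨A0, hA02, hA0⟩ := fst_one k hk
  refine ⟨A0, fun A hA g hg => ?_⟩
  have h1 : ms (P1 k A) * ms (P2 k A) = ∑ z ∈ P1 k A ×ˢ P2 k A, 1 / (z.1.1 : ℝ) * (1 / (z.2.1 : ℝ)) := by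
    unfold ms
    rw [Finset.sum_mul_sum, Finset.sum_product]
  have h2 : ∑ x ∈ Bx k M A, (RR k A g (x.1 + g * x.2.1) x.2.2 : ℝ) =
      ∑ z ∈ P1 k A ×ˢ P2 k A, (((Bx k M A).filter fun x =>
        lf g (x.1 + g * x.2.1) x.2.2 z.1 ∧ lf g (x.1 + g * x.2.1) x.2.2 z.2).card : ℝ) := by
    have h3 : ∀ x ∈ Bx k M A, (RR k A g (x.1 + g * x.2.1) x.2.2 : ℝ) = ∑ z ∈ P1 k A ×ˢ P2 k A,
        (if lf g (x.1 + g * x.2.1) x.2.2 z.1 ∧ lf g (x.1 + g * x.2.1) x.2.2 z.2 then (1 : ℝ) else 0) := by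
      intro x _
      unfold RR
      rw [Finset.sum_boole]
    rw [Finset.sum_congr rfl h3, Finset.sum_comm]
    refine Finset.sum_congr rfl fun z _ => ?_
    rw [Finset.sum_boole]
  rw [h1, h2, Finset.mul_sum]
  refine Finset.sum_le_sum fun z hz => ?_
  obtain ⟨hz1, hz2⟩ := Finset.mem_product.1 hz
  obtain ⟨κ, hκ1, hκ2⟩ := crt k A (hA02.trans hA) g z.1 z.2 hz1 hz2
  have h4 := hA0 A hA g hg z.1 hz1 z.2 hz2 κ hκ1 M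
  refine h4.trans (le_of_eq ?_)
  congr 2
  ext v
  rw [Finset.mem_filter, Finset.mem_filter, sub_zero, mem_Lam, hκ2]
  constructor
  · rintro ⟨h5, h6, -⟩
    exact ⟨h5, h6⟩
  · rintro ⟨h5, h6⟩
    exact ⟨h5, h6, by simp⟩

end H71.DV
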