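import Pool.Agent.H71.DV.Def

/-!
# [H71 DV GRD] separated points in a square, 40-80 lines

Let `f : ℤ × ℤ × ℤ → ℤ × ℤ` have the property that for any two different points of `T` the coordinates of `f x` and `f y` differ by less than `S`, and one of them by at
least `R/2` (`R ≥ 1` real). Then `#T ≤ (2 S/R + 1)²`.
PROOF. `T = ∅` is clear. Let `x1 = min (f x).1`, `x2 = min (f x).2` over `T`. Map `x ↦ (⌊2 ((f x).1 - x1)/R⌋₊, ⌊2 ((f x).2 - x2)/R⌋₊)`. It is injective on `T`: if two points have the same image then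
both coordinate differences are `< R/2` in absolute value (`|u - v| < 1` if the floors are equal). `(f x).1 - x1 < S`, i.e. `≤ S - 1 `, so the image lies in `range (⌊2 S/R⌋₊ + 1)` squared, of cardinality `≤ (2S/R + 1)²`.
-/

set_option autoImplicit false

namespace H71.DV

open Finset

private theorem floor_close (u v : ℝ) (hu : 0 ≤ u) (hv : 0 ≤ v) (h : ⌊u⌋₊ = ⌊v⌋₊) : |u - v| < 1 := by
  have h1 := Nat.floor_le hu
  have h2 := Nat.lt_floor_add_one u
  have h3 := Nat.floor_le hv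
  have h4 := Nat.lt_floor_add_one v
  rw [h] at h1 h2
  rw [abs_lt]
  constructor <;> linarith

private theorem coord_close (R : ℝ) (hR : 0 < R) (p q a : ℤ) (hp : a ≤ p) (hq : a ≤ q)
    (h : ⌊2 * ((p - a : ℤ) : ℝ) / R⌋₊ = ⌊2 * ((q - a : ℤ) : ℝ) / R⌋₊) : 2 * ((|p - q| : ℤ) : ℝ) < R := by
  have hp' : (0 : ℝ) ≤ ((p - a : ℤ) : ℝ) := by exact_mod_cast sub_nonneg.2 hp
  have hq' : (0 : ℝ) ≤ ((q - a : ℤ) : ℝ) := by exact_mod_cast sub_nonneg.2 hq
  have h1 := floor_close _ _ (by positivity) (by positivity) h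
  have e : 2 * ((p - a : ℤ) : ℝ) / R - 2 * ((q - a : ℤ) : ℝ) / R = 2 * ((p : ℝ) - q) / R := by
    push_cast
    ring
  rw [e, abs_div, abs_mul, abs_of_pos hR, div_lt_one hR] at h1
  rw [Int.cast_abs, Int.cast_sub]
  rwa [abs_of_pos (by norm_num : (0 : ℝ) < 2)] at h1

theorem grd (T : Finset (ℤ × ℤ × ℤ)) (f : ℤ × ℤ × ℤ → ℤ × ℤ) (S : ℕ) (R : ℝ) (hR : 1 ≤ R)
    (h1 : ∀ x ∈ T, ∀ y ∈ T, |(f x).1 - (f y).1| < S ∧ |(f x).2 - (f y).2| < S)
    (h2 : ∀ x ∈ T, ∀ y ∈ T, x ≠ y → R ≤ 2 * (max |(f x).1 - (f y).1| |(f x).2 - (f y).2| : ℤ)) :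
    (T.card : ℝ) ≤ (2 * S / R + 1) ^ 2 := by
  have hR0 : 0 < R := by linarith
  rcases T.eq_empty_or_nonempty with rfl | hne
  · simp only [card_empty, Nat.cast_zero]
    positivity
  obtain ⟨a, ha, hamin⟩ := Finset.exists_min_image T (fun x => (f x).1) hne
  obtain ⟨b, hb, hbmin⟩ := Finset.exists_min_image T (fun x => (f x).2) hne
  set N := ⌊2 * (S : ℝ) / R⌋₊ with hN
  let φ : ℤ × ℤ × ℤ → ℕ × ℕ := fun x =>
    (⌊2 * (((f x).1 - (f a).1 : ℤ) : ℝ) / R⌋₊, ⌊2 * (((f x).2 - (f b).2 : ℤ) : ℝ) / R⌋₊)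
  have hmaps : ∀ x ∈ T, φ x ∈ range (N + 1) ×ˢ range (N + 1) := by
    intro x hx
    have h3 : (((f x).1 - (f a).1 : ℤ) : ℝ) ≤ S := by
      have := (abs_lt.1 (h1 x hx a ha).1).2.le
      exact_mod_cast this
    have h4 : (((f x).2 - (f b).2 : ℤ) : ℝ) ≤ S := by
      have := (abs_lt.1 (h1 x hx b hb).2).2.le
      exact_mod_cast this
    simp only [φ, Finset.mem_product, Finset.mem_range, Nat.lt_succ_iff, hN]
    constructor
    · apply Nat.floor_le_floor
      gcongr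
    · apply Nat.floor_le_floor
      gcongr
  have hinj : Set.InjOn φ T := by
    intro x hx y hy hxy
    by_contra hne'
    have h5 := h2 x hx y hy hne'
    simp only [φ, Prod.mk.injEq] at hxy
    obtain ⟨e1, e2⟩ := hxy
    have c1 := coord_close R hR0 _ _ _ (hamin x hx) (hamin y hy) e1
    have c2 := coord_close R hR0 _ _ _ (hbmin x hx) (hbmin y hy) e2
    rcases max_choice |(f x).1 - (f y).1| |(f x).2 - (f y).2| with hc | hc
    · rw [hc] at h5
      linarith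
    · rw [hc] at h5
      linarith
  have hcard := Finset.card_le_card_of_injOn φ hmaps hinj
  rw [card_product, card_range] at hcard
  have hNle : (N : ℝ) ≤ 2 * S / R := Nat.floor_le (by positivity)
  calc (T.card : ℝ) ≤ ((N + 1) * (N + 1) : ℕ) := by exact_mod_cast hcard
    _ = ((N : ℝ) + 1) ^ 2 := by push_cast; ring
    _ ≤ (2 * S / R + 1) ^ 2 := by gcongr

end H71.DV
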