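import Pool.Agent.H71.DV.Pln

/-!
# [H71 DV MK3] three independent vectors, 60-120 lines

Let `L` have index `m` and let all nonzero vectors have norm `≥ R`. If `9 m / R² < S` and `R ≤ S` then `L` contains three linearly independent vectors of norm `< S`.
PROOF. Suppose not. The cube `C = bx (-1) (-1) (-1) S` (`S³` points) is a disjoint union of the classes modulo `L`; there are `m` classes (`Fintype`/`Nat.card` of the quotient `(ℤ × ℤ × ℤ) ⧸ L` is `L.index = m > 0`), and the points of `C` in one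
class have differences in `L` of norm `< S`, so by `pln` each class has at most `(2S/R+1)² ≤ (3S/R)²` points (`R ≤ S`). So `S³ ≤ m (3S/R)² = 9 m S²/R²` (`Finset.card_le_mul_card_image` or `card_eq_sum_card_fiberwise` for the map
`x ↦ (QuotientAddGroup.mk x : (ℤ × ℤ × ℤ) ⧸ L)`), i.e. `S ≤ 9m/R²` (`S > 0`): contradiction.
-/

set_option autoImplicit false

namespace H71.DV

open Finset

/-- two points of a cube of side `A` differ by less than `A` -/
private theorem nrm_sub_lt_bx (x1 x2 x3 : ℤ) (A : ℕ) (x y : ℤ × ℤ × ℤ) (hx : x ∈ bx x1 x2 x3 A) (hy : y ∈ bx x1 x2 x3 A) :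
    nrm (x - y) < A := by
  simp only [bx, mem_product, mem_Ioc] at hx hy
  unfold nrm
  simp only [Prod.fst_sub, Prod.snd_sub]
  refine max_lt ?_ (max_lt ?_ ?_) <;> rw [abs_lt] <;> constructor <;> linarith [hx.1.1, hx.1.2, hx.2.1.1, hx.2.1.2,
    hx.2.2.1, hx.2.2.2, hy.1.1, hy.1.2, hy.2.1.1, hy.2.1.2, hy.2.2.1, hy.2.2.2]

private theorem card_bx (x1 x2 x3 : ℤ) (A : ℕ) : (bx x1 x2 x3 A).card = A ^ 3 := by
  unfold bx
  simp only [card_product, Int.card_Ioc]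
  have h : ∀ x : ℤ, (x + A - x).toNat = A := by
    intro x
    rw [add_sub_cancel_left, Int.toNat_natCast]
  rw [h, h, h]
  ring

theorem mk3 (L : AddSubgroup (ℤ × ℤ × ℤ)) (m : ℕ) (hm : L.index = m) (hm0 : 0 < m) (R : ℝ) (hR : 1 ≤ R)
    (hmin : ∀ v ∈ L, v ≠ 0 → R ≤ nrm v) (S : ℕ) (hS : 9 * m / R ^ 2 < S) (hRS : R ≤ S) :
    ∃ v1 ∈ L, ∃ v2 ∈ L, ∃ v3 ∈ L, nrm v1 < S ∧ nrm v2 < S ∧ nrm v3 < S ∧ det3 v1 v2 v3 ≠ 0 := by
  classical
  by_contra hcon
  have hpl : ∀ v1 ∈ L, ∀ v2 ∈ L, ∀ v3 ∈ L, nrm v1 < S → nrm v2 < S → nrm v3 < S → det3 v1 v2 v3 = 0 := by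
    intro v1 h1 v2 h2 v3 h3 n1 n2 n3
    by_contra h
    exact hcon ⟨v1, h1, v2, h2, v3, h3, n1, n2, n3, h⟩
  have hR0 : 0 < R := by linarith
  have hS0 : (0 : ℝ) < S := by linarith
  have : L.FiniteIndex := ⟨by rw [hm]; exact hm0.ne'⟩
  have : Finite ((ℤ × ℤ × ℤ) ⧸ L) := L.finite_quotient_of_finiteIndex
  have : Fintype ((ℤ × ℤ × ℤ) ⧸ L) := Fintype.ofFinite _
  let q : ℤ × ℤ × ℤ → (ℤ × ℤ × ℤ) ⧸ L := fun x => QuotientAddGroup.mk x
  have h1 : (bx (-1) (-1) (-1) S).card ≤ ⌊(2 * (S : ℝ) / R + 1) ^ 2⌋₊ * ((bx (-1) (-1) (-1) S).image q).card := by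
    apply Finset.card_le_mul_card_image
    intro a _
    apply Nat.le_floor
    apply pln L R hR hmin S hpl
    intro x hx y hy
    rw [mem_filter] at hx hy
    refine ⟨?_, nrm_sub_lt_bx _ _ _ _ _ _ hx.1 hy.1⟩
    have h2 : q y = q x := by rw [hx.2, hy.2]
    have h3 : -y + x ∈ L := QuotientAddGroup.eq.1 h2
    rwa [neg_add_eq_sub] at h3
  have h2 : ((bx (-1) (-1) (-1) S).image q).card ≤ m := by
    refine (Finset.card_le_univ _).trans ?_
    rw [← Nat.card_eq_fintype_card, ← hm]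
    exact le_of_eq rfl
  rw [card_bx] at h1
  have h3 : (S : ℝ) ^ 3 ≤ (3 * S / R) ^ 2 * m := by
    have h4 : (S : ℝ) ^ 3 ≤ (⌊(2 * (S : ℝ) / R + 1) ^ 2⌋₊ : ℝ) * m := by
      have h5 := h1.trans (Nat.mul_le_mul_left _ h2)
      exact_mod_cast h5
    refine h4.trans ?_
    gcongr
    refine (Nat.floor_le (by positivity)).trans ?_
    gcongr
    have h6 : 1 ≤ (S : ℝ) / R := (one_le_div hR0).2 hRS
    have h7 : 2 * (S : ℝ) / R + 1 = 2 * (S / R) + 1 := by ring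
    have h8 : 3 * (S : ℝ) / R = 3 * (S / R) := by ring
    rw [h7, h8]
    linarith
  have h4 : (S : ℝ) ^ 2 * S ≤ S ^ 2 * (9 * m / R ^ 2) := by
    calc (S : ℝ) ^ 2 * S = S ^ 3 := by ring
      _ ≤ (3 * S / R) ^ 2 * m := h3
      _ = S ^ 2 * (9 * m / R ^ 2) := by field_simp; ring
  have h5 := le_of_mul_le_mul_left h4 (by positivity)
  linarith

end H71.DV
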