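import Pool.Agent.H71.DV.Def
import Pool.Agent.H6.LP.Cub

/-!
# [H71 DV NNE] the index form, 60-120 lines

`nn_ne`: for a non-cube `k` the norm `nn k a b c` vanishes only for `a = b = c = 0`. With `B = BB k a b c`, `C = CC a b c`: `k C³ - B³ = nn · DD = 0` (`id_kCB`), so `B = C = 0` (`H6.LP.DD_ne`: `DD k B C = B³ - k C³`). Then `b² = a c`, `k c² = a b`, so
`b³ = a b c = k c³`, `b = c = 0` (`DD_ne`), and `a³ = nn = 0`.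
`II_ne`: `II k g s c = nn k s (-(g c)) (-c)` (`id_II`), so it is not `0` for `(s,c) ≠ (0,0)`.
`II_le`: if `|s|, |c| ≤ T`, `1 ≤ g`, then `|II| ≤ (1 + 4 |k| + k²) g³ T³`: the terms are `T³`, `3 |k| g T³`, `|k| (g³ + |k|) T³`.
`II_le'`: the form used for lower bounds: `|s| ≤ T`, `g |c| ≤ T`, `1 ≤ g`: `|II| ≤ (1 + 4 |k| + k²) T³`: `3 |k| g c² |s| ≤ 3 |k| T³/g`, `|k| (g³ + |k|) |c|³ ≤ |k| T³ + k² T³`.
`lf_II`: if `x.1 ∣ x.2³ - k` and `lf g s c x` then `x.1 ∣ II k g s c`: with `κ = g ρ + ρ²`, `II k g (κ c) c = (κ³ - 3 k g κ - k (g³ + k)) c³` and `κ³ - 3 k g κ - k(g³+k) = (ρ³ - k)(..)` (with `ρ³ = k`: `κ³ = g³ k + 3 g² k ρ + 3 g k ρ² + k²`,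
`3 k g κ = 3 k g² ρ + 3 k g ρ²`), and `s ↦ II` is a polynomial: `s - κ c ∣ II k g s c - II k g (κ c) c`.
-/

set_option autoImplicit false

namespace H71.DV

open Finset H96.DR H23.LP

theorem nn_ne (k : ℤ) (hk : ∀ t : ℤ, t ^ 3 ≠ k) (a b c : ℤ) (h : nn k a b c = 0) : a = 0 ∧ b = 0 ∧ c = 0 := by
  have h1 := H23.LP.id_kCB k a b c
  rw [h, zero_mul] at h1
  have h2 : DD k (BB k a b c) (CC a b c) = 0 := by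
    unfold DD
    linarith
  have h3 : (BB k a b c, CC a b c) = (0, 0) := by
    by_contra hne
    exact Pool.Agent.H6.LP.DD_ne k hk _ _ hne h2
  have hB : BB k a b c = 0 := congrArg Prod.fst h3
  have hC : CC a b c = 0 := congrArg Prod.snd h3
  unfold BB at hB
  unfold CC at hC
  have h4 : DD k b c = 0 := by
    unfold DD
    have e : b ^ 3 - k * c ^ 3 = b * (b ^ 2 - a * c) - c * (k * c ^ 2 - a * b) := by ring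
    rw [e, hB, hC]
    ring
  have h5 : (b, c) = (0, 0) := by
    by_contra hne
    exact Pool.Agent.H6.LP.DD_ne k hk _ _ hne h4
  have hb : b = 0 := congrArg Prod.fst h5
  have hc : c = 0 := congrArg Prod.snd h5
  subst hb
  subst hc
  refine ⟨?_, rfl, rfl⟩
  unfold nn at h
  have h6 : a ^ 3 = 0 := by
    have e : a ^ 3 + k * 0 ^ 3 + k ^ 2 * 0 ^ 3 - 3 * k * a * 0 * 0 = a ^ 3 := by ring
    rw [← e, h]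
  exact pow_eq_zero_iff (by norm_num) |>.1 h6

theorem II_ne (k : ℤ) (hk : ∀ t : ℤ, t ^ 3 ≠ k) (g s c : ℤ) (h : ¬ (s = 0 ∧ c = 0)) : II k g s c ≠ 0 := by
  intro h0
  rw [id_II] at h0
  obtain ⟨h1, -, h3⟩ := nn_ne k hk _ _ _ h0
  exact h ⟨h1, by linarith⟩

private theorem ab3 (k g s c : ℤ) (hg : (1 : ℝ) ≤ (g : ℝ)) :
    |((II k g s c : ℤ) : ℝ)| ≤ |(s : ℝ)| ^ 3 + 3 * |(k : ℝ)| * g * (|(c : ℝ)| ^ 2 * |(s : ℝ)|) +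
      |(k : ℝ)| * ((g : ℝ) ^ 3 + |(k : ℝ)|) * |(c : ℝ)| ^ 3 := by
  have hg0 : (0 : ℝ) ≤ (g : ℝ) := by linarith
  have e : ((II k g s c : ℤ) : ℝ) = (s : ℝ) ^ 3 - 3 * k * g * c ^ 2 * s -
      k * ((g : ℝ) ^ 3 + k) * c ^ 3 := by
    unfold II
    push_cast
    ring
  rw [e]
  refine (abs_sub _ _).trans (add_le_add ((abs_sub _ _).trans (add_le_add ?_ ?_)) ?_)
  · rw [abs_pow]
  · rw [abs_mul, abs_mul, abs_mul, abs_mul, abs_pow, abs_of_nonneg hg0,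
      abs_of_nonneg (show (0 : ℝ) ≤ 3 by norm_num)]
    exact le_of_eq (by ring)
  · rw [abs_mul, abs_mul, abs_pow]
    have h1 : |(g : ℝ) ^ 3 + k| ≤ (g : ℝ) ^ 3 + |(k : ℝ)| := by
      refine (abs_add_le _ _).trans ?_
      rw [abs_of_nonneg (pow_nonneg hg0 3)]
    gcongr

theorem II_le (k g s c : ℤ) (T : ℝ) (hg : 1 ≤ g) (hs : |(s : ℝ)| ≤ T) (hc : |(c : ℝ)| ≤ T) :
    |((II k g s c : ℤ) : ℝ)| ≤ (1 + 4 * |(k : ℝ)| + (k : ℝ) ^ 2) * (g : ℝ) ^ 3 * T ^ 3 := by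
  have hT : 0 ≤ T := (abs_nonneg _).trans hs
  have hG : (1 : ℝ) ≤ (g : ℝ) := by exact_mod_cast hg
  have hG3 : (1 : ℝ) ≤ (g : ℝ) ^ 3 := one_le_pow₀ hG
  have hGG : (g : ℝ) ≤ (g : ℝ) ^ 3 := le_self_pow₀ hG (by norm_num)
  refine (ab3 k g s c hG).trans ?_
  have hK := abs_nonneg (k : ℝ)
  have hS := abs_nonneg (s : ℝ)
  have hC := abs_nonneg (c : ℝ)
  have e1 : |(s : ℝ)| ^ 3 ≤ T ^ 3 := by gcongr
  have e2 : |(c : ℝ)| ^ 2 * |(s : ℝ)| ≤ T ^ 3 := by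
    calc |(c : ℝ)| ^ 2 * |(s : ℝ)| ≤ T ^ 2 * T := by gcongr
      _ = T ^ 3 := by ring
  have e3 : |(c : ℝ)| ^ 3 ≤ T ^ 3 := by gcongr
  have hT3 : 0 ≤ T ^ 3 := by positivity
  calc |(s : ℝ)| ^ 3 + 3 * |(k : ℝ)| * g * (|(c : ℝ)| ^ 2 * |(s : ℝ)|) +
        |(k : ℝ)| * ((g : ℝ) ^ 3 + |(k : ℝ)|) * |(c : ℝ)| ^ 3
      ≤ T ^ 3 + 3 * |(k : ℝ)| * g * T ^ 3 + |(k : ℝ)| * ((g : ℝ) ^ 3 + |(k : ℝ)|) * T ^ 3 := by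
        gcongr
    _ ≤ (g : ℝ) ^ 3 * T ^ 3 + 3 * |(k : ℝ)| * (g : ℝ) ^ 3 * T ^ 3 +
        |(k : ℝ)| * ((g : ℝ) ^ 3 + |(k : ℝ)| * (g : ℝ) ^ 3) * T ^ 3 := by
        gcongr
        · exact le_mul_of_one_le_left hT3 hG3
        · exact le_mul_of_one_le_right hK hG3
    _ = (1 + 4 * |(k : ℝ)| + (k : ℝ) ^ 2) * (g : ℝ) ^ 3 * T ^ 3 := by
        rw [← sq_abs (k : ℝ)]
        ring

theorem II_le' (k g s c : ℤ) (T : ℝ) (hg : 1 ≤ g) (hs : |(s : ℝ)| ≤ T) (hc : g * |(c : ℝ)| ≤ T) :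
    |((II k g s c : ℤ) : ℝ)| ≤ (1 + 4 * |(k : ℝ)| + (k : ℝ) ^ 2) * T ^ 3 := by
  have hT : 0 ≤ T := (abs_nonneg _).trans hs
  have hG : (1 : ℝ) ≤ (g : ℝ) := by exact_mod_cast hg
  have hG0 : (0 : ℝ) ≤ (g : ℝ) := by linarith
  refine (ab3 k g s c hG).trans ?_
  have hK := abs_nonneg (k : ℝ)
  have hS := abs_nonneg (s : ℝ)
  have hC := abs_nonneg (c : ℝ)
  have hc' : |(c : ℝ)| ≤ T := (le_mul_of_one_le_left hC hG).trans hc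
  have e1 : |(s : ℝ)| ^ 3 ≤ T ^ 3 := by gcongr
  have e2 : (g : ℝ) * (|(c : ℝ)| ^ 2 * |(s : ℝ)|) ≤ T ^ 3 := by
    calc (g : ℝ) * (|(c : ℝ)| ^ 2 * |(s : ℝ)|) = (g * |(c : ℝ)|) * |(c : ℝ)| * |(s : ℝ)| := by ring
      _ ≤ T * T * T := by gcongr
      _ = T ^ 3 := by ring
  have e3 : |(c : ℝ)| ^ 3 ≤ T ^ 3 := by gcongr
  have e4 : (g : ℝ) ^ 3 * |(c : ℝ)| ^ 3 ≤ T ^ 3 := by
    rw [← mul_pow]
    gcongr
  calc |(s : ℝ)| ^ 3 + 3 * |(k : ℝ)| * g * (|(c : ℝ)| ^ 2 * |(s : ℝ)|) +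
        |(k : ℝ)| * ((g : ℝ) ^ 3 + |(k : ℝ)|) * |(c : ℝ)| ^ 3
      = |(s : ℝ)| ^ 3 + 3 * |(k : ℝ)| * (g * (|(c : ℝ)| ^ 2 * |(s : ℝ)|)) +
        (|(k : ℝ)| * ((g : ℝ) ^ 3 * |(c : ℝ)| ^ 3) + |(k : ℝ)| ^ 2 * |(c : ℝ)| ^ 3) := by ring
    _ ≤ T ^ 3 + 3 * |(k : ℝ)| * T ^ 3 + (|(k : ℝ)| * T ^ 3 + |(k : ℝ)| ^ 2 * T ^ 3) := by
        gcongr
    _ = (1 + 4 * |(k : ℝ)| + (k : ℝ) ^ 2) * T ^ 3 := by
        rw [← sq_abs (k : ℝ)]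
        ring

theorem lf_II (k g s c : ℤ) (x : ℕ × ℕ) (hx : (x.1 : ℤ) ∣ (x.2 : ℤ) ^ 3 - k) (h : lf g s c x) :
    (x.1 : ℤ) ∣ II k g s c := by
  obtain ⟨r, hr⟩ : ∃ r : ℤ, r = (x.2 : ℤ) := ⟨_, rfl⟩
  unfold lf at h
  rw [← hr] at hx h
  have e : II k g s c = (s - (g * r + r ^ 2) * c) *
      (s ^ 2 + s * ((g * r + r ^ 2) * c) + ((g * r + r ^ 2) * c) ^ 2 - 3 * k * g * c ^ 2) +
      (r ^ 3 - k) * ((g ^ 3 + 3 * g ^ 2 * r + 3 * g * r ^ 2 + r ^ 3 + k) * c ^ 3) := by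
    unfold II
    ring
  rw [e]
  exact dvd_add (h.mul_right _) (hx.mul_right _)

end H71.DV
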