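import Pool.Agent.H71.DV.Nne
import Pool.Agent.H23.LP.Nup

/-!
# [H71 DV RR] `RR ≤ 144`, 80-150 lines

`RR k A g s c` is the number of the pairs `(x, y) ∈ P1 × P2` with `lf g s c x`, `lf g s c y`, so it is `#{x ∈ P1 : lf} * #{y ∈ P2 : lf}` (`Finset.filter_product`). Each factor is `≤ 12`: by `lf_II` the primes `x.1` divide `II = II k g s c ≠ 0`, they are `> A^0.72`, and
`|II| ≤ (1 + 4|k| + k²) g³ A^3.03 < A^3.6 = (A^0.72)^5` for `A ≥ A0` (`g ≤ 2 Gn A ≤ 4 A^0.0062`, so `g³ ≤ 64 A^0.0186`): at most 4 different primes (the product of 5 different primes dividing `II` divides `II`, `Finset.prod_primes_dvd`), and for every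
prime `q` at most 3 residues `ρ < q` with `q ∣ ρ³ - k` (`H23.LP.nu_le`).
-/

set_option autoImplicit false

namespace H71.DV

open Finset H96.DR H23.LP

private theorem rr_aux (k : ℤ) (A : ℕ) (g s c : ℤ) (u v : ℝ) (hu : (0.72 : ℝ) ≤ u) (hA : 1 ≤ A)
    (hI : II k g s c ≠ 0)
    (hI2 : |((II k g s c : ℤ) : ℝ)| < ((A : ℝ) ^ (0.72 : ℝ)) ^ 5) (F : Finset (ℕ × ℕ))
    (hF : ∀ x ∈ F, x ∈ PP k A u v ∧ lf g s c x) : F.card ≤ 12 := by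
  classical
  have hA' : (1 : ℝ) ≤ (A : ℝ) := by exact_mod_cast hA
  have hP : ∀ x ∈ F, x.1.Prime ∧ (A : ℝ) ^ (0.72 : ℝ) ≤ (x.1 : ℝ) ∧ x.2 < x.1 ∧
      (x.1 : ℤ) ∣ (x.2 : ℤ) ^ 3 - k ∧ x.1 ∣ (II k g s c).natAbs := by
    intro x hx
    obtain ⟨h1, h2⟩ := hF x hx
    rw [PP, mem_filter] at h1
    obtain ⟨_, hp, h3, _, h4, h5⟩ := h1
    refine ⟨hp, ?_, h4, h5, ?_⟩
    · exact (Real.rpow_le_rpow_of_exponent_le hA' hu).trans h3.le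
    · exact Int.natCast_dvd.1 (lf_II k g s c x h5 h2)
  have h1 : F.card ≤ 3 * (F.image Prod.fst).card := by
    refine Finset.card_le_mul_card_image F 3 fun p hp => ?_
    obtain ⟨x, hx, rfl⟩ := mem_image.1 hp
    refine le_trans ?_ (nu_le k x.1 (hP x hx).1)
    rw [nu]
    refine Finset.card_le_card_of_injOn Prod.snd ?_ ?_
    · intro y hy
      have hy' := mem_filter.1 hy
      have h6 := hP y hy'.1
      rw [mem_coe, mem_filter, mem_range, ← hy'.2]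
      exact ⟨h6.2.2.1, h6.2.2.2.1⟩
    · intro y hy z hz hyz
      have hy' := mem_filter.1 hy
      have hz' := mem_filter.1 hz
      exact Prod.ext (hy'.2.trans hz'.2.symm) hyz
  have h2 : (F.image Prod.fst).card ≤ 4 := by
    by_contra hcon
    have h5 : 5 ≤ (F.image Prod.fst).card := by omega
    obtain ⟨J, hJ, hJc⟩ := Finset.exists_subset_card_eq h5
    have hJP : ∀ p ∈ J, p.Prime ∧ (A : ℝ) ^ (0.72 : ℝ) ≤ (p : ℝ) ∧ p ∣ (II k g s c).natAbs := by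
      intro p hp
      obtain ⟨x, hx, rfl⟩ := mem_image.1 (hJ hp)
      exact ⟨(hP x hx).1, (hP x hx).2.1, (hP x hx).2.2.2.2⟩
    have h6 : ∏ p ∈ J, p ∣ (II k g s c).natAbs :=
      Finset.prod_primes_dvd _ (fun p hp => (hJP p hp).1.prime) fun p hp => (hJP p hp).2.2
    have h7 : ∏ p ∈ J, p ≤ (II k g s c).natAbs :=
      Nat.le_of_dvd (Nat.pos_of_ne_zero (Int.natAbs_ne_zero.2 hI)) h6
    have h8 : ((A : ℝ) ^ (0.72 : ℝ)) ^ 5 ≤ ∏ p ∈ J, (p : ℝ) := by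
      rw [← hJc, ← Finset.prod_const]
      refine Finset.prod_le_prod (fun p _ => ?_) fun p hp => (hJP p hp).2.1
      positivity
    have h9 : (∏ p ∈ J, (p : ℝ)) ≤ ((II k g s c).natAbs : ℝ) := by
      rw [← Nat.cast_prod]
      exact_mod_cast h7
    have h10 : ((II k g s c).natAbs : ℝ) = |((II k g s c : ℤ) : ℝ)| := by
      rw [Nat.cast_natAbs, Int.cast_abs]
    rw [← h10] at hI2
    linarith
  omega

private theorem rr_sz (k : ℤ) : ∃ A0 : ℕ, ∀ A : ℕ, A0 ≤ A → 1 ≤ A ∧ ∀ g ∈ GG A, ∀ s c : ℤ,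
    |(s : ℝ)| ≤ (A : ℝ) ^ (1.01 : ℝ) → |(c : ℝ)| ≤ (A : ℝ) ^ (1.01 : ℝ) →
    |((II k g s c : ℤ) : ℝ)| < ((A : ℝ) ^ (0.72 : ℝ)) ^ 5 := by
  obtain ⟨A0, hA0⟩ := Filter.eventually_atTop.1
    (((tendsto_rpow_atTop (by norm_num : (0 : ℝ) < 0.5514)).comp
      tendsto_natCast_atTop_atTop).eventually_gt_atTop
      (64 * (1 + 4 * |(k : ℝ)| + (k : ℝ) ^ 2)))
  refine ⟨max 1 A0, fun A hA => ⟨le_trans (le_max_left _ _) hA, fun g hg s c hs hc => ?_⟩⟩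
  have h0 := hA0 A (le_trans (le_max_right _ _) hA)
  simp only [Function.comp_apply] at h0
  have hA1 : 1 ≤ A := le_trans (le_max_left _ _) hA
  have hA' : (1 : ℝ) ≤ (A : ℝ) := by exact_mod_cast hA1
  have hApos : (0 : ℝ) < (A : ℝ) := by linarith
  have hC : 0 ≤ 1 + 4 * |(k : ℝ)| + (k : ℝ) ^ 2 := by positivity
  rw [GG, mem_Ioc] at hg
  have hg1 : 1 ≤ g := by
    have : (0 : ℤ) ≤ (Gn A : ℤ) := Int.natCast_nonneg _
    omega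
  have hGn : (Gn A : ℝ) ≤ 2 * (A : ℝ) ^ (0.0062 : ℝ) := by
    have h1 : (1 : ℝ) ≤ (A : ℝ) ^ (0.0062 : ℝ) := Real.one_le_rpow hA' (by norm_num)
    have h2 : (Gn A : ℝ) < (A : ℝ) ^ (0.0062 : ℝ) + 1 := Nat.ceil_lt_add_one (by positivity)
    linarith
  have hgR : (g : ℝ) ≤ 4 * (A : ℝ) ^ (0.0062 : ℝ) := by
    have h1 : (g : ℝ) ≤ 2 * (Gn A : ℝ) := by exact_mod_cast hg.2
    linarith
  have hg0 : (0 : ℝ) ≤ (g : ℝ) := by
    have : (1 : ℝ) ≤ (g : ℝ) := by exact_mod_cast hg1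
    linarith
  have h3 := II_le k g s c ((A : ℝ) ^ (1.01 : ℝ)) hg1 hs hc
  have h4 : (g : ℝ) ^ 3 ≤ 64 * (A : ℝ) ^ (0.0186 : ℝ) := by
    refine (pow_le_pow_left₀ hg0 hgR 3).trans (le_of_eq ?_)
    rw [mul_pow, ← Real.rpow_natCast ((A : ℝ) ^ (0.0062 : ℝ)) 3, ← Real.rpow_mul hApos.le]
    norm_num
  have h5 : ((A : ℝ) ^ (1.01 : ℝ)) ^ 3 = (A : ℝ) ^ (3.03 : ℝ) := by
    rw [← Real.rpow_natCast ((A : ℝ) ^ (1.01 : ℝ)) 3, ← Real.rpow_mul hApos.le]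
    norm_num
  have h6 : ((A : ℝ) ^ (0.72 : ℝ)) ^ 5 =
      (A : ℝ) ^ (0.5514 : ℝ) * ((A : ℝ) ^ (0.0186 : ℝ) * (A : ℝ) ^ (3.03 : ℝ)) := by
    rw [← Real.rpow_natCast ((A : ℝ) ^ (0.72 : ℝ)) 5, ← Real.rpow_mul hApos.le,
      ← Real.rpow_add hApos, ← Real.rpow_add hApos]
    norm_num
  rw [h6]
  rw [h5] at h3
  have hp : 0 < (A : ℝ) ^ (0.0186 : ℝ) * (A : ℝ) ^ (3.03 : ℝ) := by positivity
  calc |((II k g s c : ℤ) : ℝ)|
      ≤ (1 + 4 * |(k : ℝ)| + (k : ℝ) ^ 2) * (g : ℝ) ^ 3 * (A : ℝ) ^ (3.03 : ℝ) := h3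
    _ ≤ (1 + 4 * |(k : ℝ)| + (k : ℝ) ^ 2) * (64 * (A : ℝ) ^ (0.0186 : ℝ)) *
        (A : ℝ) ^ (3.03 : ℝ) := by
        refine mul_le_mul_of_nonneg_right (mul_le_mul_of_nonneg_left h4 hC) (by positivity)
    _ = (64 * (1 + 4 * |(k : ℝ)| + (k : ℝ) ^ 2)) *
        ((A : ℝ) ^ (0.0186 : ℝ) * (A : ℝ) ^ (3.03 : ℝ)) := by ring
    _ < (A : ℝ) ^ (0.5514 : ℝ) * ((A : ℝ) ^ (0.0186 : ℝ) * (A : ℝ) ^ (3.03 : ℝ)) :=
        mul_lt_mul_of_pos_right h0 hp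

theorem rr_le (k : ℤ) (hk : ∀ t : ℤ, t ^ 3 ≠ k) : ∃ A0 : ℕ, ∀ A : ℕ, A0 ≤ A → ∀ g ∈ GG A, ∀ s c : ℤ,
    |(s : ℝ)| ≤ (A : ℝ) ^ (1.01 : ℝ) → |(c : ℝ)| ≤ (A : ℝ) ^ (1.01 : ℝ) → ¬ (s = 0 ∧ c = 0) → RR k A g s c ≤ 144 := by
  classical
  obtain ⟨A0, hA0⟩ := rr_sz k
  refine ⟨A0, fun A hA g hg s c hs hc hsc => ?_⟩
  obtain ⟨hA1, h2⟩ := hA0 A hA
  have hI2 := h2 g hg s c hs hc
  have hI := II_ne k hk g s c hsc
  have hsub : ((P1 k A ×ˢ P2 k A).filter fun x => lf g s c x.1 ∧ lf g s c x.2) ⊆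
      ((P1 k A).filter fun x => lf g s c x) ×ˢ ((P2 k A).filter fun x => lf g s c x) := by
    intro x hx
    rw [mem_filter, mem_product] at hx
    rw [mem_product, mem_filter, mem_filter]
    exact ⟨⟨hx.1.1, hx.2.1⟩, hx.1.2, hx.2.2⟩
  have h3 : ((P1 k A).filter fun x => lf g s c x).card ≤ 12 :=
    rr_aux k A g s c 0.72 0.7204 le_rfl hA1 hI hI2 _ fun x hx => mem_filter.1 hx
  have h4 : ((P2 k A).filter fun x => lf g s c x).card ≤ 12 :=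
    rr_aux k A g s c 0.761 0.7614 (by norm_num) hA1 hI hI2 _ fun x hx => mem_filter.1 hx
  have h5 : RR k A g s c ≤ ((P1 k A).filter fun x => lf g s c x).card *
      ((P2 k A).filter fun x => lf g s c x).card := by
    rw [RR, ← card_product]
    convert card_le_card hsub
  exact h5.trans (Nat.mul_le_mul h3 h4)

end H71.DV
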