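import Pool.Agent.H71.DV.Tup
import Pool.Agent.H71.DV.Idx
import Pool.Agent.H71.DV.Rr
import Pool.Agent.H71.DV.Crt

/-!
# [H71 DV OFF] the second moment for two different directions, 120-200 lines

`g ≠ g'` in `GG A`. For a tuple `τ = ((x,y),(x',y'))` of `(P1 × P2) × (P1 × P2)` let `κ`, `κ'` be from `crt` (for `g`, `(x,y)` and for `g'`, `(x',y')`), `m = x.1 y.1`, `m' = x'.1 y'.1`, `L_τ = Lam g g' m m' κ κ'`.
(1) `RR k A g (v.1 + g v.2.1) v.2.2 * RR k A g' (v.1 + g' v.2.1) v.2.2 = #{τ : v ∈ L_τ}` for every `v` (`RR` is the cardinality of a filter of `P1 × P2`; `crt`, `mem_Lam`).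
(2) `L_τ` has index `m m'` (`idx`: `g - g'` is prime to `m'`, because `0 < |g - g'| < Gn A ≤ A^0.72 < ` both primes of `m'`, for `A ≥ A0`), `m m' ≤ (A^0.7204 A^0.7614)² = A^2.9636 ≤ A^2.964`.
(3) `Bx k M A = bx (2 L² (M A)) (L (M A)) (M A) A` (unfold `Ia, Ib, Ic`). Sum of `tup` over all `τ`: the first term gives `(1 + C A^(-0.0063)) A³ ∑_τ 1/(m m') = (1 + C A^(-0.0063)) A³ (ms P1 * ms P2)²` (`Finset.sum_product`, `sum_mul_sum`);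
the second gives `C A^2.0064 ∑_{v ∈ cube N} RR RR'/(nrm v)²`, `N = ⌊A^0.9853⌋₊`, by (1).
(4) For `v ∈ cube N` the product `RR RR' ≤ 144²`. Let `s = v.1 + g v.2.1`, `s' = v.1 + g' v.2.1`, `c = v.2.2`: `|s|, |s'|, |c| ≤ A^0.9853 (1 + 4 A^0.0062) ≤ A^1.01`. If `(s,c) ≠ 0` and `(s',c) ≠ 0`: `rr_le` twice. If `s = 0`, `c = 0` then `v.2.1 ≠ 0`, `s' = (g' - g) v.2.1 ≠ 0`,
`|s'| < A^1.48`; if `RR k A g' s' 0 ≠ 0` there are `x' ∈ P1`, `y' ∈ P2` with `x'.1 ∣ s'`, `y'.1 ∣ s'` (`lf` with `c = 0`), so `A^1.481 < x'.1 y'.1 ≤ |s'|`, contradiction; so the product is `0`. The same for `(s',c) = 0`.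
(5) `shl`: the second term is `≤ C A^2.0064 · 144² · 26 · A^0.9853 = C' A^2.9917 ≤ C' A^2.9919`.
-/

set_option autoImplicit false

namespace H71.DV

open Finset H96.DR H23.LP

private theorem ev_pow (c u : ℝ) (hu : 0 < u) : ∃ A0 : ℕ, ∀ A : ℕ, A0 ≤ A → c ≤ (A : ℝ) ^ u := by
  have h := ((tendsto_rpow_atTop hu).comp tendsto_natCast_atTop_atTop).eventually_ge_atTop c
  obtain ⟨A0, h⟩ := Filter.eventually_atTop.1 h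
  exact ⟨A0, h⟩

private theorem mem_PP {k : ℤ} {A : ℕ} {u v : ℝ} {x : ℕ × ℕ} (hx : x ∈ PP k A u v) :
    x.1.Prime ∧ (A : ℝ) ^ u < x.1 ∧ (x.1 : ℝ) ≤ (A : ℝ) ^ v := by
  unfold PP at hx
  have h := (mem_filter.1 hx).2
  exact ⟨h.1, h.2.1, h.2.2.1⟩

open Classical in
private theorem rr_one (k : ℤ) (A : ℕ) (hA : 2 ≤ A) (g : ℤ) : ∃ κ : (ℕ × ℕ) × (ℕ × ℕ) → ℤ, ∀ s c : ℤ,
    (RR k A g s c : ℝ) = ∑ p ∈ P1 k A ×ˢ P2 k A, if ((p.1.1 * p.2.1 : ℕ) : ℤ) ∣ s - κ p * c then (1 : ℝ) else 0 := by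
  have h : ∀ p : (ℕ × ℕ) × (ℕ × ℕ), ∃ κ : ℤ, p ∈ P1 k A ×ˢ P2 k A →
      ∀ s c : ℤ, (lf g s c p.1 ∧ lf g s c p.2) ↔ ((p.1.1 * p.2.1 : ℕ) : ℤ) ∣ s - κ * c := by
    intro p
    by_cases hp : p ∈ P1 k A ×ˢ P2 k A
    · obtain ⟨κ, -, h2⟩ := crt k A hA g p.1 p.2 (mem_product.1 hp).1 (mem_product.1 hp).2
      exact ⟨κ, fun _ => h2⟩
    · exact ⟨0, fun h => absurd h hp⟩
  choose κ hκ using h
  refine ⟨κ, fun s c => ?_⟩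
  unfold RR
  rw [card_filter]
  push_cast
  refine sum_congr rfl fun p hp => ?_
  by_cases h1 : lf g s c p.1 ∧ lf g s c p.2
  · rw [if_pos h1, if_pos]
    exact_mod_cast (hκ p hp s c).1 h1
  · rw [if_neg h1, if_neg]
    intro h2
    exact h1 ((hκ p hp s c).2 (by exact_mod_cast h2))

open Classical in
private theorem rr_mul (k : ℤ) (A : ℕ) (hA : 2 ≤ A) (g g' : ℤ) : ∃ κ κ' : (ℕ × ℕ) × (ℕ × ℕ) → ℤ, ∀ v : ℤ × ℤ × ℤ,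
    (RR k A g (v.1 + g * v.2.1) v.2.2 : ℝ) * (RR k A g' (v.1 + g' * v.2.1) v.2.2 : ℝ) =
      ∑ p ∈ P1 k A ×ˢ P2 k A, ∑ p' ∈ P1 k A ×ˢ P2 k A,
        if v ∈ Lam g g' (p.1.1 * p.2.1) (p'.1.1 * p'.2.1) (κ p) (κ' p') then (1 : ℝ) else 0 := by
  obtain ⟨κ, hκ⟩ := rr_one k A hA g
  obtain ⟨κ', hκ'⟩ := rr_one k A hA g'
  refine ⟨κ, κ', fun v => ?_⟩
  rw [hκ, hκ', sum_mul_sum]
  refine sum_congr rfl fun p _ => sum_congr rfl fun p' _ => ?_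
  by_cases h1 : ((p.1.1 * p.2.1 : ℕ) : ℤ) ∣ v.1 + g * v.2.1 - κ p * v.2.2
  · by_cases h2 : ((p'.1.1 * p'.2.1 : ℕ) : ℤ) ∣ v.1 + g' * v.2.1 - κ' p' * v.2.2
    · rw [if_pos h1, if_pos h2, if_pos, one_mul]
      exact ⟨h1, h2⟩
    · have h3 : ¬ v ∈ Lam g g' (p.1.1 * p.2.1) (p'.1.1 * p'.2.1) (κ p) (κ' p') := fun h => h2 h.2
      rw [if_neg h2, if_neg h3, mul_zero]
  · have h3 : ¬ v ∈ Lam g g' (p.1.1 * p.2.1) (p'.1.1 * p'.2.1) (κ p) (κ' p') := fun h => h1 h.1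
    rw [if_neg h1, if_neg h3, zero_mul]

private theorem rr_z (k : ℤ) (A : ℕ) (hA : 2 ≤ A) (g s : ℤ) (hs : s ≠ 0) (hsA : |(s : ℝ)| ≤ (A : ℝ) ^ (1.01 : ℝ)) :
    RR k A g s 0 = 0 := by
  classical
  unfold RR
  rw [card_eq_zero, filter_eq_empty_iff]
  intro p hp h
  obtain ⟨κ, -, h2⟩ := crt k A hA g p.1 p.2 (mem_product.1 hp).1 (mem_product.1 hp).2
  have h3 := (h2 s 0).1 h
  rw [mul_zero, sub_zero] at h3
  have h4 : ((p.1.1 * p.2.1 : ℕ) : ℤ) ≤ |s| := Int.le_of_dvd (abs_pos.2 hs) ((dvd_abs _ _).2 h3)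
  have h5 : ((p.1.1 * p.2.1 : ℕ) : ℝ) ≤ |(s : ℝ)| := by
    rw [← Int.cast_abs]
    exact_mod_cast h4
  obtain ⟨-, h6, -⟩ := mem_PP (mem_product.1 hp).1
  obtain ⟨-, h7, -⟩ := mem_PP (mem_product.1 hp).2
  have hA1 : (1 : ℝ) ≤ A := by exact_mod_cast (show 1 ≤ A by omega)
  have hA0 : (0 : ℝ) < A := by linarith
  have h8 : (A : ℝ) ^ (0.72 : ℝ) * (A : ℝ) ^ (0.761 : ℝ) < (p.1.1 : ℝ) * (p.2.1 : ℝ) :=
    mul_lt_mul'' h6 h7 (Real.rpow_nonneg hA0.le _) (Real.rpow_nonneg hA0.le _)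
  rw [← Real.rpow_add hA0] at h8
  have h9 : (A : ℝ) ^ (1.01 : ℝ) ≤ (A : ℝ) ^ (0.72 + 0.761 : ℝ) :=
    Real.rpow_le_rpow_of_exponent_le hA1 (by norm_num)
  push_cast at h5
  linarith

private theorem Gn_le (A : ℕ) (hA : 1 ≤ A) : (Gn A : ℝ) ≤ 2 * (A : ℝ) ^ (0.0062 : ℝ) := by
  have hA1 : (1 : ℝ) ≤ A := by exact_mod_cast hA
  have h1 : (1 : ℝ) ≤ (A : ℝ) ^ (0.0062 : ℝ) := Real.one_le_rpow hA1 (by norm_num)
  have h2 : (Gn A : ℝ) < (A : ℝ) ^ (0.0062 : ℝ) + 1 := Nat.ceil_lt_add_one (by linarith)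
  linarith

private theorem rr_bd (k : ℤ) (hk : ∀ t : ℤ, t ^ 3 ≠ k) : ∃ A0 : ℕ, ∀ A : ℕ, A0 ≤ A → ∀ g ∈ GG A, ∀ g' ∈ GG A,
    g ≠ g' → ∀ v ∈ cube ⌊(A : ℝ) ^ (0.9853 : ℝ)⌋₊,
    RR k A g (v.1 + g * v.2.1) v.2.2 * RR k A g' (v.1 + g' * v.2.1) v.2.2 ≤ 144 * 144 := by
  obtain ⟨A1, h1⟩ := rr_le k hk
  obtain ⟨A2, h2⟩ := ev_pow 5 0.0185 (by norm_num)
  refine ⟨max 2 (max A1 A2), fun A hA g hg g' hg' hne v hv => ?_⟩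
  have hA2 : 2 ≤ A := (le_max_left _ _).trans hA
  have hAA1 : A1 ≤ A := ((le_max_left _ _).trans (le_max_right _ _)).trans hA
  have hAA2 : A2 ≤ A := ((le_max_right _ _).trans (le_max_right _ _)).trans hA
  have hA1 : (1 : ℝ) ≤ A := by exact_mod_cast (show 1 ≤ A by omega)
  have hA0 : (0 : ℝ) < A := by linarith
  have h5 := h2 A hAA2
  obtain ⟨hv0, hvN⟩ := (mem_cube _ v).1 hv
  have hN : ∀ t : ℤ, |t| ≤ nrm v → |(t : ℝ)| ≤ (A : ℝ) ^ (0.9853 : ℝ) := by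
    intro t ht
    have h3 : |t| ≤ ((⌊(A : ℝ) ^ (0.9853 : ℝ)⌋₊ : ℕ) : ℤ) := ht.trans hvN
    have h4 : |(t : ℝ)| ≤ ((⌊(A : ℝ) ^ (0.9853 : ℝ)⌋₊ : ℕ) : ℝ) := by
      rw [← Int.cast_abs]
      exact_mod_cast h3
    exact h4.trans (Nat.floor_le (Real.rpow_nonneg hA0.le _))
  have ha := hN v.1 (le_max_left _ _)
  have hb := hN v.2.1 ((le_max_left _ _).trans (le_max_right _ _))
  have hc := hN v.2.2 ((le_max_right _ _).trans (le_max_right _ _))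
  have hgs : ∀ h ∈ GG A, |((v.1 + h * v.2.1 : ℤ) : ℝ)| ≤ (A : ℝ) ^ (1.01 : ℝ) := by
    intro h hh
    unfold GG at hh
    rw [mem_Ioc] at hh
    have h3 : (0 : ℝ) ≤ (h : ℝ) := by
      have : (0 : ℤ) ≤ h := le_trans (Int.natCast_nonneg _) hh.1.le
      exact_mod_cast this
    have h4 : (h : ℝ) ≤ 4 * (A : ℝ) ^ (0.0062 : ℝ) := by
      have h6 : (h : ℝ) ≤ 2 * (Gn A : ℝ) := by exact_mod_cast hh.2
      have h7 := Gn_le A (by omega)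
      linarith
    push_cast
    have h6 : |(v.1 : ℝ) + h * v.2.1| ≤ (A : ℝ) ^ (0.9853 : ℝ) + 4 * (A : ℝ) ^ (0.0062 : ℝ) * (A : ℝ) ^ (0.9853 : ℝ) := by
      refine (abs_add_le _ _).trans (add_le_add ha ?_)
      rw [abs_mul, abs_of_nonneg h3]
      exact mul_le_mul h4 hb (abs_nonneg _) (by positivity)
    have h7 : (1 : ℝ) ≤ (A : ℝ) ^ (0.0062 : ℝ) := Real.one_le_rpow hA1 (by norm_num)
    have h8 : (0 : ℝ) < (A : ℝ) ^ (0.9853 : ℝ) := Real.rpow_pos_of_pos hA0 _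
    have h9 : (A : ℝ) ^ (0.0062 : ℝ) * (A : ℝ) ^ (0.9853 : ℝ) * (A : ℝ) ^ (0.0185 : ℝ) = (A : ℝ) ^ (1.01 : ℝ) := by
      rw [← Real.rpow_add hA0, ← Real.rpow_add hA0]
      norm_num
    have h10 : (A : ℝ) ^ (0.9853 : ℝ) ≤ (A : ℝ) ^ (0.0062 : ℝ) * (A : ℝ) ^ (0.9853 : ℝ) := by
      nlinarith
    have h11 : (A : ℝ) ^ (0.0062 : ℝ) * (A : ℝ) ^ (0.9853 : ℝ) * 5 ≤ (A : ℝ) ^ (1.01 : ℝ) := by
      rw [← h9]
      exact mul_le_mul_of_nonneg_left h5 (by positivity)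
    linarith
  have hc' : |(v.2.2 : ℝ)| ≤ (A : ℝ) ^ (1.01 : ℝ) :=
    hc.trans (Real.rpow_le_rpow_of_exponent_le hA1 (by norm_num))
  have key : ∀ h ∈ GG A, ∀ h' : ℤ, h ≠ h' → v.1 + h' * v.2.1 = 0 → v.2.2 = 0 →
      RR k A h (v.1 + h * v.2.1) v.2.2 = 0 := by
    intro h hh h' hne' hs hc0
    rw [hc0]
    refine rr_z k A hA2 h _ ?_ (hgs h hh)
    intro h3
    have h4 : (h - h') * v.2.1 = 0 := by linarith
    rcases mul_eq_zero.1 h4 with h6 | h6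
    · exact hne' (sub_eq_zero.1 h6)
    · rw [h6, mul_zero, add_zero] at h3
      apply hv0
      exact Prod.ext h3 (Prod.ext h6 hc0)
  by_cases h3 : v.1 + g * v.2.1 = 0 ∧ v.2.2 = 0
  · rw [key g' hg' g hne.symm h3.1 h3.2, mul_zero]
    exact Nat.zero_le _
  by_cases h4 : v.1 + g' * v.2.1 = 0 ∧ v.2.2 = 0
  · rw [key g hg g' hne h4.1 h4.2, zero_mul]
    exact Nat.zero_le _
  exact Nat.mul_le_mul (h1 A hAA1 g hg _ _ (hgs g hg) hc' h3) (h1 A hAA1 g' hg' _ _ (hgs g' hg') hc' h4)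

private theorem ms_mul (P Q : Finset (ℕ × ℕ)) :
    ∑ p ∈ P ×ˢ Q, 1 / ((p.1.1 * p.2.1 : ℕ) : ℝ) = ms P * ms Q := by
  unfold ms
  rw [sum_product, sum_mul_sum]
  refine sum_congr rfl fun x _ => sum_congr rfl fun y _ => ?_
  push_cast
  rw [one_div_mul_one_div]

private theorem cop (A : ℕ) (hA : 1 ≤ A) (h2 : (2 : ℝ) ≤ (A : ℝ) ^ (0.7138 : ℝ)) {g g' : ℤ} (hg : g ∈ GG A) (hg' : g' ∈ GG A) (hne : g ≠ g')
    {q : ℕ} (hq : q.Prime) (hqA : (A : ℝ) ^ (0.72 : ℝ) < q) : IsCoprime (g - g') (q : ℤ) := by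
  have hA1 : (1 : ℝ) ≤ A := by exact_mod_cast hA
  have hA0 : (0 : ℝ) < A := by linarith
  have h3 := Gn_le A hA
  have h4 : (A : ℝ) ^ (0.7138 : ℝ) * (A : ℝ) ^ (0.0062 : ℝ) = (A : ℝ) ^ (0.72 : ℝ) := by
    rw [← Real.rpow_add hA0]
    norm_num
  have h5 : (0 : ℝ) < (A : ℝ) ^ (0.0062 : ℝ) := Real.rpow_pos_of_pos hA0 _
  have h6 : (Gn A : ℝ) < (q : ℝ) := by nlinarith
  have h7 : (Gn A : ℤ) < (q : ℤ) := by exact_mod_cast h6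
  unfold GG at hg hg'
  rw [mem_Ioc] at hg hg'
  refine IsCoprime.symm ((Irreducible.coprime_iff_not_dvd (Nat.prime_iff_prime_int.1 hq).irreducible).2 fun h8 => ?_)
  have h9 : g - g' = 0 := by
    refine Int.eq_zero_of_abs_lt_dvd h8 ?_
    rw [abs_lt]
    constructor <;> linarith [hg.1, hg.2, hg'.1, hg'.2]
  exact hne (sub_eq_zero.1 h9)

theorem off (k : ℤ) (hk : ∀ t : ℤ, t ^ 3 ≠ k) (M : ℕ) (hM : 1 ≤ M) : ∃ C : ℝ, 0 < C ∧ ∃ A0 : ℕ, ∀ A : ℕ, A0 ≤ A →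
    ∀ g ∈ GG A, ∀ g' ∈ GG A, g ≠ g' →
    ∑ x ∈ Bx k M A, (RR k A g (x.1 + g * x.2.1) x.2.2 : ℝ) * (RR k A g' (x.1 + g' * x.2.1) x.2.2 : ℝ) ≤
      (1 + C * (A : ℝ) ^ (-(0.0063 : ℝ))) * (A : ℝ) ^ 3 * (ms (P1 k A) * ms (P2 k A)) ^ 2 + C * (A : ℝ) ^ (2.9919 : ℝ) := by
  classical
  obtain ⟨C, hC, A1, h1⟩ := tup
  obtain ⟨A2, h2⟩ := rr_bd k hk
  obtain ⟨A3, h3⟩ := ev_pow 2 0.7138 (by norm_num)
  refine ⟨539136 * C, by positivity, max 2 (max A1 (max A2 A3)), fun A hA g hg g' hg' hne => ?_⟩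
  have hA2 : 2 ≤ A := (le_max_left _ _).trans hA
  have hAA1 : A1 ≤ A := ((le_max_left _ _).trans (le_max_right _ _)).trans hA
  have hAA2 : A2 ≤ A := (((le_max_left _ _).trans (le_max_right _ _)).trans (le_max_right _ _)).trans hA
  have hAA3 : A3 ≤ A := (((le_max_right _ _).trans (le_max_right _ _)).trans (le_max_right _ _)).trans hA
  have hA1 : (1 : ℝ) ≤ A := by exact_mod_cast (show 1 ≤ A by omega)
  have hA0 : (0 : ℝ) < A := by linarith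
  have h3' := h3 A hAA3
  obtain ⟨κ, κ', hr⟩ := rr_mul k A hA2 g g'
  set Q := P1 k A ×ˢ P2 k A with hQ
  set N := ⌊(A : ℝ) ^ (0.9853 : ℝ)⌋₊ with hN
  have hBx : Bx k M A = bx (2 * LL k ^ 2 * (M * A)) (LL k * (M * A)) ((M : ℤ) * A) A := rfl
  -- one pair of tuples
  have hone : ∀ p ∈ Q, ∀ p' ∈ Q,
      ∑ x ∈ Bx k M A, (if x ∈ Lam g g' (p.1.1 * p.2.1) (p'.1.1 * p'.2.1) (κ p) (κ' p') then (1 : ℝ) else 0) ≤
        (1 + C * (A : ℝ) ^ (-(0.0063 : ℝ))) * (A : ℝ) ^ 3 * (1 / ((p.1.1 * p.2.1 : ℕ) : ℝ) * (1 / ((p'.1.1 * p'.2.1 : ℕ) : ℝ))) +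
        C * (A : ℝ) ^ (2.0064 : ℝ) * ∑ v ∈ cube N,
          (if v ∈ Lam g g' (p.1.1 * p.2.1) (p'.1.1 * p'.2.1) (κ p) (κ' p') then (1 : ℝ) else 0) * ((1 : ℝ) / (nrm v : ℝ) ^ 2) := by
    intro p hp p' hp'
    obtain ⟨q1, a1, b1⟩ := mem_PP (mem_product.1 hp).1
    obtain ⟨q2, a2, b2⟩ := mem_PP (mem_product.1 hp).2
    obtain ⟨q3, a3, b3⟩ := mem_PP (mem_product.1 hp').1
    obtain ⟨q4, a4, b4⟩ := mem_PP (mem_product.1 hp').2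
    have hm : 0 < p.1.1 * p.2.1 := Nat.mul_pos q1.pos q2.pos
    have hm' : 0 < p'.1.1 * p'.2.1 := Nat.mul_pos q3.pos q4.pos
    have hco : IsCoprime (g - g') ((p'.1.1 * p'.2.1 : ℕ) : ℤ) := by
      rw [Nat.cast_mul]
      refine IsCoprime.mul_right (cop A (by omega) h3' hg hg' hne q3 a3) (cop A (by omega) h3' hg hg' hne q4 ?_)
      exact (Real.rpow_le_rpow_of_exponent_le hA1 (by norm_num)).trans_lt a4
    have hidx := idx g g' (p.1.1 * p.2.1) (p'.1.1 * p'.2.1) (κ p) (κ' p') hm hm' hco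
    have hD : (((p.1.1 * p.2.1) * (p'.1.1 * p'.2.1) : ℕ) : ℝ) ≤ (A : ℝ) ^ (2.964 : ℝ) := by
      push_cast
      have e1 : (p.1.1 : ℝ) * p.2.1 ≤ (A : ℝ) ^ (1.482 : ℝ) := by
        refine (mul_le_mul b1 b2 (Nat.cast_nonneg _) (Real.rpow_nonneg hA0.le _)).trans ?_
        rw [← Real.rpow_add hA0]
        exact Real.rpow_le_rpow_of_exponent_le hA1 (by norm_num)
      have e2 : (p'.1.1 : ℝ) * p'.2.1 ≤ (A : ℝ) ^ (1.482 : ℝ) := by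
        refine (mul_le_mul b3 b4 (Nat.cast_nonneg _) (Real.rpow_nonneg hA0.le _)).trans ?_
        rw [← Real.rpow_add hA0]
        exact Real.rpow_le_rpow_of_exponent_le hA1 (by norm_num)
      refine (mul_le_mul e1 e2 (by positivity) (Real.rpow_nonneg hA0.le _)).trans ?_
      rw [← Real.rpow_add hA0]
      exact Real.rpow_le_rpow_of_exponent_le hA1 (by norm_num)
    have h4 := h1 A hAA1 _ _ hidx (Nat.mul_pos hm hm') hD (2 * LL k ^ 2 * (M * A)) (LL k * (M * A)) ((M : ℤ) * A)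
    rw [← hBx, card_filter] at h4
    push_cast at h4
    have h5 : ∑ v ∈ (cube N).filter (fun v => v ∈ Lam g g' (p.1.1 * p.2.1) (p'.1.1 * p'.2.1) (κ p) (κ' p')),
        (1 : ℝ) / (nrm v : ℝ) ^ 2 = ∑ v ∈ cube N,
          (if v ∈ Lam g g' (p.1.1 * p.2.1) (p'.1.1 * p'.2.1) (κ p) (κ' p') then (1 : ℝ) else 0) * ((1 : ℝ) / (nrm v : ℝ) ^ 2) := by
      rw [sum_filter]
      refine sum_congr rfl fun v _ => ?_
      split_ifs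
      · rw [one_mul]
      · rw [zero_mul]
    rw [h5] at h4
    refine h4.trans (le_of_eq ?_)
    push_cast
    congr 1
    have m1 : (p.1.1 : ℝ) ≠ 0 := Nat.cast_ne_zero.2 q1.ne_zero
    have m2 : (p.2.1 : ℝ) ≠ 0 := Nat.cast_ne_zero.2 q2.ne_zero
    have m3 : (p'.1.1 : ℝ) ≠ 0 := Nat.cast_ne_zero.2 q3.ne_zero
    have m4 : (p'.2.1 : ℝ) ≠ 0 := Nat.cast_ne_zero.2 q4.ne_zero
    field_simp
  -- sum
  have hsum : ∑ x ∈ Bx k M A, (RR k A g (x.1 + g * x.2.1) x.2.2 : ℝ) * (RR k A g' (x.1 + g' * x.2.1) x.2.2 : ℝ) =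
      ∑ p ∈ Q, ∑ p' ∈ Q, ∑ x ∈ Bx k M A,
        (if x ∈ Lam g g' (p.1.1 * p.2.1) (p'.1.1 * p'.2.1) (κ p) (κ' p') then (1 : ℝ) else 0) := by
    rw [sum_congr rfl fun x _ => hr x, sum_comm]
    refine sum_congr rfl fun p _ => ?_
    rw [sum_comm]
  have hms : ∑ p ∈ Q, ∑ p' ∈ Q, (1 / ((p.1.1 * p.2.1 : ℕ) : ℝ) * (1 / ((p'.1.1 * p'.2.1 : ℕ) : ℝ))) =
      (ms (P1 k A) * ms (P2 k A)) ^ 2 := by
    rw [← sum_mul_sum, hQ, ms_mul, sq]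
  have hcube : ∑ p ∈ Q, ∑ p' ∈ Q, ∑ v ∈ cube N,
      (if v ∈ Lam g g' (p.1.1 * p.2.1) (p'.1.1 * p'.2.1) (κ p) (κ' p') then (1 : ℝ) else 0) * ((1 : ℝ) / (nrm v : ℝ) ^ 2) ≤
      539136 * (A : ℝ) ^ (0.9853 : ℝ) := by
    have e1 : ∑ p ∈ Q, ∑ p' ∈ Q, ∑ v ∈ cube N,
        (if v ∈ Lam g g' (p.1.1 * p.2.1) (p'.1.1 * p'.2.1) (κ p) (κ' p') then (1 : ℝ) else 0) * ((1 : ℝ) / (nrm v : ℝ) ^ 2) =
        ∑ v ∈ cube N, ((RR k A g (v.1 + g * v.2.1) v.2.2 : ℝ) * (RR k A g' (v.1 + g' * v.2.1) v.2.2 : ℝ)) *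
          ((1 : ℝ) / (nrm v : ℝ) ^ 2) := by
      have e2 : ∀ p ∈ Q, ∑ p' ∈ Q, ∑ v ∈ cube N,
          (if v ∈ Lam g g' (p.1.1 * p.2.1) (p'.1.1 * p'.2.1) (κ p) (κ' p') then (1 : ℝ) else 0) * ((1 : ℝ) / (nrm v : ℝ) ^ 2) =
          ∑ v ∈ cube N, ∑ p' ∈ Q,
          (if v ∈ Lam g g' (p.1.1 * p.2.1) (p'.1.1 * p'.2.1) (κ p) (κ' p') then (1 : ℝ) else 0) * ((1 : ℝ) / (nrm v : ℝ) ^ 2) :=
        fun p _ => sum_comm
      rw [sum_congr rfl e2, sum_comm]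
      refine sum_congr rfl fun v _ => ?_
      rw [hr v, sum_mul]
      refine sum_congr rfl fun p _ => ?_
      rw [sum_mul]
    rw [e1]
    have e3 : ∀ v ∈ cube N, ((RR k A g (v.1 + g * v.2.1) v.2.2 : ℝ) * (RR k A g' (v.1 + g' * v.2.1) v.2.2 : ℝ)) *
          ((1 : ℝ) / (nrm v : ℝ) ^ 2) ≤ 20736 * ((1 : ℝ) / (nrm v : ℝ) ^ 2) := by
      intro v hv
      have e4 := h2 A hAA2 g hg g' hg' hne v hv
      have e5 : ((RR k A g (v.1 + g * v.2.1) v.2.2 : ℝ) * (RR k A g' (v.1 + g' * v.2.1) v.2.2 : ℝ)) ≤ 20736 := by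
        have e6 : RR k A g (v.1 + g * v.2.1) v.2.2 * RR k A g' (v.1 + g' * v.2.1) v.2.2 ≤ 20736 := e4
        exact_mod_cast e6
      exact mul_le_mul_of_nonneg_right e5 (by positivity)
    refine (sum_le_sum e3).trans ?_
    rw [← mul_sum]
    have e7 := shl N
    have e8 : (N : ℝ) ≤ (A : ℝ) ^ (0.9853 : ℝ) := Nat.floor_le (Real.rpow_nonneg hA0.le _)
    linarith
  rw [hsum]
  refine (sum_le_sum fun p hp => sum_le_sum fun p' hp' => hone p hp p' hp').trans ?_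
  have e9 : ∀ p ∈ Q, ∑ p' ∈ Q, ((1 + C * (A : ℝ) ^ (-(0.0063 : ℝ))) * (A : ℝ) ^ 3 *
        (1 / ((p.1.1 * p.2.1 : ℕ) : ℝ) * (1 / ((p'.1.1 * p'.2.1 : ℕ) : ℝ))) +
        C * (A : ℝ) ^ (2.0064 : ℝ) * ∑ v ∈ cube N,
          (if v ∈ Lam g g' (p.1.1 * p.2.1) (p'.1.1 * p'.2.1) (κ p) (κ' p') then (1 : ℝ) else 0) * ((1 : ℝ) / (nrm v : ℝ) ^ 2)) =
      (1 + C * (A : ℝ) ^ (-(0.0063 : ℝ))) * (A : ℝ) ^ 3 *
        ∑ p' ∈ Q, (1 / ((p.1.1 * p.2.1 : ℕ) : ℝ) * (1 / ((p'.1.1 * p'.2.1 : ℕ) : ℝ))) +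
        C * (A : ℝ) ^ (2.0064 : ℝ) * ∑ p' ∈ Q, ∑ v ∈ cube N,
          (if v ∈ Lam g g' (p.1.1 * p.2.1) (p'.1.1 * p'.2.1) (κ p) (κ' p') then (1 : ℝ) else 0) * ((1 : ℝ) / (nrm v : ℝ) ^ 2) := by
    intro p _
    rw [sum_add_distrib, mul_sum, mul_sum]
  rw [sum_congr rfl e9, sum_add_distrib, ← mul_sum, ← mul_sum, hms]
  have f1 : (0 : ℝ) ≤ (A : ℝ) ^ (-(0.0063 : ℝ)) := Real.rpow_nonneg hA0.le _
  have f2 : (1 + C * (A : ℝ) ^ (-(0.0063 : ℝ))) * (A : ℝ) ^ 3 * (ms (P1 k A) * ms (P2 k A)) ^ 2 ≤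
      (1 + 539136 * C * (A : ℝ) ^ (-(0.0063 : ℝ))) * (A : ℝ) ^ 3 * (ms (P1 k A) * ms (P2 k A)) ^ 2 := by
    refine mul_le_mul_of_nonneg_right (mul_le_mul_of_nonneg_right ?_ (by positivity)) (sq_nonneg _)
    nlinarith [mul_nonneg hC.le f1]
  have f3 : C * (A : ℝ) ^ (2.0064 : ℝ) * (539136 * (A : ℝ) ^ (0.9853 : ℝ)) ≤ 539136 * C * (A : ℝ) ^ (2.9919 : ℝ) := by
    have f4 : (A : ℝ) ^ (2.0064 : ℝ) * (A : ℝ) ^ (0.9853 : ℝ) ≤ (A : ℝ) ^ (2.9919 : ℝ) := by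
      rw [← Real.rpow_add hA0]
      exact Real.rpow_le_rpow_of_exponent_le hA1 (by norm_num)
    nlinarith
  have f5 : C * (A : ℝ) ^ (2.0064 : ℝ) * ∑ p ∈ Q, ∑ p' ∈ Q, ∑ v ∈ cube N,
      (if v ∈ Lam g g' (p.1.1 * p.2.1) (p'.1.1 * p'.2.1) (κ p) (κ' p') then (1 : ℝ) else 0) * ((1 : ℝ) / (nrm v : ℝ) ^ 2) ≤
      C * (A : ℝ) ^ (2.0064 : ℝ) * (539136 * (A : ℝ) ^ (0.9853 : ℝ)) :=
    mul_le_mul_of_nonneg_left hcube (by positivity)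
  exact add_le_add f2 (f5.trans f3)

end H71.DV
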