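import Pool.Agent.H71.DV.Grd

/-!
# [H71 DV PLN] packing in a plane, 100-180 lines

Let all nonzero vectors of `L` have norm `≥ R`, and let any three vectors of `L` of norm `< S` be linearly dependent. A set `T` of points with differences in `L` and of norm `< S` has at most
`(2S/R + 1)²` elements.
PROOF. (1) There is `w ≠ 0` with `w · v = 0` for all `v` in `V = {v ∈ L : nrm v < S}`, `w · v = w.1 v.1 + w.2.1 v.2.1 + w.2.2 v.2.2`. If `V ⊆ {0}` take `w = (1,0,0)`. Otherwise let `v1 ∈ V`, `v1 ≠ 0`. If all cross products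
`v1 × v`, `v ∈ V`, vanish: take `w ≠ 0` orthogonal to `v1` (one of `(v1.2.1, -v1.1, 0)`, `(0, v1.2.2, -v1.2.1)`, `(v1.2.2, 0, -v1.1)`, not all `0`); if `v1 × v = 0` then `v1.i (w · v) = v.i (w · v1) = 0` for all `i` (ring from the three cross product
equations), so `w · v = 0`. Otherwise let `v2 ∈ V` with `w := v1 × v2 ≠ 0`; `w · v = ± det3 v1 v2 v = 0` for `v ∈ V` by the hypothesis.
(2) Let `|w.k|` be the largest of the three coordinates of `w` (`> 0`), `i, j` the two others. For `v ∈ V`: `|w.k| |v.k| = |w.i v.i + w.j v.j| ≤ |w.k| (|v.i| + |v.j|)`, so `|v.k| ≤ |v.i| + |v.j| ≤ 2 max |v.i| |v.j|` and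
`nrm v ≤ 2 max |v.i| |v.j|`. So for `v ∈ V`, `v ≠ 0`: `R ≤ 2 max |v.i| |v.j|`.
(3) `grd` with `f x = (x.i, x.j)` (three cases `k`).
-/

set_option autoImplicit false

namespace H71.DV

open Finset

private theorem exists_normal (V : Set (ℤ × ℤ × ℤ)) (hV : ∀ u ∈ V, ∀ v ∈ V, ∀ w ∈ V, det3 u v w = 0) :
    ∃ a b c : ℤ, (a ≠ 0 ∨ b ≠ 0 ∨ c ≠ 0) ∧ ∀ v ∈ V, a * v.1 + b * v.2.1 + c * v.2.2 = 0 := by
  by_cases hc : ∃ u ∈ V, ∃ v ∈ V, (u.2.1 * v.2.2 - u.2.2 * v.2.1 ≠ 0 ∨ u.2.2 * v.1 - u.1 * v.2.2 ≠ 0 ∨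
      u.1 * v.2.1 - u.2.1 * v.1 ≠ 0)
  · obtain ⟨u, hu, v, hv, h⟩ := hc
    refine ⟨_, _, _, h, ?_⟩
    intro w hw
    have h1 := hV u hu v hv w hw
    unfold det3 at h1
    linear_combination h1
  · push Not at hc
    by_cases hz : ∃ u ∈ V, u ≠ 0
    · obtain ⟨u, hu, hu0⟩ := hz
      by_cases h1 : u.1 ≠ 0 ∨ u.2.1 ≠ 0
      · refine ⟨u.2.1, -u.1, 0, ?_, ?_⟩
        · rcases h1 with h1 | h1
          · right; left; simpa using h1
          · left; exact h1
        · intro v hv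
          have h2 := (hc u hu v hv).2.2
          linear_combination -h2
      · push Not at h1
        have h3 : u.2.2 ≠ 0 := by
          intro h3
          exact hu0 (Prod.ext h1.1 (Prod.ext h1.2 h3))
        refine ⟨u.2.2, 0, -u.1, Or.inl h3, ?_⟩
        intro v hv
        have h2 := (hc u hu v hv).2.1
        linear_combination h2
    · push Not at hz
      refine ⟨1, 0, 0, Or.inl one_ne_zero, ?_⟩
      intro v hv
      rw [hz v hv]
      simp

private theorem third_le (a b c x y z : ℤ) (h : a * x + b * y + c * z = 0) (ha : |a| ≤ |c|) (hb : |b| ≤ |c|)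
    (hc : c ≠ 0) : |z| ≤ |x| + |y| := by
  have hc' : 0 < |c| := abs_pos.2 hc
  have h1 : |c| * |z| ≤ |c| * (|x| + |y|) := by
    calc |c| * |z| = |a * x + b * y| := by
          rw [← abs_mul, show c * z = -(a * x + b * y) by linear_combination h, abs_neg]
      _ ≤ |a * x| + |b * y| := abs_add_le _ _
      _ = |a| * |x| + |b| * |y| := by rw [abs_mul, abs_mul]
      _ ≤ |c| * |x| + |c| * |y| := by gcongr
      _ = |c| * (|x| + |y|) := by ring
  exact le_of_mul_le_mul_left h1 hc'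

private theorem nrm_parts (v : ℤ × ℤ × ℤ) : |v.1| ≤ nrm v ∧ |v.2.1| ≤ nrm v ∧ |v.2.2| ≤ nrm v :=
  ⟨le_max_left _ _, (le_max_left _ _).trans (le_max_right _ _), (le_max_right _ _).trans (le_max_right _ _)⟩

theorem pln (L : AddSubgroup (ℤ × ℤ × ℤ)) (R : ℝ) (hR : 1 ≤ R) (hmin : ∀ v ∈ L, v ≠ 0 → R ≤ nrm v) (S : ℕ)
    (hpl : ∀ v1 ∈ L, ∀ v2 ∈ L, ∀ v3 ∈ L, nrm v1 < S → nrm v2 < S → nrm v3 < S → det3 v1 v2 v3 = 0)
    (T : Finset (ℤ × ℤ × ℤ)) (hT : ∀ x ∈ T, ∀ y ∈ T, x - y ∈ L ∧ nrm (x - y) < S) :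
    (T.card : ℝ) ≤ (2 * S / R + 1) ^ 2 := by
  obtain ⟨a, b, c, h0, hn⟩ := exists_normal {v | v ∈ L ∧ nrm v < S}
    (fun u hu v hv w hw => hpl u hu.1 v hv.1 w hw.1 hu.2 hv.2 hw.2)
  have hn' : ∀ x ∈ T, ∀ y ∈ T, a * (x - y).1 + b * (x - y).2.1 + c * (x - y).2.2 = 0 :=
    fun x hx y hy => hn (x - y) (hT x hx y hy)
  have hm' : ∀ x ∈ T, ∀ y ∈ T, x ≠ y → R ≤ nrm (x - y) :=
    fun x hx y hy hxy => hmin (x - y) (hT x hx y hy).1 (sub_ne_zero.2 hxy)
  have hlt : ∀ x ∈ T, ∀ y ∈ T, |(x - y).1| < S ∧ |(x - y).2.1| < S ∧ |(x - y).2.2| < S := by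
    intro x hx y hy
    have h1 := nrm_parts (x - y)
    have h2 := (hT x hx y hy).2
    exact ⟨h1.1.trans_lt h2, h1.2.1.trans_lt h2, h1.2.2.trans_lt h2⟩
  have key : ∀ n m : ℤ, ∀ r : ℝ, r ≤ n → n ≤ 2 * m → r ≤ 2 * (m : ℝ) := by
    intro n m r h1 h2
    have h3 : (n : ℝ) ≤ 2 * (m : ℝ) := by exact_mod_cast h2
    linarith
  by_cases hc : |a| ≤ |c| ∧ |b| ≤ |c|
  · have hc0 : c ≠ 0 := by
      rintro rfl
      simp only [abs_zero, abs_nonpos_iff] at hc
      rcases h0 with h | h | h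
      · exact h hc.1
      · exact h hc.2
      · exact h rfl
    refine grd T (fun x => (x.1, x.2.1)) S R hR ?_ ?_
    · intro x hx y hy
      exact ⟨(hlt x hx y hy).1, (hlt x hx y hy).2.1⟩
    · intro x hx y hy hxy
      refine key _ _ _ (hm' x hx y hy hxy) ?_
      have h1 := third_le a b c _ _ _ (hn' x hx y hy) hc.1 hc.2 hc0
      simp only [Prod.fst_sub, Prod.snd_sub] at h1
      unfold nrm
      simp only [Prod.fst_sub, Prod.snd_sub]
      have h2 := le_max_left |x.1 - y.1| |x.2.1 - y.2.1|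
      have h3 := le_max_right |x.1 - y.1| |x.2.1 - y.2.1|
      have h4 := abs_nonneg (x.1 - y.1)
      refine max_le (by linarith) (max_le (by linarith) (by linarith))
  by_cases hb : |a| ≤ |b| ∧ |c| ≤ |b|
  · have hb0 : b ≠ 0 := by
      rintro rfl
      simp only [abs_zero, abs_nonpos_iff] at hb
      rcases h0 with h | h | h
      · exact h hb.1
      · exact h rfl
      · exact h hb.2
    refine grd T (fun x => (x.1, x.2.2)) S R hR ?_ ?_
    · intro x hx y hy
      exact ⟨(hlt x hx y hy).1, (hlt x hx y hy).2.2⟩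
    · intro x hx y hy hxy
      refine key _ _ _ (hm' x hx y hy hxy) ?_
      have h1 := third_le a c b (x - y).1 (x - y).2.2 (x - y).2.1 (by linear_combination hn' x hx y hy) hb.1 hb.2 hb0
      simp only [Prod.fst_sub, Prod.snd_sub] at h1
      unfold nrm
      simp only [Prod.fst_sub, Prod.snd_sub]
      have h2 := le_max_left |x.1 - y.1| |x.2.2 - y.2.2|
      have h3 := le_max_right |x.1 - y.1| |x.2.2 - y.2.2|
      have h4 := abs_nonneg (x.1 - y.1)
      refine max_le (by linarith) (max_le (by linarith) (by linarith))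
  · have ha : |b| ≤ |a| ∧ |c| ≤ |a| := by
      rcases le_total |b| |a| with h1 | h1 <;> rcases le_total |c| |a| with h2 | h2
      · exact ⟨h1, h2⟩
      · exact absurd ⟨h2, h1.trans h2⟩ hc
      · exact absurd ⟨h1, h2.trans h1⟩ hb
      · rcases le_total |b| |c| with h3 | h3
        · exact absurd ⟨h2, h3⟩ hc
        · exact absurd ⟨h1, h3⟩ hb
    have ha0 : a ≠ 0 := by
      rintro rfl
      simp only [abs_zero, abs_nonpos_iff] at ha
      rcases h0 with h | h | h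
      · exact h rfl
      · exact h ha.1
      · exact h ha.2
    refine grd T (fun x => (x.2.1, x.2.2)) S R hR ?_ ?_
    · intro x hx y hy
      exact ⟨(hlt x hx y hy).2.1, (hlt x hx y hy).2.2⟩
    · intro x hx y hy hxy
      refine key _ _ _ (hm' x hx y hy hxy) ?_
      have h1 := third_le b c a (x - y).2.1 (x - y).2.2 (x - y).1 (by linear_combination hn' x hx y hy) ha.1 ha.2 ha0
      simp only [Prod.fst_sub, Prod.snd_sub] at h1
      unfold nrm
      simp only [Prod.fst_sub, Prod.snd_sub]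
      have h2 := le_max_left |x.2.1 - y.2.1| |x.2.2 - y.2.2|
      have h3 := le_max_right |x.2.1 - y.2.1| |x.2.2 - y.2.2|
      have h4 := abs_nonneg (x.2.1 - y.2.1)
      refine max_le (by linarith) (max_le (by linarith) (by linarith))

end H71.DV
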