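import Pool.Agent.H71.DV.Def

/-!
# [H71 DV SHL] the sum of `1/|v|²`, 40-80 lines

`∑_{v ∈ cube N} 1/(nrm v)² ≤ 26 N`. Induction on `N`: `cube 0 = ∅`; `cube (N+1)` is the disjoint union of `cube N` and the vectors of norm `N + 1`; there are `(2N+3)³ - (2N+1)³ = 24 (N+1)² + 2 ≤ 26 (N+1)²` of them
(`#(Icc (-N) N) = 2N+1`; `v ∈ cube N ↔ v ≠ 0 ∧ nrm v ≤ N`).
-/

set_option autoImplicit false

namespace H71.DV

open Finset

theorem mem_cube (N : ℕ) (v : ℤ × ℤ × ℤ) : v ∈ cube N ↔ v ≠ 0 ∧ nrm v ≤ N := by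
  unfold cube nrm
  rw [mem_filter, mem_product, mem_product, mem_Icc, mem_Icc, mem_Icc, max_le_iff, max_le_iff, abs_le, abs_le, abs_le]
  tauto

private theorem card_cube (N : ℕ) : (cube N).card + 1 = (2 * N + 1) ^ 3 := by
  unfold cube
  rw [filter_ne', card_erase_add_one]
  · rw [card_product, card_product, Int.card_Icc]
    have h1 : ((N : ℤ) + 1 - -(N : ℤ)).toNat = 2 * N + 1 := by omega
    rw [h1]
    ring
  · rw [mem_product, mem_product, mem_Icc, mem_Icc, mem_Icc]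
    simp

theorem shl (N : ℕ) : ∑ v ∈ cube N, (1 : ℝ) / (nrm v : ℝ) ^ 2 ≤ 26 * (N : ℝ) := by
  induction N with
  | zero =>
    have h1 : (cube 0).card = 0 := by
      have := card_cube 0
      simpa using this
    rw [card_eq_zero.1 h1]
    simp
  | succ N ih =>
    have hsub : cube N ⊆ cube (N + 1) := by
      intro v hv
      rw [mem_cube] at hv ⊢
      refine ⟨hv.1, hv.2.trans ?_⟩
      push_cast
      omega
    rw [← sum_sdiff hsub]
    have h1 : ∀ v ∈ cube (N + 1) \ cube N, (1 : ℝ) / (nrm v : ℝ) ^ 2 = 1 / ((N : ℝ) + 1) ^ 2 := by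
      intro v hv
      rw [mem_sdiff, mem_cube, mem_cube] at hv
      have h2 : nrm v = (N : ℤ) + 1 := by
        have h3 : ¬ nrm v ≤ N := fun h => hv.2 ⟨hv.1.1, h⟩
        have h4 := hv.1.2
        push_cast at h4
        omega
      rw [h2]
      push_cast
      rfl
    rw [sum_congr rfl h1, sum_const, nsmul_eq_mul]
    have h2 : (cube (N + 1) \ cube N).card ≤ 26 * (N + 1) ^ 2 := by
      rw [card_sdiff_of_subset hsub]
      have h3 := card_cube N
      have h4 := card_cube (N + 1)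
      have h5 : (2 * (N + 1) + 1) ^ 3 = (2 * N + 1) ^ 3 + 24 * (N + 1) ^ 2 + 2 := by ring
      have h6 : 1 ≤ (N + 1) ^ 2 := Nat.one_le_pow _ _ (by omega)
      omega
    have h3 : ((cube (N + 1) \ cube N).card : ℝ) ≤ 26 * ((N : ℝ) + 1) ^ 2 := by exact_mod_cast h2
    have h4 : (0 : ℝ) < ((N : ℝ) + 1) ^ 2 := by positivity
    have h5 : ((cube (N + 1) \ cube N).card : ℝ) * (1 / ((N : ℝ) + 1) ^ 2) ≤ 26 := by
      rw [mul_one_div, div_le_iff₀ h4]
      exact h3
    push_cast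
    linarith

end H71.DV
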