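import Pool.Agent.H71.DV.Nne
import Pool.Agent.H96.EB.Bas
import Pool.Agent.H96.EB.Red

/-!
# [H71 DV THR] three short vectors for one direction, 100-180 lines

`g ≥ 1`, `m ∣ II k g κ 1`, `L = Lam g g m 1 κ κ = {(a,b,c) : m ∣ a + g b - κ c}`. CLAIM: `L` contains three independent vectors of norm `≤ C (m^(2/3) + g)`.
Let `C0 = 1 + 4 |k| + k²`. (1) If `(s,c) ≠ 0`, `m ∣ s - κ c` then `max |s| (g |c|) ≥ (m/C0)^(1/3) =: λ`: `II k g (κ c) c = c³ II k g κ 1` (ring), `s - κ c ∣ II k g s c - II k g (κ c) c`, so `m ∣ II k g s c ≠ 0` (`II_ne`) and `m ≤ |II| ≤ C0 T³`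
(`II_le'`, `T = max |s| (g |c|)`).
(2) `Pool.Agent.H96.EB.red` with `X = 1/g`, `Y = 1/m`, `θ = κ/m` for the vectors `(c, n)`: with `s := κ c - m n`: `gau X Y θ (c,n) = max (g |c|) |s|`. It gives `u1 = (c1,n1)`, `u2 = (c2,n2)` with `c1 n2 - n1 c2 = 1`, `l1 ≤ l2`, `l1 l2 ≤ 2 g m`, and `l1 ≥ λ` by (1)
(`(s,c) ≠ 0` for `(c,n) ≠ 0`), so `l2 ≤ 2 g m/λ = 2 g C0^(1/3) m^(2/3)`. `s_i = κ c_i - m n_i`, `|s_i| ≤ l2`, `g |c_i| ≤ l2`, `s1 c2 - s2 c1 = m (c1 n2 - n1 c2)` up to sign, so `≠ 0`.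
(3) Lift: `b_i = round (s_i/g)`, `a_i = s_i - g b_i`: `|a_i| ≤ g/2`, `|b_i| ≤ |s_i|/g + 1/2 ≤ l2/g + 1/2`, `|c_i| ≤ l2/g`. `v_i = (a_i, b_i, c_i) ∈ L`, `v3 = (-g, 1, 0) ∈ L`. `det3 v1 v2 v3 = ±(s1 c2 - s2 c1)` (ring after `a_i = s_i - g b_i`). All norms are
`≤ 2 C0^(1/3) m^(2/3) + 1 + g ≤ C (m^(2/3) + g)`, `C = 2 C0 + 1` (`C0 ≥ 1`, `C0^(1/3) ≤ C0`).
-/

set_option autoImplicit false

namespace H71.DV

open Finset H96.DR H23.LP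

/-- lower bound for the first minimum -/
private theorem thr_low (k : ℤ) (hk : ∀ t : ℤ, t ^ 3 ≠ k) (g : ℤ) (hg : 1 ≤ g) (m : ℕ) (hm : 0 < m) (κ : ℤ)
    (hκ : (m : ℤ) ∣ II k g κ 1) (c n : ℤ) (h : ¬ (c = 0 ∧ n = 0)) (l : ℝ) (h1 : g * |(c : ℝ)| ≤ l)
    (h2 : |((κ * c - m * n : ℤ) : ℝ)| ≤ l) : (m : ℝ) ≤ (1 + 4 * |(k : ℝ)| + (k : ℝ) ^ 2) * l ^ 3 := by
  have hm' : (m : ℤ) ≠ 0 := by exact_mod_cast hm.ne'
  have hne : II k g (κ * c - m * n) c ≠ 0 := by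
    refine II_ne k hk g _ c ?_
    rintro ⟨h3, rfl⟩
    rw [mul_zero, zero_sub, neg_eq_zero] at h3
    rcases mul_eq_zero.1 h3 with h4 | h4
    · exact hm' h4
    · exact h ⟨rfl, h4⟩
  have hdvd : (m : ℤ) ∣ II k g (κ * c - m * n) c := by
    have e : II k g (κ * c - m * n) c = c ^ 3 * II k g κ 1 + (m : ℤ) *
        (-n * ((κ * c - m * n) ^ 2 + (κ * c - m * n) * (κ * c) + (κ * c) ^ 2 - 3 * k * g * c ^ 2)) := by
      simp only [II]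
      ring
    rw [e]
    exact dvd_add (Dvd.dvd.mul_left hκ _) (dvd_mul_right _ _)
  have h3 : (m : ℤ) ≤ |II k g (κ * c - m * n) c| := Int.le_of_dvd (abs_pos.2 hne) ((dvd_abs _ _).2 hdvd)
  have h4 : (m : ℝ) ≤ |((II k g (κ * c - m * n) c : ℤ) : ℝ)| := by
    rw [← Int.cast_abs]
    exact_mod_cast h3
  exact h4.trans (II_le' k g _ c l hg h2 h1)

/-- the lift of a vector -/
private theorem thr_lift (g : ℤ) (hg : 1 ≤ g) (m : ℕ) (κ c n : ℤ) (l Q : ℝ) (h1 : g * |(c : ℝ)| ≤ l)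
    (h2 : |((κ * c - m * n : ℤ) : ℝ)| ≤ l) (hl : l ≤ g * Q) : ∃ a b : ℤ, a + g * b = κ * c - m * n ∧
      (a, b, c) ∈ Lam g g m 1 κ κ ∧ (nrm (a, b, c) : ℝ) ≤ Q + g := by
  have hg' : (1 : ℝ) ≤ g := by exact_mod_cast hg
  have hg0 : (0 : ℝ) < g := by linarith
  set s : ℤ := κ * c - m * n with hs
  have hcQ : |(c : ℝ)| ≤ Q := by
    have : (g : ℝ) * |(c : ℝ)| ≤ g * Q := h1.trans hl
    exact le_of_mul_le_mul_left this hg0
  have hr := abs_sub_round ((s : ℝ) / g)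
  refine ⟨s - g * round ((s : ℝ) / g), round ((s : ℝ) / g), by ring, ?_, ?_⟩
  · rw [mem_Lam]
    refine ⟨⟨-n, ?_⟩, by simp⟩
    change s - g * round ((s : ℝ) / g) + g * round ((s : ℝ) / g) - κ * c = _
    rw [hs]
    ring
  · have ha : |((s - g * round ((s : ℝ) / g) : ℤ) : ℝ)| ≤ Q + g := by
      have e : ((s - g * round ((s : ℝ) / g) : ℤ) : ℝ) = g * ((s : ℝ) / g - round ((s : ℝ) / g)) := by
        push_cast
        field_simp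
      rw [e, abs_mul, abs_of_pos hg0]
      have hQ : 0 ≤ Q := (abs_nonneg _).trans hcQ
      nlinarith
    have hb : |((round ((s : ℝ) / g) : ℤ) : ℝ)| ≤ Q + g := by
      have e : ((round ((s : ℝ) / g) : ℤ) : ℝ) = (s : ℝ) / g - ((s : ℝ) / g - round ((s : ℝ) / g)) := by ring
      rw [e]
      refine (abs_sub _ _).trans ?_
      have h3 : |(s : ℝ) / g| ≤ Q := by
        rw [abs_div, abs_of_pos hg0, div_le_iff₀ hg0, mul_comm]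
        exact h2.trans hl
      linarith
    have hc : |(c : ℝ)| ≤ Q + g := by linarith
    unfold nrm
    push_cast
    exact max_le (by exact_mod_cast ha) (max_le hb hc)

theorem thr (k : ℤ) (hk : ∀ t : ℤ, t ^ 3 ≠ k) : ∃ C : ℝ, 1 ≤ C ∧ ∀ g : ℤ, 1 ≤ g → ∀ m : ℕ, 0 < m → ∀ κ : ℤ, (m : ℤ) ∣ II k g κ 1 →
    ∃ v1 ∈ Lam g g m 1 κ κ, ∃ v2 ∈ Lam g g m 1 κ κ, ∃ v3 ∈ Lam g g m 1 κ κ, det3 v1 v2 v3 ≠ 0 ∧
      (nrm v1 : ℝ) ≤ C * ((m : ℝ) ^ (2 / 3 : ℝ) + g) ∧ (nrm v2 : ℝ) ≤ C * ((m : ℝ) ^ (2 / 3 : ℝ) + g) ∧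
      (nrm v3 : ℝ) ≤ C * ((m : ℝ) ^ (2 / 3 : ℝ) + g) := by
  obtain ⟨C0, hC0⟩ : ∃ C0 : ℝ, C0 = 1 + 4 * |(k : ℝ)| + (k : ℝ) ^ 2 := ⟨_, rfl⟩
  have hC1 : 1 ≤ C0 := by
    rw [hC0]
    have := abs_nonneg (k : ℝ)
    nlinarith [sq_nonneg (k : ℝ)]
  refine ⟨2 * C0 + 1, by linarith, fun g hg m hm κ hκ => ?_⟩
  have hg' : (1 : ℝ) ≤ g := by exact_mod_cast hg
  have hg0 : (0 : ℝ) < g := by linarith
  have hm' : (0 : ℝ) < m := by exact_mod_cast hm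
  obtain ⟨⟨c1, n1⟩, ⟨c2, n2⟩, hdet, -, hl12, hl⟩ := Pool.Agent.H96.EB.red (1 / g) (1 / m) (κ / m) (by positivity) (by positivity)
  have hgau : ∀ c n : ℤ, Pool.Agent.H96.EB.gau (1 / g) (1 / m) (κ / m) (c, n) =
      max (g * |(c : ℝ)|) |((κ * c - m * n : ℤ) : ℝ)| := by
    intro c n
    unfold Pool.Agent.H96.EB.gau
    congr 1
    · rw [div_div_eq_mul_div, div_one, mul_comm]
    · change |(n : ℝ) - κ / m * c| / (1 / m) = _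
      rw [div_div_eq_mul_div, div_one, ← abs_of_pos hm', ← abs_mul, abs_of_pos hm', ← abs_neg]
      congr 1
      push_cast
      field_simp
      ring
  rw [hgau, hgau] at hl hl12
  obtain ⟨l1, hl1⟩ : ∃ l1, l1 = max (g * |(c1 : ℝ)|) |((κ * c1 - m * n1 : ℤ) : ℝ)| := ⟨_, rfl⟩
  obtain ⟨l2, hl2⟩ : ∃ l2, l2 = max (g * |(c2 : ℝ)|) |((κ * c2 - m * n2 : ℤ) : ℝ)| := ⟨_, rfl⟩
  rw [← hl1, ← hl2] at hl hl12
  have h11 : g * |(c1 : ℝ)| ≤ l1 := by rw [hl1]; exact le_max_left _ _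
  have h12 : |((κ * c1 - m * n1 : ℤ) : ℝ)| ≤ l1 := by rw [hl1]; exact le_max_right _ _
  have h21 : g * |(c2 : ℝ)| ≤ l2 := by rw [hl2]; exact le_max_left _ _
  have h22 : |((κ * c2 - m * n2 : ℤ) : ℝ)| ≤ l2 := by rw [hl2]; exact le_max_right _ _
  change c1 * n2 - n1 * c2 = 1 at hdet
  have hlow := thr_low k hk g hg m hm κ hκ c1 n1 (by
    rintro ⟨rfl, rfl⟩
    rw [zero_mul, zero_mul, sub_zero] at hdet
    exact zero_ne_one hdet) l1 h11 h12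
  rw [← hC0] at hlow
  -- real powers
  obtain ⟨q, hq⟩ : ∃ q : ℝ, q = (m : ℝ) ^ (1 / 3 : ℝ) := ⟨_, rfl⟩
  have hq0 : 0 < q := by rw [hq]; positivity
  have hq3 : q ^ 3 = m := by
    rw [hq, ← Real.rpow_natCast, ← Real.rpow_mul hm'.le]
    norm_num
  have hq2 : (m : ℝ) ^ (2 / 3 : ℝ) = q ^ 2 := by
    rw [hq, ← Real.rpow_natCast, ← Real.rpow_mul hm'.le]
    norm_num
  have hl10 : 0 ≤ l1 := (by positivity : (0 : ℝ) ≤ g * |(c1 : ℝ)|).trans h11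
  have hql : q ≤ C0 * l1 := by
    have h3 : q ^ 3 ≤ (C0 * l1) ^ 3 := by
      rw [hq3, mul_pow]
      refine hlow.trans (mul_le_mul_of_nonneg_right ?_ (by positivity))
      calc C0 = C0 ^ 1 := (pow_one _).symm
        _ ≤ C0 ^ 3 := pow_le_pow_right₀ hC1 (by norm_num)
    exact le_of_pow_le_pow_left₀ (by norm_num) (by positivity) h3
  have hl2q : l2 ≤ g * (2 * C0 * q ^ 2) := by
    have e : (2 : ℝ) / (1 / g * (1 / m)) = 2 * g * q ^ 3 := by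
      rw [hq3]
      field_simp
    rw [e] at hl
    have hl20 : 0 ≤ l2 := hl10.trans hl12
    have h3 : q * l2 ≤ q * (g * (2 * C0 * q ^ 2)) := by
      calc q * l2 ≤ C0 * l1 * l2 := mul_le_mul_of_nonneg_right hql hl20
        _ = C0 * (l1 * l2) := by ring
        _ ≤ C0 * (2 * g * q ^ 3) := mul_le_mul_of_nonneg_left hl (by linarith)
        _ = q * (g * (2 * C0 * q ^ 2)) := by ring
    exact le_of_mul_le_mul_left h3 hq0
  obtain ⟨a1, b1, e1, m1, w1⟩ := thr_lift g hg m κ c1 n1 l1 (2 * C0 * q ^ 2) h11 h12 (hl12.trans hl2q)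
  obtain ⟨a2, b2, e2, m2, w2⟩ := thr_lift g hg m κ c2 n2 l2 (2 * C0 * q ^ 2) h21 h22 hl2q
  have hfin : 2 * C0 * q ^ 2 + g ≤ (2 * C0 + 1) * ((m : ℝ) ^ (2 / 3 : ℝ) + g) := by
    rw [hq2]
    have h3 : 0 ≤ q ^ 2 := by positivity
    have h4 : 0 ≤ C0 * g := by positivity
    nlinarith
  refine ⟨_, m1, _, m2, (-g, 1, 0), ?_, ?_, w1.trans hfin, w2.trans hfin, ?_⟩
  · rw [mem_Lam]
    exact ⟨⟨0, by ring⟩, by simp⟩
  · have e : det3 (a1, b1, c1) (a2, b2, c2) (-g, 1, 0) = -m := by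
      have e3 : det3 (a1, b1, c1) (a2, b2, c2) (-g, 1, 0) = c1 * (a2 + g * b2) - c2 * (a1 + g * b1) := by
        unfold det3
        ring
      rw [e3, e1, e2]
      linear_combination (-(m : ℤ)) * hdet
    rw [e, neg_ne_zero]
    exact_mod_cast hm.ne'
  · refine le_trans ?_ hfin
    unfold nrm
    push_cast
    have h3 : 0 ≤ 2 * C0 * q ^ 2 := by positivity
    refine max_le ?_ (max_le ?_ ?_)
    · rw [abs_neg, abs_of_pos hg0]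
      linarith
    · rw [abs_one]
      linarith
    · rw [abs_zero]
      linarith

end H71.DV
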