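import Pool.Agent.H71.DV.Mk3
import Pool.Agent.H71.DV.Cn3
import Pool.Agent.H71.DV.Shl

/-!
# [H71 DV TUP] points of one lattice in the box, 100-180 lines

`L` has index `D ≤ A^2.964`. Put `R = max 1 (3 (D A^(-0.9936))^(1/2))`, so `R² ≥ 9 D A^(-0.9936)` and `R ≤ 3 A^0.9852` (`A ≥ 1`).
(i) All nonzero vectors of `L` have norm `≥ R`. `mk3` with `S = ⌊A^0.9936⌋₊ + 1`: `9 D/R² ≤ A^0.9936 < S`, `R ≤ 3 A^0.9852 ≤ A^0.9936 < S` for `A ≥ A0`. The three vectors have norm `≤ ⌊A^0.9936⌋ ≤ D' := A^0.9936`, so by `lat3` (with `x0 = 0`)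
`D N ≤ (A + 6 A^0.9936)³ = A³ (1 + 6 A^(-0.0064))³ ≤ A³ (1 + 42 A^(-0.0064)) ≤ A³ (1 + 42 A^(-0.0063))` (`(1+y)³ ≤ 1 + 7y` for `0 ≤ y ≤ 1`).
(ii) Otherwise there is a nonzero vector of norm `< R`; let `μ` be a nonzero vector of `L` of minimal norm `r ≥ 1` (`nrm` is a nonnegative integer, `WellFounded.min` or `Nat.find`). `1 ≤ r < R`, so `R > 1` and `r² < R² = 9 D A^(-0.9936)`, i.e. `A³/D < 9 A^2.0064/r²`. `cn3` with
`R := r`: `N ≤ 343 A³/D + (2A/r+1)² ≤ 3087 A^2.0064/r² + 9 A²/r²` (`r < 3 A^0.9852 ≤ A`). And `μ ∈ cube ⌊A^0.9853⌋₊` (`r < 3 A^0.9852 ≤ A^0.9853`), so `1/r² ≤ ∑`. `C = 4000`.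
-/

set_option autoImplicit false

namespace H71.DV

open Finset

private theorem tup_big (y : ℝ) (hy : 0 < y) (B : ℝ) :
    ∃ A0 : ℕ, ∀ A : ℕ, A0 ≤ A → B ≤ (A : ℝ) ^ y := by
  have h := ((tendsto_rpow_atTop hy).comp (tendsto_natCast_atTop_atTop (R := ℝ))).eventually
    (Filter.eventually_ge_atTop B)
  exact Filter.eventually_atTop.1 h

private theorem nrm_pos {v : ℤ × ℤ × ℤ} (hv : v ≠ 0) : 1 ≤ nrm v := by
  by_contra h
  apply hv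
  have h1 : |v.1| ≤ nrm v := le_max_left _ _
  have h2 : |v.2.1| ≤ nrm v := (le_max_left _ _).trans (le_max_right _ _)
  have h3 : |v.2.2| ≤ nrm v := (le_max_right _ _).trans (le_max_right _ _)
  have e1 : v.1 = 0 := abs_eq_zero.1 (le_antisymm (by omega) (abs_nonneg _))
  have e2 : v.2.1 = 0 := abs_eq_zero.1 (le_antisymm (by omega) (abs_nonneg _))
  have e3 : v.2.2 = 0 := abs_eq_zero.1 (le_antisymm (by omega) (abs_nonneg _))
  exact Prod.ext e1 (Prod.ext e2 e3)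

private theorem exists_min (L : AddSubgroup (ℤ × ℤ × ℤ)) {v0 : ℤ × ℤ × ℤ} (h0 : v0 ∈ L)
    (hv : v0 ≠ 0) : ∃ μ ∈ L, μ ≠ 0 ∧ ∀ v ∈ L, v ≠ 0 → nrm μ ≤ nrm v := by
  classical
  have hex : ∃ n : ℕ, ∃ v ∈ L, v ≠ 0 ∧ (nrm v).toNat = n := ⟨_, v0, h0, hv, rfl⟩
  obtain ⟨μ, h1, h2, h3⟩ := Nat.find_spec hex
  refine ⟨μ, h1, h2, fun v hv hv0 => ?_⟩
  have h4 := Nat.find_min' hex ⟨v, hv, hv0, rfl⟩
  rw [← h3] at h4
  have p1 := nrm_pos h2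
  have p2 := nrm_pos hv0
  omega

private theorem tup_cub {y : ℝ} (h0 : 0 ≤ y) (h1 : y ≤ 1) : (1 + y) ^ 3 ≤ 1 + 7 * y := by
  nlinarith [mul_nonneg h0 (sub_nonneg.2 h1), mul_nonneg (mul_nonneg h0 (sub_nonneg.2 h1)) h0]

open Classical in
theorem tup : ∃ C : ℝ, 0 < C ∧ ∃ A0 : ℕ, ∀ A : ℕ, A0 ≤ A → ∀ (L : AddSubgroup (ℤ × ℤ × ℤ)) (D : ℕ), L.index = D → 0 < D →
    (D : ℝ) ≤ (A : ℝ) ^ (2.964 : ℝ) → ∀ x1 x2 x3 : ℤ,
    (((bx x1 x2 x3 A).filter fun x => x ∈ L).card : ℝ) ≤ (1 + C * (A : ℝ) ^ (-(0.0063 : ℝ))) * ((A : ℝ) ^ 3 / D) +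
      C * (A : ℝ) ^ (2.0064 : ℝ) * ∑ v ∈ (cube ⌊(A : ℝ) ^ (0.9853 : ℝ)⌋₊).filter fun v => v ∈ L, (1 : ℝ) / (nrm v : ℝ) ^ 2 := by
  obtain ⟨A1, g1⟩ := tup_big 0.0084 (by norm_num) 3
  obtain ⟨A2, g2⟩ := tup_big 0.0064 (by norm_num) 6
  obtain ⟨A3, g3⟩ := tup_big 0.0001 (by norm_num) 3
  refine ⟨4000, by norm_num, max 1 (max A1 (max A2 A3)), fun A hA L D hL hD0 hDA x1 x2 x3 => ?_⟩
  have hA0 : 1 ≤ A := (le_max_left _ _).trans hA
  have hA' := (le_max_right _ _).trans hA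
  have hA1 : A1 ≤ A := (le_max_left _ _).trans hA'
  have hA'' := (le_max_right _ _).trans hA'
  have hA2 : A2 ≤ A := (le_max_left _ _).trans hA''
  have hA3 : A3 ≤ A := (le_max_right _ _).trans hA''
  have k1 := g1 A hA1
  have k2 := g2 A hA2
  have k3 := g3 A hA3
  have hDr : (0 : ℝ) < (D : ℝ) := by exact_mod_cast hD0
  have ha0 : (0 : ℝ) < (A : ℝ) := by exact_mod_cast hA0
  have ha1 : (1 : ℝ) ≤ (A : ℝ) := by exact_mod_cast hA0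
  have hx0 : ((bx x1 x2 x3 A).filter fun x => x ∈ L) =
      (bx x1 x2 x3 A).filter fun x => x - 0 ∈ L := by
    refine filter_congr fun x _ => ?_
    rw [sub_zero]
  have hsum0 : (0 : ℝ) ≤ ∑ v ∈ (cube ⌊(A : ℝ) ^ (0.9853 : ℝ)⌋₊).filter fun v => v ∈ L,
      (1 : ℝ) / (nrm v : ℝ) ^ 2 := sum_nonneg fun v _ => by positivity
  obtain ⟨N, hN⟩ : ∃ N : ℝ, N = (((bx x1 x2 x3 A).filter fun x => x ∈ L).card : ℝ) := ⟨_, rfl⟩
  rw [← hN]
  rw [hx0] at hN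
  obtain ⟨U, hU⟩ : ∃ U : ℝ, U = ∑ v ∈ (cube ⌊(A : ℝ) ^ (0.9853 : ℝ)⌋₊).filter fun v => v ∈ L,
      (1 : ℝ) / (nrm v : ℝ) ^ 2 := ⟨_, rfl⟩
  rw [← hU] at hsum0 ⊢
  obtain ⟨a, ha⟩ : ∃ a : ℝ, a = (A : ℝ) := ⟨_, rfl⟩
  rw [← ha] at hDA k1 k2 k3 ha0 ha1 hU ⊢
  have hadd : ∀ s t u : ℝ, s + t = u → a ^ s * a ^ t = a ^ u := fun s t u h => by
    rw [← Real.rpow_add ha0, h]
  have hpos : ∀ s : ℝ, 0 < a ^ s := fun s => Real.rpow_pos_of_pos ha0 s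
  have hone : ∀ s : ℝ, 0 ≤ s → 1 ≤ a ^ s := fun s hs => Real.one_le_rpow ha1 hs
  have hmo : ∀ s t : ℝ, s ≤ t → a ^ s ≤ a ^ t := fun s t h =>
    Real.rpow_le_rpow_of_exponent_le ha1 h
  obtain ⟨Z, hZ⟩ : ∃ Z : ℝ, Z = a ^ (-(0.9936 : ℝ)) := ⟨_, rfl⟩
  obtain ⟨W, hW⟩ : ∃ W : ℝ, W = a ^ (0.9936 : ℝ) := ⟨_, rfl⟩
  have hZ0 : 0 < Z := by rw [hZ]; exact hpos _
  have hW1 : 1 ≤ W := by rw [hW]; exact hone _ (by norm_num)
  have hWZ : W * Z = 1 := by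
    rw [hW, hZ, hadd _ _ 0 (by norm_num), Real.rpow_zero]
  obtain ⟨T, hT⟩ : ∃ T : ℝ, T = 3 * Real.sqrt (D * Z) := ⟨_, rfl⟩
  have hT2 : T ^ 2 = 9 * (D * Z) := by
    rw [hT, mul_pow, Real.sq_sqrt (by positivity)]
    norm_num
  have hT0 : 0 ≤ T := by rw [hT]; positivity
  have hTa : T ≤ 3 * a ^ (0.9852 : ℝ) := by
    rw [hT]
    refine mul_le_mul_of_nonneg_left ?_ (by norm_num)
    rw [Real.sqrt_le_iff]
    refine ⟨(hpos _).le, ?_⟩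
    have e1 : (a ^ (0.9852 : ℝ)) ^ 2 = a ^ (2.964 : ℝ) * Z := by
      rw [sq, hadd _ _ 1.9704 (by norm_num), hZ, hadd _ _ 1.9704 (by norm_num)]
    rw [e1]
    exact mul_le_mul_of_nonneg_right hDA hZ0.le
  have hE : 3 * a ^ (0.9852 : ℝ) ≤ W := by
    have e1 : a ^ (0.0084 : ℝ) * a ^ (0.9852 : ℝ) = W := by rw [hW]; exact hadd _ _ _ (by norm_num)
    rw [← e1]
    exact mul_le_mul_of_nonneg_right k1 (hpos _).le
  have hE3 : 3 * a ^ (0.9852 : ℝ) ≤ a ^ (0.9853 : ℝ) := by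
    have e1 : a ^ (0.0001 : ℝ) * a ^ (0.9852 : ℝ) = a ^ (0.9853 : ℝ) := hadd _ _ _ (by norm_num)
    rw [← e1]
    exact mul_le_mul_of_nonneg_right k3 (hpos _).le
  obtain ⟨R, hR⟩ : ∃ R : ℝ, R = max 1 T := ⟨_, rfl⟩
  have hR1 : 1 ≤ R := by rw [hR]; exact le_max_left _ _
  have hRT : T ≤ R := by rw [hR]; exact le_max_right _ _
  by_cases hc : ∀ v ∈ L, v ≠ 0 → R ≤ nrm v
  · -- no short vectors
    obtain ⟨S, hS⟩ : ∃ S : ℕ, S = ⌊W⌋₊ + 1 := ⟨_, rfl⟩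
    have hWS : W < S := by
      rw [hS]
      push_cast
      exact Nat.lt_floor_add_one W
    have hRW : R ≤ W := by
      rw [hR]
      exact max_le hW1 (hTa.trans hE)
    have h9 : 9 * (D : ℝ) / R ^ 2 < S := by
      rw [div_lt_iff₀ (by positivity)]
      calc 9 * (D : ℝ) = W * (9 * (D * Z)) := by
            have : W * (9 * (D * Z)) = 9 * D * (W * Z) := by ring
            rw [this, hWZ, mul_one]
        _ = W * T ^ 2 := by rw [hT2]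
        _ ≤ W * R ^ 2 := by gcongr
        _ < S * R ^ 2 := mul_lt_mul_of_pos_right hWS (by positivity)
    obtain ⟨v1, m1, v2, m2, v3, m3, n1, n2, n3, hdet⟩ := mk3 L D hL hD0 R hR1 hc S h9
      (hRW.trans hWS.le)
    have hfl : ∀ v : ℤ × ℤ × ℤ, nrm v < (S : ℤ) → (nrm v : ℝ) ≤ W := by
      intro v hv
      have h1 : nrm v ≤ (⌊W⌋₊ : ℤ) := by
        rw [hS] at hv
        push_cast at hv
        omega
      have h2 : (nrm v : ℝ) ≤ (⌊W⌋₊ : ℝ) := by exact_mod_cast h1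
      exact h2.trans (Nat.floor_le (by linarith))
    have h5 := (lat3 L D hL hD0 W hW1 v1 v2 v3 m1 m2 m3 hdet (hfl _ n1) (hfl _ n2) (hfl _ n3)
      x1 x2 x3 A 0).1
    rw [← hN, ← ha] at h5
    obtain ⟨y, hy⟩ : ∃ y : ℝ, y = 6 * a ^ (-(0.0064 : ℝ)) := ⟨_, rfl⟩
    have hy0 : 0 ≤ y := by rw [hy]; exact mul_nonneg (by norm_num) (hpos _).le
    have hy1 : y ≤ 1 := by
      have e1 : a ^ (0.0064 : ℝ) * a ^ (-(0.0064 : ℝ)) = 1 := by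
        rw [hadd _ _ 0 (by norm_num), Real.rpow_zero]
      rw [hy, ← e1]
      exact mul_le_mul_of_nonneg_right k2 (hpos _).le
    have e2 : a + 6 * W = a * (1 + y) := by
      have e3 : a * a ^ (-(0.0064 : ℝ)) = W := by
        have := hadd 1 (-(0.0064 : ℝ)) (0.9936 : ℝ) (by norm_num)
        rw [Real.rpow_one] at this
        rw [this, hW]
      rw [hy, ← e3]
      ring
    have e4 : y ≤ 6 * a ^ (-(0.0063 : ℝ)) := by
      rw [hy]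
      exact mul_le_mul_of_nonneg_left (hmo _ _ (by norm_num)) (by norm_num)
    have e5 : (a + 6 * W) ^ 3 ≤ a ^ 3 * (1 + 4000 * a ^ (-(0.0063 : ℝ))) := by
      rw [e2, mul_pow]
      refine mul_le_mul_of_nonneg_left ?_ (by positivity)
      refine (tup_cub hy0 hy1).trans ?_
      have := hpos (-(0.0063 : ℝ))
      linarith
    have e6 : N ≤ (1 + 4000 * a ^ (-(0.0063 : ℝ))) * (a ^ 3 / D) := by
      rw [mul_div_assoc', le_div_iff₀ hDr]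
      linarith [h5, e5]
    have e7 : 0 ≤ 4000 * a ^ (2.0064 : ℝ) * U :=
      mul_nonneg (mul_nonneg (by norm_num) (hpos _).le) hsum0
    linarith
  · push Not at hc
    obtain ⟨v0, hv0, hv00, hv1⟩ := hc
    obtain ⟨μ, hμL, hμ0, hmin⟩ := exists_min L hv0 hv00
    have hr1 : (1 : ℝ) ≤ (nrm μ : ℝ) := by exact_mod_cast nrm_pos hμ0
    have hmin' : ∀ v ∈ L, v ≠ 0 → (nrm μ : ℝ) ≤ nrm v := fun v hv h => by
      exact_mod_cast hmin v hv h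
    have h6 := cn3 L D hL hD0 (nrm μ : ℝ) hr1 hmin' x1 x2 x3 A hA0 0
    rw [← hN, ← ha] at h6
    have hrR : (nrm μ : ℝ) < R := (hmin' v0 hv0 hv00).trans_lt hv1
    have hmem : μ ∈ (cube ⌊a ^ (0.9853 : ℝ)⌋₊).filter fun v => v ∈ L := by
      rw [mem_filter, mem_cube]
      refine ⟨⟨hμ0, ?_⟩, hμL⟩
      have h7 : (nrm μ : ℝ) ≤ a ^ (0.9853 : ℝ) := by
        refine hrR.le.trans ?_
        rw [hR]
        exact max_le (hone _ (by norm_num)) (hTa.trans hE3)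
      have h8 : ((nrm μ).toNat : ℤ) = nrm μ := Int.toNat_of_nonneg (by
        have := nrm_pos hμ0
        omega)
      have h9 : (((nrm μ).toNat : ℕ) : ℝ) = (nrm μ : ℝ) := by
        rw [← Int.cast_natCast, h8]
      have h10 : (nrm μ).toNat ≤ ⌊a ^ (0.9853 : ℝ)⌋₊ := Nat.le_floor (by rw [h9]; exact h7)
      rw [← h8]
      exact_mod_cast h10
    have hge : 1 / (nrm μ : ℝ) ^ 2 ≤ U := by
      rw [hU]
      exact single_le_sum (f := fun v : ℤ × ℤ × ℤ => (1 : ℝ) / (nrm v : ℝ) ^ 2)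
        (fun v _ => by positivity) hmem
    obtain ⟨r, hr⟩ : ∃ r : ℝ, r = (nrm μ : ℝ) := ⟨_, rfl⟩
    rw [← hr] at hr1 h6 hrR hge
    have hr0 : 0 < r := by linarith
    have hrT : r < T := by
      rw [hR, lt_max_iff] at hrR
      rcases hrR with h | h
      · linarith
      · exact h
    have hra : r ≤ a := by
      have h7 : r ≤ a ^ (0.9853 : ℝ) := hrT.le.trans (hTa.trans hE3)
      have h8 : a ^ (0.9853 : ℝ) ≤ a ^ (1 : ℝ) := hmo _ _ (by norm_num)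
      rw [Real.rpow_one] at h8
      exact h7.trans h8
    have hr2 : r ^ 2 ≤ 9 * (D * Z) := by
      rw [← hT2]
      exact pow_le_pow_left₀ hr0.le hrT.le 2
    have haZ : a ^ 3 * Z = a ^ (2.0064 : ℝ) := by
      rw [hZ, ← Real.rpow_natCast, hadd _ _ 2.0064 (by norm_num)]
    have f1 : a ^ 3 / D ≤ 9 * a ^ (2.0064 : ℝ) * (1 / r ^ 2) := by
      rw [mul_one_div, div_le_div_iff₀ hDr (by positivity), ← haZ]
      calc a ^ 3 * r ^ 2 ≤ a ^ 3 * (9 * (D * Z)) := by gcongr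
        _ = 9 * (a ^ 3 * Z) * D := by ring
    have f2 : (2 * a / r + 1) ^ 2 ≤ 9 * a ^ (2.0064 : ℝ) * (1 / r ^ 2) := by
      have f3 : 2 * a / r + 1 ≤ 3 * a / r := by
        rw [div_add_one hr0.ne', div_le_div_iff_of_pos_right hr0]
        linarith
      have f4 : 0 ≤ 2 * a / r + 1 := by positivity
      have f5 : a ^ 2 ≤ a ^ (2.0064 : ℝ) := by
        have := hmo 2 2.0064 (by norm_num)
        rwa [Real.rpow_two] at this
      calc (2 * a / r + 1) ^ 2 ≤ (3 * a / r) ^ 2 := pow_le_pow_left₀ f4 f3 2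
        _ = 9 * a ^ 2 * (1 / r ^ 2) := by
          rw [div_pow]
          ring
        _ ≤ 9 * a ^ (2.0064 : ℝ) * (1 / r ^ 2) := by gcongr
    have f6 : N ≤ 4000 * a ^ (2.0064 : ℝ) * (1 / r ^ 2) := by
      have f7 : 343 * a ^ 3 / D = 343 * (a ^ 3 / D) := by ring
      rw [f7] at h6
      have f8 : 0 ≤ a ^ (2.0064 : ℝ) * (1 / r ^ 2) := mul_nonneg (hpos _).le (by positivity)
      nlinarith [h6, f1, f2, f8]
    have f9 : 4000 * a ^ (2.0064 : ℝ) * (1 / r ^ 2) ≤ 4000 * a ^ (2.0064 : ℝ) * U :=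
      mul_le_mul_of_nonneg_left hge (mul_nonneg (by norm_num) (hpos _).le)
    have f10 : 0 ≤ (1 + 4000 * a ^ (-(0.0063 : ℝ))) * (a ^ 3 / D) := by
      have := hpos (-(0.0063 : ℝ))
      positivity
    linarith

end H71.DV
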