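import Pool.Agent.H71.DV.Def
import Pool.Agent.H23.LP.M1

/-!
# [H71 DV WLO] lower bounds for the masses, 80-140 lines

`ms (PP k A u v) = ∑_{p prime, A^u < p ≤ A^v} nu k p/p` (`PP` is the set of the pairs `(p, ρ)`, `ρ < p`, `p ∣ ρ³ - k`; `nu k p` counts the `ρ`). `mer1` with `ε = 1/10000` at `A^u` and `A^v` (`A ≥ A0`):
`∑_{A^u < p ≤ A^v} nu log p/p ≥ ((1-ε) v - (1+ε) u) log A`, and `log p ≤ v log A`, so `ms ≥ ((1-ε) v - (1+ε) u)/v`. For `(u,v) = (0.72, 0.7204)`: `≥ (0.0004 - 0.00014404)/0.7204 ≥ 0.0003`; for `(0.761, 0.7614)`: `≥ (0.0004 - 0.00015224)/0.7614 ≥ 0.0003`.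
`W0 = #GG * (ms P1 * ms P2)`, `#GG = Gn A ≥ A^0.0062`; `W0 ≥ 9·10^(-8) A^0.0062`. (`mer1` is `Pool/Agent/H23/LP/M1.lean`.)
-/

set_option autoImplicit false

namespace H71.DV

open Finset H96.DR H23.LP

theorem W0_eq (k : ℤ) (A : ℕ) : W0 k A = (GG A).card * (ms (P1 k A) * ms (P2 k A)) := rfl

theorem card_GG (A : ℕ) : (GG A).card = Gn A := by
  unfold GG
  rw [Int.card_Ioc]
  omega

theorem Gn_bd (A : ℕ) (hA : 1 ≤ A) : (A : ℝ) ^ (0.0062 : ℝ) ≤ Gn A ∧ (Gn A : ℝ) ≤ 2 * (A : ℝ) ^ (0.0062 : ℝ) := by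
  have h1 : (1 : ℝ) ≤ (A : ℝ) ^ (0.0062 : ℝ) :=
    Real.one_le_rpow (by exact_mod_cast hA) (by norm_num)
  unfold Gn
  refine ⟨Nat.le_ceil _, ?_⟩
  have h2 := Nat.ceil_lt_add_one (show (0 : ℝ) ≤ (A : ℝ) ^ (0.0062 : ℝ) by linarith)
  linarith

/-- the mass is a sum over primes -/
private theorem ms_eq (k : ℤ) (A : ℕ) (u v : ℝ) : ms (PP k A u v) =
    ∑ p ∈ (Icc 1 ⌊(A : ℝ) ^ v⌋₊).filter (fun p : ℕ => p.Prime ∧ (A : ℝ) ^ u < p), (nu k p : ℝ) / p := by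
  classical
  have hA0 : (0 : ℝ) ≤ (A : ℝ) ^ v := Real.rpow_nonneg (Nat.cast_nonneg _) _
  unfold ms PP
  rw [sum_filter, sum_product, sum_filter]
  have hsub : Icc 1 ⌊(A : ℝ) ^ v⌋₊ ⊆ range (⌊(A : ℝ) ^ v⌋₊ + 1) := by
    intro p hp
    rw [mem_Icc] at hp
    rw [mem_range]
    omega
  rw [← sum_subset hsub]
  · refine sum_congr rfl fun p hp => ?_
    rw [mem_Icc] at hp
    have hpv : (p : ℝ) ≤ (A : ℝ) ^ v := (Nat.le_floor_iff hA0).1 hp.2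
    split_ifs with h
    · have h1 : ∀ t ∈ range (⌊(A : ℝ) ^ v⌋₊ + 1),
          (if p.Prime ∧ (A : ℝ) ^ u < (p : ℝ) ∧ (p : ℝ) ≤ (A : ℝ) ^ v ∧ t < p ∧ (p : ℤ) ∣ (t : ℤ) ^ 3 - k then
            1 / (p : ℝ) else 0) = if t < p ∧ (p : ℤ) ∣ (t : ℤ) ^ 3 - k then 1 / (p : ℝ) else 0 := by
        intro t _
        have h2 : (p.Prime ∧ (A : ℝ) ^ u < (p : ℝ) ∧ (p : ℝ) ≤ (A : ℝ) ^ v ∧ t < p ∧ (p : ℤ) ∣ (t : ℤ) ^ 3 - k) ↔
            (t < p ∧ (p : ℤ) ∣ (t : ℤ) ^ 3 - k) :=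
          ⟨fun h3 => ⟨h3.2.2.2.1, h3.2.2.2.2⟩, fun h3 => ⟨h.1, h.2, hpv, h3.1, h3.2⟩⟩
        simp only [h2]
      rw [sum_congr rfl h1, ← sum_filter, sum_const, nsmul_eq_mul]
      have h3 : (range (⌊(A : ℝ) ^ v⌋₊ + 1)).filter (fun t : ℕ => t < p ∧ (p : ℤ) ∣ (t : ℤ) ^ 3 - k) =
          (range p).filter fun t : ℕ => (p : ℤ) ∣ (t : ℤ) ^ 3 - k := by
        ext t
        rw [mem_filter, mem_filter, mem_range, mem_range]
        constructor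
        · rintro ⟨_, h4, h5⟩
          exact ⟨h4, h5⟩
        · rintro ⟨h4, h5⟩
          exact ⟨by omega, h4, h5⟩
      rw [h3, nu]
      ring
    · refine sum_eq_zero fun t _ => ?_
      rw [if_neg]
      rintro ⟨h1, h2, -⟩
      exact h ⟨h1, h2⟩
  · intro p hp hp'
    have hp0 : p = 0 := by
      rw [mem_range] at hp
      rw [mem_Icc] at hp'
      omega
    subst hp0
    refine sum_eq_zero fun t _ => ?_
    rw [if_neg]
    rintro ⟨h1, -⟩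
    exact Nat.not_prime_zero h1

private theorem ms_low (k : ℤ) (hk : ∀ t : ℤ, t ^ 3 ≠ k) (u v c ε : ℝ) (hu : 0 < u) (huv : u < v)
    (hε : 0 < ε) (hc : c * v ≤ (1 - ε) * v - (1 + ε) * u) :
    ∃ A0 : ℕ, ∀ A : ℕ, A0 ≤ A → c ≤ ms (PP k A u v) := by
  classical
  obtain ⟨x0, hx0⟩ := mer1 k hk ε hε
  have ht : ∀ w : ℝ, 0 < w → ∃ A1 : ℕ, ∀ A : ℕ, A1 ≤ A → x0 ≤ (A : ℝ) ^ w := by
    intro w hw
    have h1 := (tendsto_rpow_atTop hw).comp (tendsto_natCast_atTop_atTop (R := ℝ))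
    obtain ⟨A1, hA1⟩ := Filter.eventually_atTop.1 (h1.eventually_ge_atTop x0)
    exact ⟨A1, hA1⟩
  obtain ⟨A1, hA1⟩ := ht u hu
  obtain ⟨A2, hA2⟩ := ht v (hu.trans huv)
  refine ⟨max 2 (max A1 A2), fun A hA => ?_⟩
  have hA2' : 2 ≤ A := (le_max_left _ _).trans hA
  have hAR : (2 : ℝ) ≤ A := by exact_mod_cast hA2'
  have hA0 : (0 : ℝ) < A := by linarith
  have hlog : 0 < Real.log A := Real.log_pos (by linarith)
  have hv : 0 < v := hu.trans huv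
  have hu1 := hx0 _ (hA1 A (((le_max_left _ _).trans (le_max_right _ _)).trans hA))
  have hv1 := hx0 _ (hA2 A (((le_max_right _ _).trans (le_max_right _ _)).trans hA))
  rw [Real.log_rpow hA0] at hu1 hv1
  have hu2 := (abs_le.1 hu1).2
  have hv2 := (abs_le.1 hv1).1
  obtain ⟨g, hg⟩ : ∃ g : ℕ → ℝ, g = fun p => (nu k p : ℝ) * Real.log p / p := ⟨_, rfl⟩
  have hg0 : ∀ p, 0 ≤ g p := by
    intro p
    rw [hg]
    have := Real.log_natCast_nonneg p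
    positivity
  have hsplit : ∑ p ∈ (Icc 1 ⌊(A : ℝ) ^ v⌋₊).filter Nat.Prime, g p ≤
      ∑ p ∈ (Icc 1 ⌊(A : ℝ) ^ u⌋₊).filter Nat.Prime, g p +
      ∑ p ∈ (Icc 1 ⌊(A : ℝ) ^ v⌋₊).filter (fun p : ℕ => p.Prime ∧ (A : ℝ) ^ u < p), g p := by
    have h1 : (Icc 1 ⌊(A : ℝ) ^ v⌋₊).filter Nat.Prime ⊆ ((Icc 1 ⌊(A : ℝ) ^ u⌋₊).filter Nat.Prime) ∪
        ((Icc 1 ⌊(A : ℝ) ^ v⌋₊).filter (fun p : ℕ => p.Prime ∧ (A : ℝ) ^ u < p)) := by
      intro p hp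
      rw [mem_filter, mem_Icc] at hp
      rw [mem_union, mem_filter, mem_filter, mem_Icc, mem_Icc]
      rcases le_or_gt ((p : ℝ)) ((A : ℝ) ^ u) with h | h
      · left
        exact ⟨⟨hp.1.1, Nat.le_floor h⟩, hp.2⟩
      · right
        exact ⟨hp.1, hp.2, h⟩
    refine (sum_le_sum_of_subset_of_nonneg h1 fun p _ _ => hg0 p).trans ?_
    have h2 := sum_union_inter (s₁ := (Icc 1 ⌊(A : ℝ) ^ u⌋₊).filter Nat.Prime)
      (s₂ := (Icc 1 ⌊(A : ℝ) ^ v⌋₊).filter (fun p : ℕ => p.Prime ∧ (A : ℝ) ^ u < p)) (f := g)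
    have h3 : 0 ≤ ∑ p ∈ ((Icc 1 ⌊(A : ℝ) ^ u⌋₊).filter Nat.Prime) ∩
        ((Icc 1 ⌊(A : ℝ) ^ v⌋₊).filter (fun p : ℕ => p.Prime ∧ (A : ℝ) ^ u < p)), g p :=
      sum_nonneg fun p _ => hg0 p
    linarith
  have hle : ∑ p ∈ (Icc 1 ⌊(A : ℝ) ^ v⌋₊).filter (fun p : ℕ => p.Prime ∧ (A : ℝ) ^ u < p), g p ≤
      v * Real.log A * ms (PP k A u v) := by
    rw [ms_eq, mul_sum]
    refine sum_le_sum fun p hp => ?_
    rw [mem_filter, mem_Icc] at hp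
    have hp0 : (0 : ℝ) < p := by exact_mod_cast hp.1.1
    have hpv : (p : ℝ) ≤ (A : ℝ) ^ v := (Nat.le_floor_iff (Real.rpow_nonneg hA0.le _)).1 hp.1.2
    have h1 : Real.log p ≤ v * Real.log A := by
      rw [← Real.log_rpow hA0]
      exact Real.log_le_log hp0 hpv
    rw [hg]
    simp only []
    have h2 : (0 : ℝ) ≤ (nu k p : ℝ) / p := by positivity
    calc (nu k p : ℝ) * Real.log p / p = Real.log p * ((nu k p : ℝ) / p) := by ring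
      _ ≤ v * Real.log A * ((nu k p : ℝ) / p) := mul_le_mul_of_nonneg_right h1 h2
  have hgg : ∀ s : Finset ℕ, ∑ p ∈ s, (nu k p : ℝ) * Real.log p / p = ∑ p ∈ s, g p := by
    intro s
    rw [hg]
  rw [hgg] at hu2 hv2
  have h5 : ((1 - ε) * v - (1 + ε) * u) * Real.log A ≤ v * Real.log A * ms (PP k A u v) := by
    nlinarith
  have h6 : c * v * Real.log A ≤ v * Real.log A * ms (PP k A u v) :=
    (mul_le_mul_of_nonneg_right hc hlog.le).trans h5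
  have h7 : 0 < v * Real.log A := by positivity
  have h8 : v * Real.log A * c ≤ v * Real.log A * ms (PP k A u v) := by linarith
  exact le_of_mul_le_mul_left h8 h7

theorem W0_low (k : ℤ) (hk : ∀ t : ℤ, t ^ 3 ≠ k) : ∃ c : ℝ, 0 < c ∧ ∃ A0 : ℕ, ∀ A : ℕ, A0 ≤ A →
    c * (A : ℝ) ^ (0.0062 : ℝ) ≤ W0 k A := by
  obtain ⟨A1, hA1⟩ := ms_low k hk 0.72 0.7204 0.0003 0.0001 (by norm_num) (by norm_num) (by norm_num)
    (by norm_num)
  obtain ⟨A2, hA2⟩ := ms_low k hk 0.761 0.7614 0.0003 0.0001 (by norm_num) (by norm_num) (by norm_num)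
    (by norm_num)
  refine ⟨0.0003 * 0.0003, by norm_num, max 1 (max A1 A2), fun A hA => ?_⟩
  have h1 := hA1 A (((le_max_left _ _).trans (le_max_right _ _)).trans hA)
  have h2 := hA2 A (((le_max_right _ _).trans (le_max_right _ _)).trans hA)
  have h3 := (Gn_bd A ((le_max_left _ _).trans hA)).1
  rw [W0_eq, card_GG, P1, P2]
  have h4 : (0.0003 * 0.0003 : ℝ) ≤ ms (PP k A 0.72 0.7204) * ms (PP k A 0.761 0.7614) :=
    mul_le_mul h1 h2 (by norm_num) (le_trans (by norm_num) h1)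
  rw [mul_comm]
  exact mul_le_mul h3 h4 (by norm_num) (Nat.cast_nonneg _)

end H71.DV
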