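import Pool.Agent.H71.DV.Off
import Pool.Agent.H71.DV.Fst
import Pool.Agent.H71.DV.Wlo

/-!
# [H71 DV VAR] the variance, 100-180 lines

`WW = ∑_{g ∈ GG} RR_g`, `RR_g(x) = RR k A g (x.1 + g x.2.1) x.2.2`, `#Bx = A³`, `#GG = Gn A ≤ 2 A^0.0062`. `∑_x (WW - W0)² = ∑_{g,g'} ∑_x RR_g RR_g' - 2 W0 ∑_g ∑_x RR_g + W0² A³`.
Diagonal `g = g'`: `RR_g ≤ 144` on `Bx` (`rr_le`: for `x ∈ Bx`, `|x.1|, |x.2.1|, |x.2.2| ≤ C1 A`, `C1 = (2 L² + L + 1)(M + 1)`, so `|x.1 + g x.2.1| ≤ C1 A (1 + 4 A^0.0062) ≤ A^1.01`, and `x.2.2 > 0`), so it is `≤ 2 A^0.0062 · 144² A³ = C A^3.0062`.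
Off-diagonal: `off`, at most `(#GG)²` pairs: `≤ (1 + C A^(-0.0063)) A³ W0² + 4 C A^(0.0124 + 2.9919)` (all terms are `≥ 0`; `(#GG)² (ms ms)² = W0²`), and `A^3.0043 ≤ A^3.0062`.
First moment: `∑_x WW ≥ (1 - A^(-0.0063)) A³ W0` (`fst`). Total `≤ C' A^3.0062 + (C + 2) W0² A^2.9937`.
-/

set_option autoImplicit false

namespace H71.DV

open Finset H96.DR H23.LP

theorem card_Bx (k : ℤ) (M A : ℕ) : (Bx k M A).card = A ^ 3 := by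
  unfold Bx Ia Ib Ic
  rw [card_product, card_product, Int.card_Ioc, Int.card_Ioc, Int.card_Ioc]
  simp only [add_sub_cancel_left, Int.toNat_natCast]
  ring

private theorem ev_pow' (c u : ℝ) (hu : 0 < u) : ∃ A0 : ℕ, ∀ A : ℕ, A0 ≤ A → c ≤ (A : ℝ) ^ u := by
  have h := ((tendsto_rpow_atTop hu).comp tendsto_natCast_atTop_atTop).eventually_ge_atTop c
  obtain ⟨A0, h⟩ := Filter.eventually_atTop.1 h
  exact ⟨A0, h⟩

private theorem rr_box (k : ℤ) (hk : ∀ t : ℤ, t ^ 3 ≠ k) (M : ℕ) (hM : 1 ≤ M) : ∃ A0 : ℕ, ∀ A : ℕ, A0 ≤ A →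
    ∀ g ∈ GG A, ∀ x ∈ Bx k M A, RR k A g (x.1 + g * x.2.1) x.2.2 ≤ 144 := by
  obtain ⟨A1, h1⟩ := rr_le k hk
  obtain ⟨C1, hC1⟩ : ∃ C1 : ℝ, C1 = 2 * |(LL k : ℝ)| ^ 2 * M + |(LL k : ℝ)| * M + M + 1 := ⟨_, rfl⟩
  obtain ⟨A2, h2⟩ := ev_pow' (5 * C1) 0.0038 (by norm_num)
  have hM' : (1 : ℝ) ≤ M := by exact_mod_cast hM
  have hC1' : 1 ≤ C1 := by
    rw [hC1]
    have : 0 ≤ |(LL k : ℝ)| := abs_nonneg _
    nlinarith [mul_nonneg (sq_nonneg |(LL k : ℝ)|) (by linarith : (0:ℝ) ≤ M), mul_nonneg this (by linarith : (0:ℝ) ≤ M)]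
  refine ⟨max 1 (max A1 A2), fun A hA g hg x hx => ?_⟩
  have hA1' : 1 ≤ A := (le_max_left _ _).trans hA
  have hAA1 : A1 ≤ A := ((le_max_left _ _).trans (le_max_right _ _)).trans hA
  have hAA2 : A2 ≤ A := ((le_max_right _ _).trans (le_max_right _ _)).trans hA
  have hA1 : (1 : ℝ) ≤ A := by exact_mod_cast hA1'
  have hA0 : (0 : ℝ) < A := by linarith
  have h5 := h2 A hAA2
  unfold Bx Ia Ib Ic at hx
  rw [mem_product, mem_product, mem_Ioc, mem_Ioc, mem_Ioc] at hx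
  obtain ⟨⟨a1, a2⟩, ⟨b1, b2⟩, c1, c2⟩ := hx
  have a1' : (2 * (LL k : ℝ) ^ 2 * (M * A)) < (x.1 : ℝ) := by exact_mod_cast a1
  have a2' : (x.1 : ℝ) ≤ (2 * (LL k : ℝ) ^ 2 * (M * A)) + A := by exact_mod_cast a2
  have b1' : ((LL k : ℝ) * (M * A)) < (x.2.1 : ℝ) := by exact_mod_cast b1
  have b2' : (x.2.1 : ℝ) ≤ ((LL k : ℝ) * (M * A)) + A := by exact_mod_cast b2
  have c1' : ((M : ℝ) * A) < (x.2.2 : ℝ) := by exact_mod_cast c1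
  have c2' : (x.2.2 : ℝ) ≤ ((M : ℝ) * A) + A := by exact_mod_cast c2
  have hMA : (0 : ℝ) ≤ M * A := by positivity
  have l1 : (LL k : ℝ) ≤ |(LL k : ℝ)| := le_abs_self _
  have l2 : -|(LL k : ℝ)| ≤ (LL k : ℝ) := neg_abs_le _
  have l3 : 0 ≤ |(LL k : ℝ)| := abs_nonneg _
  have l4 : (LL k : ℝ) ^ 2 = |(LL k : ℝ)| ^ 2 := (sq_abs _).symm
  have l5 : 0 ≤ |(LL k : ℝ)| ^ 2 * (M * A) := by positivity
  have l6 : 0 ≤ |(LL k : ℝ)| * (M * A) := by positivity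
  have l7 : (LL k : ℝ) * (M * A) ≤ |(LL k : ℝ)| * (M * A) := mul_le_mul_of_nonneg_right l1 hMA
  have l8 : -(|(LL k : ℝ)| * (M * A)) ≤ (LL k : ℝ) * (M * A) := by
    have := mul_le_mul_of_nonneg_right l2 hMA
    linarith
  have hC : C1 * A = 2 * (|(LL k : ℝ)| ^ 2 * (M * A)) + |(LL k : ℝ)| * (M * A) + M * A + A := by
    rw [hC1]
    ring
  have l9 : 2 * (LL k : ℝ) ^ 2 * (M * A) = 2 * (|(LL k : ℝ)| ^ 2 * (M * A)) := by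
    rw [l4]
    ring
  rw [l9] at a1' a2'
  have ha : |(x.1 : ℝ)| ≤ C1 * A := by
    rw [hC, abs_le]
    constructor <;> linarith
  have hb : |(x.2.1 : ℝ)| ≤ C1 * A := by
    rw [hC, abs_le]
    constructor <;> linarith
  have hc : |(x.2.2 : ℝ)| ≤ C1 * A := by
    rw [hC, abs_le]
    constructor <;> linarith
  have hp1 : (A : ℝ) * (A : ℝ) ^ (0.0062 : ℝ) * (A : ℝ) ^ (0.0038 : ℝ) = (A : ℝ) ^ (1.01 : ℝ) := by
    nth_rewrite 1 [← Real.rpow_one (A : ℝ)]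
    rw [← Real.rpow_add hA0, ← Real.rpow_add hA0]
    norm_num
  have hp2 : (1 : ℝ) ≤ (A : ℝ) ^ (0.0062 : ℝ) := Real.one_le_rpow hA1 (by norm_num)
  have hbig : 5 * C1 * (A * (A : ℝ) ^ (0.0062 : ℝ)) ≤ (A : ℝ) ^ (1.01 : ℝ) := by
    rw [← hp1]
    have : 0 ≤ (A : ℝ) * (A : ℝ) ^ (0.0062 : ℝ) := by positivity
    nlinarith [mul_le_mul_of_nonneg_left h5 this]
  have hCA : C1 * A ≤ C1 * (A * (A : ℝ) ^ (0.0062 : ℝ)) :=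
    mul_le_mul_of_nonneg_left (le_mul_of_one_le_right hA0.le hp2) (by linarith)
  have hpos : 0 ≤ C1 * (A * (A : ℝ) ^ (0.0062 : ℝ)) := by positivity
  apply h1 A hAA1 g hg
  · unfold GG at hg
    rw [mem_Ioc] at hg
    have h3 : (0 : ℝ) ≤ (g : ℝ) := by
      have : (0 : ℤ) ≤ g := le_trans (Int.natCast_nonneg _) hg.1.le
      exact_mod_cast this
    have h4 : (g : ℝ) ≤ 4 * (A : ℝ) ^ (0.0062 : ℝ) := by
      have h6 : (g : ℝ) ≤ 2 * (Gn A : ℝ) := by exact_mod_cast hg.2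
      have h7 := (Gn_bd A hA1').2
      linarith
    push_cast
    have h6 : |(x.1 : ℝ) + g * x.2.1| ≤ C1 * A + 4 * (A : ℝ) ^ (0.0062 : ℝ) * (C1 * A) := by
      refine (abs_add_le _ _).trans (add_le_add ha ?_)
      rw [abs_mul, abs_of_nonneg h3]
      exact mul_le_mul h4 hb (abs_nonneg _) (by positivity)
    have h7 : 4 * (A : ℝ) ^ (0.0062 : ℝ) * (C1 * A) = 4 * (C1 * (A * (A : ℝ) ^ (0.0062 : ℝ))) := by ring
    linarith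
  · linarith
  · rintro ⟨-, h0⟩
    rw [h0] at c1
    have : (0 : ℤ) ≤ (M : ℤ) * A := by positivity
    linarith

theorem var (k : ℤ) (hk : ∀ t : ℤ, t ^ 3 ≠ k) (M : ℕ) (hM : 1 ≤ M) : ∃ C : ℝ, 0 < C ∧ ∃ A0 : ℕ, ∀ A : ℕ, A0 ≤ A →
    ∑ x ∈ Bx k M A, ((WW k A x.1 x.2.1 x.2.2 : ℝ) - W0 k A) ^ 2 ≤
      C * (A : ℝ) ^ (3.0062 : ℝ) + C * W0 k A ^ 2 * (A : ℝ) ^ (2.9937 : ℝ) := by
  classical
  obtain ⟨C, hC, A1, h1⟩ := off k hk M hM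
  obtain ⟨A2, h2⟩ := fst k hk M hM
  obtain ⟨A3, h3⟩ := rr_box k hk M hM
  refine ⟨4 * C + 41472 + 2, by positivity, max 1 (max A1 (max A2 A3)), fun A hA => ?_⟩
  have hA1' : 1 ≤ A := (le_max_left _ _).trans hA
  have hAA1 : A1 ≤ A := ((le_max_left _ _).trans (le_max_right _ _)).trans hA
  have hAA2 : A2 ≤ A := (((le_max_left _ _).trans (le_max_right _ _)).trans (le_max_right _ _)).trans hA
  have hAA3 : A3 ≤ A := (((le_max_right _ _).trans (le_max_right _ _)).trans (le_max_right _ _)).trans hA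
  have hA1 : (1 : ℝ) ≤ A := by exact_mod_cast hA1'
  have hA0 : (0 : ℝ) < A := by linarith
  obtain ⟨R, hR⟩ : ∃ R : ℤ → ℤ × ℤ × ℤ → ℝ, R = fun g x => (RR k A g (x.1 + g * x.2.1) x.2.2 : ℝ) := ⟨_, rfl⟩
  obtain ⟨μ, hμ⟩ : ∃ μ : ℝ, μ = ms (P1 k A) * ms (P2 k A) := ⟨_, rfl⟩
  obtain ⟨n, hn⟩ : ∃ n : ℝ, n = ((GG A).card : ℝ) := ⟨_, rfl⟩
  obtain ⟨δ, hδ⟩ : ∃ δ : ℝ, δ = (A : ℝ) ^ (-(0.0063 : ℝ)) := ⟨_, rfl⟩
  have hW0 : W0 k A = n * μ := by rw [W0_eq, hn, hμ]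
  have hWW : ∀ x : ℤ × ℤ × ℤ, (WW k A x.1 x.2.1 x.2.2 : ℝ) = ∑ g ∈ GG A, R g x := by
    intro x
    rw [hR]
    unfold WW
    push_cast
    rfl
  have hδ0 : 0 ≤ δ := by rw [hδ]; positivity
  have hn0 : 0 ≤ n := by rw [hn]; positivity
  have hnA : n ≤ 2 * (A : ℝ) ^ (0.0062 : ℝ) := by
    rw [hn, card_GG]
    exact (Gn_bd A hA1').2
  have hR0 : ∀ g x, 0 ≤ R g x := by
    intro g x
    rw [hR]
    exact Nat.cast_nonneg _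
  have hR144 : ∀ g ∈ GG A, ∀ x ∈ Bx k M A, R g x ≤ 144 := by
    intro g hg x hx
    rw [hR]
    change ((RR k A g (x.1 + g * x.2.1) x.2.2 : ℕ) : ℝ) ≤ 144
    exact_mod_cast h3 A hAA3 g hg x hx
  -- expansion
  have hexp : ∑ x ∈ Bx k M A, ((WW k A x.1 x.2.1 x.2.2 : ℝ) - W0 k A) ^ 2 =
      (∑ g ∈ GG A, ∑ g' ∈ GG A, ∑ x ∈ Bx k M A, R g x * R g' x) -
      2 * (n * μ) * (∑ g ∈ GG A, ∑ x ∈ Bx k M A, R g x) + (n * μ) ^ 2 * (A : ℝ) ^ 3 := by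
    have e1 : ∀ x ∈ Bx k M A, ((WW k A x.1 x.2.1 x.2.2 : ℝ) - W0 k A) ^ 2 =
        (∑ g ∈ GG A, ∑ g' ∈ GG A, R g x * R g' x) - 2 * (n * μ) * (∑ g ∈ GG A, R g x) + (n * μ) ^ 2 := by
      intro x _
      rw [hWW, hW0, ← sum_mul_sum]
      ring
    rw [sum_congr rfl e1, sum_add_distrib, sum_sub_distrib, sum_const, nsmul_eq_mul, card_Bx]
    have e2 : ∑ x ∈ Bx k M A, ∑ g ∈ GG A, ∑ g' ∈ GG A, R g x * R g' x =
        ∑ g ∈ GG A, ∑ g' ∈ GG A, ∑ x ∈ Bx k M A, R g x * R g' x := by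
      rw [sum_comm]
      exact sum_congr rfl fun g _ => sum_comm
    have e3 : ∑ x ∈ Bx k M A, ∑ g ∈ GG A, R g x = ∑ g ∈ GG A, ∑ x ∈ Bx k M A, R g x := sum_comm
    rw [e2, ← mul_sum, e3]
    push_cast
    ring
  -- second moment
  have hpair : ∀ g ∈ GG A, ∀ g' ∈ GG A, ∑ x ∈ Bx k M A, R g x * R g' x ≤
      ((1 + C * δ) * (A : ℝ) ^ 3 * μ ^ 2 + C * (A : ℝ) ^ (2.9919 : ℝ)) + (if g' = g then 20736 * (A : ℝ) ^ 3 else 0) := by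
    intro g hg g' hg'
    by_cases hgg : g' = g
    · rw [if_pos hgg, hgg]
      have e3 : ∑ x ∈ Bx k M A, R g x * R g x ≤ ∑ x ∈ Bx k M A, (20736 : ℝ) := by
        refine sum_le_sum fun x hx => ?_
        have := mul_le_mul (hR144 g hg x hx) (hR144 g hg x hx) (hR0 g x) (by norm_num)
        linarith
      rw [sum_const, nsmul_eq_mul, card_Bx] at e3
      push_cast at e3
      have e4 : 0 ≤ (1 + C * δ) * (A : ℝ) ^ 3 * μ ^ 2 + C * (A : ℝ) ^ (2.9919 : ℝ) := by positivity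
      linarith
    · rw [if_neg hgg, add_zero]
      have e5 := h1 A hAA1 g hg g' hg' (fun h => hgg h.symm)
      rw [← hμ, ← hδ] at e5
      rw [hR]
      exact e5
  have hsec : ∑ g ∈ GG A, ∑ g' ∈ GG A, ∑ x ∈ Bx k M A, R g x * R g' x ≤
      n ^ 2 * ((1 + C * δ) * (A : ℝ) ^ 3 * μ ^ 2 + C * (A : ℝ) ^ (2.9919 : ℝ)) + n * (20736 * (A : ℝ) ^ 3) := by
    have e6 : ∀ g ∈ GG A, ∑ g' ∈ GG A, ∑ x ∈ Bx k M A, R g x * R g' x ≤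
        n * ((1 + C * δ) * (A : ℝ) ^ 3 * μ ^ 2 + C * (A : ℝ) ^ (2.9919 : ℝ)) + 20736 * (A : ℝ) ^ 3 := by
      intro g hg
      refine (sum_le_sum fun g' hg' => hpair g hg g' hg').trans ?_
      rw [sum_add_distrib, sum_const, nsmul_eq_mul, ← hn, sum_ite_eq', if_pos hg]
    refine (sum_le_sum e6).trans ?_
    rw [sum_const, nsmul_eq_mul, ← hn]
    exact le_of_eq (by ring)
  -- first moment
  have hfst : n * ((1 - δ) * (A : ℝ) ^ 3 * μ) ≤ ∑ g ∈ GG A, ∑ x ∈ Bx k M A, R g x := by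
    have e7 : ∀ g ∈ GG A, (1 - δ) * (A : ℝ) ^ 3 * μ ≤ ∑ x ∈ Bx k M A, R g x := by
      intro g hg
      have e8 := h2 A hAA2 g hg
      rw [← hμ, ← hδ] at e8
      rw [hR]
      exact e8
    have e9 := sum_le_sum e7
    rw [sum_const, nsmul_eq_mul, ← hn] at e9
    exact e9
  have hμ0 : 0 ≤ μ := by
    rw [hμ]
    unfold ms
    positivity
  -- exponents
  have p1 : (A : ℝ) ^ 3 * δ = (A : ℝ) ^ (2.9937 : ℝ) := by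
    rw [hδ, ← Real.rpow_natCast, ← Real.rpow_add hA0]
    norm_num
  have p2 : n ^ 2 * (A : ℝ) ^ (2.9919 : ℝ) ≤ 4 * (A : ℝ) ^ (3.0062 : ℝ) := by
    have q1 : n ^ 2 ≤ (2 * (A : ℝ) ^ (0.0062 : ℝ)) ^ 2 := pow_le_pow_left₀ hn0 hnA 2
    have q2 : ((A : ℝ) ^ (0.0062 : ℝ)) ^ 2 * (A : ℝ) ^ (2.9919 : ℝ) ≤ (A : ℝ) ^ (3.0062 : ℝ) := by
      rw [sq, ← Real.rpow_add hA0, ← Real.rpow_add hA0]
      exact Real.rpow_le_rpow_of_exponent_le hA1 (by norm_num)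
    have q3 : 0 ≤ (A : ℝ) ^ (2.9919 : ℝ) := by positivity
    have q4 := mul_le_mul_of_nonneg_right q1 q3
    have q5 : (2 * (A : ℝ) ^ (0.0062 : ℝ)) ^ 2 * (A : ℝ) ^ (2.9919 : ℝ) =
      4 * (((A : ℝ) ^ (0.0062 : ℝ)) ^ 2 * (A : ℝ) ^ (2.9919 : ℝ)) := by ring
    linarith
  have p3 : n * (A : ℝ) ^ 3 ≤ 2 * (A : ℝ) ^ (3.0062 : ℝ) := by
    have q1 : (A : ℝ) ^ (0.0062 : ℝ) * (A : ℝ) ^ 3 = (A : ℝ) ^ (3.0062 : ℝ) := by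
      rw [← Real.rpow_natCast, ← Real.rpow_add hA0]
      norm_num
    have q2 : 0 ≤ (A : ℝ) ^ 3 := by positivity
    have q3 := mul_le_mul_of_nonneg_right hnA q2
    rw [mul_assoc, q1] at q3
    exact q3
  rw [hexp, hW0]
  have hnμ : 0 ≤ n * μ := mul_nonneg hn0 hμ0
  have t1 := mul_le_mul_of_nonneg_left hfst (by linarith : 0 ≤ 2 * (n * μ))
  have t2 : n ^ 2 * ((1 + C * δ) * (A : ℝ) ^ 3 * μ ^ 2 + C * (A : ℝ) ^ (2.9919 : ℝ)) =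
      (n * μ) ^ 2 * (A : ℝ) ^ 3 + C * (n * μ) ^ 2 * ((A : ℝ) ^ 3 * δ) + C * (n ^ 2 * (A : ℝ) ^ (2.9919 : ℝ)) := by ring
  have t3 : 2 * (n * μ) * (n * ((1 - δ) * (A : ℝ) ^ 3 * μ)) =
      2 * (n * μ) ^ 2 * (A : ℝ) ^ 3 - 2 * (n * μ) ^ 2 * ((A : ℝ) ^ 3 * δ) := by ring
  rw [t2, p1] at hsec
  rw [t3, p1] at t1
  have t4 := mul_le_mul_of_nonneg_left p2 hC.le
  have t5 : 0 ≤ (A : ℝ) ^ (3.0062 : ℝ) := by positivity
  have t6 : 0 ≤ (n * μ) ^ 2 * (A : ℝ) ^ (2.9937 : ℝ) := by positivity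
  have t7 : 0 ≤ C * ((n * μ) ^ 2 * (A : ℝ) ^ (2.9937 : ℝ)) := mul_nonneg hC.le t6
  nlinarith

end H71.DV
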